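import Pool.Agent.H314.MA.Defs

set_option autoImplicit false
open Set Filter Topology MeasureTheory
open scoped ContDiff ComplexConjugate

namespace Pool.Agent.H314.MA

theorem diffAt_fderiv_aux {u : C2 → ℝ} {z : C2} (hu : ContDiffAt ℝ 2 u z) :
    DifferentiableAt ℝ (fderiv ℝ u) z :=
  (hu.fderiv_right (m := 1) (by norm_num)).differentiableAt (by norm_num)

theorem ev_diff_aux {u : C2 → ℝ} {z : C2} (hu : ContDiffAt ℝ 2 u z) :
    ∀ᶠ y in 𝓝 z, DifferentiableAt ℝ u y := by
  filter_upwards [hu.eventually (by simp)] with y hy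
  exact hy.differentiableAt (by norm_num)

theorem hess_symm (u : C2 → ℝ) (z : C2) (hu : ContDiffAt ℝ 2 u z) (v w : C2) :
    hess u z v w = hess u z w v := by
  have h := hu.isSymmSndFDerivAt (by simp)
  exact h.eq v w

theorem hess_add (u v : C2 → ℝ) (z : C2) (hu : ContDiffAt ℝ 2 u z) (hv : ContDiffAt ℝ 2 v z)
    (a b : C2) : hess (fun z => u z + v z) z a b = hess u z a b + hess v z a b := by
  have h : fderiv ℝ (fun z => u z + v z) =ᶠ[𝓝 z] fun y => fderiv ℝ u y + fderiv ℝ v y := by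
    filter_upwards [ev_diff_aux hu, ev_diff_aux hv] with y h1 h2
    exact fderiv_fun_add h1 h2
  unfold hess
  rw [h.fderiv_eq, fderiv_fun_add (diffAt_fderiv_aux hu) (diffAt_fderiv_aux hv)]
  rfl

theorem hess_sub (u v : C2 → ℝ) (z : C2) (hu : ContDiffAt ℝ 2 u z) (hv : ContDiffAt ℝ 2 v z)
    (a b : C2) : hess (fun z => u z - v z) z a b = hess u z a b - hess v z a b := by
  have h : fderiv ℝ (fun z => u z - v z) =ᶠ[𝓝 z] fun y => fderiv ℝ u y - fderiv ℝ v y := by
    filter_upwards [ev_diff_aux hu, ev_diff_aux hv] with y h1 h2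
    exact fderiv_fun_sub h1 h2
  unfold hess
  rw [h.fderiv_eq, fderiv_fun_sub (diffAt_fderiv_aux hu) (diffAt_fderiv_aux hv)]
  rfl

theorem hess_const_mul (c : ℝ) (u : C2 → ℝ) (z : C2) (hu : ContDiffAt ℝ 2 u z)
    (a b : C2) : hess (fun z => c * u z) z a b = c * hess u z a b := by
  have h : fderiv ℝ (fun z => c * u z) =ᶠ[𝓝 z] fun y => c • fderiv ℝ u y := by
    filter_upwards [ev_diff_aux hu] with y h1
    exact fderiv_const_mul h1 c
  unfold hess
  rw [h.fderiv_eq, fderiv_fun_const_smul (diffAt_fderiv_aux hu)]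
  rfl

theorem hess_congr {u v : C2 → ℝ} {z : C2} (h : u =ᶠ[𝓝 z] v) (a b : C2) :
    hess u z a b = hess v z a b := by
  unfold hess
  rw [h.fderiv.fderiv_eq]

theorem continuous_hess (u : C2 → ℝ) (hu : ContDiff ℝ 2 u) (a b : C2) :
    Continuous fun z => hess u z a b := by
  unfold hess
  have h1 : ContDiff ℝ 1 (fderiv ℝ u) := hu.fderiv_right (by norm_num)
  have h2 : ContDiff ℝ 0 (fderiv ℝ (fderiv ℝ u)) := h1.fderiv_right (by norm_num)
  have h3 := h2.continuous
  fun_prop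

theorem continuousAt_hess (u : C2 → ℝ) (z : C2) (hu : ContDiffAt ℝ 2 u z) (a b : C2) :
    ContinuousAt (fun z => hess u z a b) z := by
  unfold hess
  have h1 : ContDiffAt ℝ 1 (fderiv ℝ u) z := hu.fderiv_right (by norm_num)
  have h2 : ContDiffAt ℝ 0 (fderiv ℝ (fderiv ℝ u)) z := h1.fderiv_right (by norm_num)
  have h3 := h2.continuousAt
  fun_prop

/-- expansion of the Levi form -/
theorem levi_eq (u : C2 → ℝ) (z : C2) (hu : ContDiffAt ℝ 2 u z) (a b : ℂ) :
    levi u z (a, b) = h11 u z * ‖a‖ ^ 2 + h22 u z * ‖b‖ ^ 2 +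
      2 * (h12re u z * (a * conj b).re - h12im u z * (a * conj b).im) := by
  have e1 : ((a, b) : C2) = a.re • ((1, 0) : C2) + a.im • ((Complex.I, 0) : C2)
      + b.re • ((0, 1) : C2) + b.im • ((0, Complex.I) : C2) := by
    refine Prod.ext ?_ ?_
    · simp [mul_comm]
      exact (Complex.re_add_im a).symm.trans (by ring)
    · simp [mul_comm]
      exact (Complex.re_add_im b).symm.trans (by ring)
  have e2 : (Complex.I • ((a, b) : C2)) = (-a.im) • ((1, 0) : C2) + a.re • ((Complex.I, 0) : C2)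
      + (-b.im) • ((0, 1) : C2) + b.re • ((0, Complex.I) : C2) := by
    refine Prod.ext ?_ ?_
    · apply Complex.ext <;> simp
    · apply Complex.ext <;> simp
  have hs := hess_symm u z hu
  have na : ‖a‖ ^ 2 = a.re ^ 2 + a.im ^ 2 := by
    rw [← Complex.normSq_eq_norm_sq, Complex.normSq_apply]; ring
  have nb : ‖b‖ ^ 2 = b.re ^ 2 + b.im ^ 2 := by
    rw [← Complex.normSq_eq_norm_sq, Complex.normSq_apply]; ring
  have s1 := hs (1, 0) (Complex.I, 0)
  have s2 := hs (1, 0) (0, 1)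
  have s3 := hs (1, 0) (0, Complex.I)
  have s4 := hs (Complex.I, 0) (0, 1)
  have s5 := hs (Complex.I, 0) (0, Complex.I)
  have s6 := hs (0, 1) (0, Complex.I)
  unfold levi
  rw [e2, e1, na, nb]
  unfold h11 h22 h12re h12im
  unfold hess at *
  simp only [map_add, map_smul, add_apply, smul_apply,
    smul_eq_mul, Complex.mul_re, Complex.mul_im, Complex.conj_re, Complex.conj_im]
  rw [← s1, ← s2, ← s3, ← s4, ← s5, ← s6]
  ring

theorem levi_facts (u : C2 → ℝ) (z : C2) (hu : ContDiffAt ℝ 2 u z)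
    (h : ∀ w, 0 ≤ levi u z w) :
    0 ≤ h11 u z ∧ 0 ≤ h22 u z ∧ h12re u z ^ 2 + h12im u z ^ 2 ≤ h11 u z * h22 u z := by
  have k1 := h (1, 0)
  have k2 := h (0, 1)
  rw [levi_eq u z hu] at k1 k2
  simp at k1 k2
  refine ⟨k1, k2, ?_⟩
  have k3 : ∀ t : ℝ, 0 ≤ (h22 u z * (h12re u z ^ 2 + h12im u z ^ 2)) * (t * t)
      + (2 * (h12re u z ^ 2 + h12im u z ^ 2)) * t + h11 u z := by
    intro t
    have k := h (1, ⟨t * h12re u z, t * h12im u z⟩)
    rw [levi_eq u z hu] at k
    rw [← Complex.normSq_eq_norm_sq, ← Complex.normSq_eq_norm_sq, Complex.normSq_mk] at k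
    simp at k
    nlinarith [k]
  have k4 := discrim_le_zero k3
  unfold discrim at k4
  by_cases hz : h12re u z ^ 2 + h12im u z ^ 2 = 0
  · rw [hz]; positivity
  · have hp : 0 < h12re u z ^ 2 + h12im u z ^ 2 := lt_of_le_of_ne (by positivity) (Ne.symm hz)
    by_contra hcon
    push Not at hcon
    nlinarith [mul_pos hp (sub_pos.2 hcon)]

theorem maDensity_nonneg (u : C2 → ℝ) (z : C2) (hu : ContDiffAt ℝ 2 u z)
    (h : ∀ w, 0 ≤ levi u z w) : 0 ≤ maDensity u z := by
  obtain ⟨_, _, h3⟩ := levi_facts u z hu h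
  unfold maDensity
  apply mul_nonneg (by positivity)
  linarith

theorem maDensity_pos (u : C2 → ℝ) (z : C2) (hu : ContDiffAt ℝ 2 u z)
    (h : ∀ w, w ≠ 0 → 0 < levi u z w) : 0 < maDensity u z := by
  have k2 := h (0, 1) (by simp)
  rw [levi_eq u z hu] at k2
  simp at k2
  have k' := h (((h22 u z : ℝ) : ℂ), ⟨-h12re u z, -h12im u z⟩) (by
    intro hc
    have := congrArg Prod.fst hc
    simp at this
    exact k2.ne' this)
  rw [levi_eq u z hu, ← Complex.normSq_eq_norm_sq, ← Complex.normSq_eq_norm_sq,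
    Complex.normSq_mk, Complex.normSq_apply, Complex.ofReal_re, Complex.ofReal_im] at k'
  simp at k'
  unfold maDensity
  apply mul_pos (by positivity)
  have k5 : 0 < h22 u z * (h11 u z * h22 u z - h12re u z ^ 2 - h12im u z ^ 2) := by
    nlinarith [k']
  exact (mul_pos_iff_of_pos_left k2).1 k5

theorem mixed_bound (χ s : C2 → ℝ) (z : C2) (B : ℝ) (hs : ContDiffAt ℝ 2 s z)
    (h : ∀ w, 0 ≤ levi s z w) (h1 : |h11 χ z| ≤ B) (h2 : |h22 χ z| ≤ B)
    (h3 : |h12re χ z| ≤ B) (h4 : |h12im χ z| ≤ B) :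
    |mixed χ s z| ≤ 4 * B * (h11 s z + h22 s z) := by
  obtain ⟨a1, a2, a3⟩ := levi_facts s z hs h
  have hB : 0 ≤ B := le_trans (abs_nonneg _) h1
  have b1 : |h12re s z| ≤ h11 s z + h22 s z := by
    apply abs_le_of_sq_le_sq _ (by positivity)
    nlinarith [sq_nonneg (h12im s z), sq_nonneg (h11 s z), sq_nonneg (h22 s z), mul_nonneg a1 a2]
  have b2 : |h12im s z| ≤ h11 s z + h22 s z := by
    apply abs_le_of_sq_le_sq _ (by positivity)
    nlinarith [sq_nonneg (h12re s z), sq_nonneg (h11 s z), sq_nonneg (h22 s z), mul_nonneg a1 a2]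
  have b3 : |h12re s z| ≤ (h11 s z + h22 s z) / 2 := by
    apply abs_le_of_sq_le_sq _ (by positivity)
    nlinarith [sq_nonneg (h12im s z), sq_nonneg (h11 s z - h22 s z), mul_nonneg a1 a2]
  have b4 : |h12im s z| ≤ (h11 s z + h22 s z) / 2 := by
    apply abs_le_of_sq_le_sq _ (by positivity)
    nlinarith [sq_nonneg (h12re s z), sq_nonneg (h11 s z - h22 s z), mul_nonneg a1 a2]
  have c1 : |h11 χ z * h22 s z| ≤ B * h22 s z := by
    rw [abs_mul, abs_of_nonneg a2]; exact mul_le_mul_of_nonneg_right h1 a2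
  have c2 : |h22 χ z * h11 s z| ≤ B * h11 s z := by
    rw [abs_mul, abs_of_nonneg a1]; exact mul_le_mul_of_nonneg_right h2 a1
  have c3 : |h12re χ z * h12re s z| ≤ B * ((h11 s z + h22 s z) / 2) := by
    rw [abs_mul]; exact mul_le_mul h3 b3 (abs_nonneg _) hB
  have c4 : |h12im χ z * h12im s z| ≤ B * ((h11 s z + h22 s z) / 2) := by
    rw [abs_mul]; exact mul_le_mul h4 b4 (abs_nonneg _) hB
  unfold mixed
  have p1 : 0 ≤ B * h11 s z := mul_nonneg hB a1
  have p2 : 0 ≤ B * h22 s z := mul_nonneg hB a2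
  rw [abs_le] at c1 c2 c3 c4 ⊢
  constructor
  · nlinarith [c1.1, c2.1, c3.2, c4.2]
  · nlinarith [c1.2, c2.2, c3.1, c4.1]

theorem maDensity_sub (u v : C2 → ℝ) (z : C2) (hu : ContDiffAt ℝ 2 u z)
    (hv : ContDiffAt ℝ 2 v z) :
    maDensity u z - maDensity v z =
      4 / Real.pi ^ 2 * mixed (fun z => u z - v z) (fun z => u z + v z) z := by
  unfold maDensity mixed h11 h22 h12re h12im
  simp only [hess_sub u v z hu hv, hess_add u v z hu hv]
  ring

theorem levi_add (u v : C2 → ℝ) (z : C2) (hu : ContDiffAt ℝ 2 u z) (hv : ContDiffAt ℝ 2 v z)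
    (w : C2) : levi (fun z => u z + v z) z w = levi u z w + levi v z w := by
  unfold levi
  rw [hess_add u v z hu hv, hess_add u v z hu hv]
  ring

theorem h11_congr {u v : C2 → ℝ} {z : C2} (h : u =ᶠ[𝓝 z] v) : h11 u z = h11 v z := by
  unfold h11; simp only [hess_congr h]

theorem h22_congr {u v : C2 → ℝ} {z : C2} (h : u =ᶠ[𝓝 z] v) : h22 u z = h22 v z := by
  unfold h22; simp only [hess_congr h]

theorem h12re_congr_aux {u v : C2 → ℝ} {z : C2} (h : u =ᶠ[𝓝 z] v) :
    h12re u z = h12re v z := by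
  unfold h12re; simp only [hess_congr h]

theorem h12im_congr_aux {u v : C2 → ℝ} {z : C2} (h : u =ᶠ[𝓝 z] v) :
    h12im u z = h12im v z := by
  unfold h12im; simp only [hess_congr h]

theorem maDensity_congr {u v : C2 → ℝ} {z : C2} (h : u =ᶠ[𝓝 z] v) :
    maDensity u z = maDensity v z := by
  unfold maDensity
  rw [h11_congr h, h22_congr h, h12re_congr_aux h, h12im_congr_aux h]

theorem mixed_congr {u v s t : C2 → ℝ} {z : C2} (h : u =ᶠ[𝓝 z] v) (h' : s =ᶠ[𝓝 z] t) :
    mixed u s z = mixed v t z := by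
  unfold mixed
  rw [h11_congr h, h22_congr h, h12re_congr_aux h, h12im_congr_aux h,
    h11_congr h', h22_congr h', h12re_congr_aux h', h12im_congr_aux h']

theorem levi_congr {u v : C2 → ℝ} {z : C2} (h : u =ᶠ[𝓝 z] v) (w : C2) :
    levi u z w = levi v z w := by
  unfold levi; simp only [hess_congr h]

theorem continuousAt_h11 (u : C2 → ℝ) (z : C2) (hu : ContDiffAt ℝ 2 u z) :
    ContinuousAt (h11 u) z := by
  have h1 := continuousAt_hess u z hu (1, 0) (1, 0)
  have h2 := continuousAt_hess u z hu (Complex.I, 0) (Complex.I, 0)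
  exact (h1.add h2).div_const 4

theorem continuousAt_h22 (u : C2 → ℝ) (z : C2) (hu : ContDiffAt ℝ 2 u z) :
    ContinuousAt (h22 u) z := by
  have h1 := continuousAt_hess u z hu (0, 1) (0, 1)
  have h2 := continuousAt_hess u z hu (0, Complex.I) (0, Complex.I)
  exact (h1.add h2).div_const 4

theorem continuousAt_h12re_aux (u : C2 → ℝ) (z : C2) (hu : ContDiffAt ℝ 2 u z) :
    ContinuousAt (h12re u) z := by
  have h1 := continuousAt_hess u z hu (1, 0) (0, 1)
  have h2 := continuousAt_hess u z hu (Complex.I, 0) (0, Complex.I)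
  exact (h1.add h2).div_const 4

theorem continuousAt_h12im_aux (u : C2 → ℝ) (z : C2) (hu : ContDiffAt ℝ 2 u z) :
    ContinuousAt (h12im u) z := by
  have h1 := continuousAt_hess u z hu (1, 0) (0, Complex.I)
  have h2 := continuousAt_hess u z hu (Complex.I, 0) (0, 1)
  exact (h1.sub h2).div_const 4

theorem continuousAt_maDensity (u : C2 → ℝ) (z : C2) (hu : ContDiffAt ℝ 2 u z) :
    ContinuousAt (maDensity u) z := by
  have h1 := continuousAt_h11 u z hu
  have h2 := continuousAt_h22 u z hu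
  have h3 := continuousAt_h12re_aux u z hu
  have h4 := continuousAt_h12im_aux u z hu
  exact continuousAt_const.mul (((h1.mul h2).sub (h3.pow 2)).sub (h4.pow 2))

theorem continuousAt_mixed (u v : C2 → ℝ) (z : C2) (hu : ContDiffAt ℝ 2 u z)
    (hv : ContDiffAt ℝ 2 v z) : ContinuousAt (mixed u v) z := by
  have h1 := continuousAt_h11 u z hu
  have h2 := continuousAt_h22 u z hu
  have h3 := continuousAt_h12re_aux u z hu
  have h4 := continuousAt_h12im_aux u z hu
  have k1 := continuousAt_h11 v z hv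
  have k2 := continuousAt_h22 v z hv
  have k3 := continuousAt_h12re_aux v z hv
  have k4 := continuousAt_h12im_aux v z hv
  exact ((h1.mul k2).add (h2.mul k1)).sub
    (continuousAt_const.mul ((h3.mul k3).add (h4.mul k4)))

/-- smoothness of the Monge-Ampere density -/
theorem contDiffAt_maDensity (u : C2 → ℝ) (z : C2) (hu : ContDiffAt ℝ ∞ u z) :
    ContDiffAt ℝ ∞ (maDensity u) z := by
  have h1 : ContDiffAt ℝ ∞ (fderiv ℝ u) z := hu.fderiv_right (by norm_num)
  have h2 : ContDiffAt ℝ ∞ (fderiv ℝ (fderiv ℝ u)) z := h1.fderiv_right (by norm_num)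
  have h3 : ∀ a b : C2, ContDiffAt ℝ ∞ (fun y => hess u y a b) z := by
    intro a b
    unfold hess
    exact (h2.clm_apply contDiffAt_const).clm_apply contDiffAt_const
  have a1 : ContDiffAt ℝ ∞ (h11 u) z :=
    ((h3 (1, 0) (1, 0)).add (h3 (Complex.I, 0) (Complex.I, 0))).div_const 4
  have a2 : ContDiffAt ℝ ∞ (h22 u) z :=
    ((h3 (0, 1) (0, 1)).add (h3 (0, Complex.I) (0, Complex.I))).div_const 4
  have a3 : ContDiffAt ℝ ∞ (h12re u) z :=
    ((h3 (1, 0) (0, 1)).add (h3 (Complex.I, 0) (0, Complex.I))).div_const 4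
  have a4 : ContDiffAt ℝ ∞ (h12im u) z :=
    ((h3 (1, 0) (0, Complex.I)).sub (h3 (Complex.I, 0) (0, 1))).div_const 4
  exact contDiffAt_const.mul (((a1.mul a2).sub (a3.pow 2)).sub (a4.pow 2))

end Pool.Agent.H314.MA
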