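import Mathlib

set_option autoImplicit false
open Set Filter Topology MeasureTheory
open scoped ContDiff

namespace Pool.Agent.H314.MA

open CompactlySupported in
/-- If nonnegative continuous densities converge when tested against every smooth compactly
supported function, then they converge to a measure. -/
theorem exists_measure_of_limits (f : ℕ → ℂ × ℂ → ℝ) (hf : ∀ k, Continuous (f k))
    (hpos : ∀ k z, 0 ≤ f k z)
    (hlim : ∀ χ : ℂ × ℂ → ℝ, ContDiff ℝ ∞ χ → HasCompactSupport χ →
      ∃ L : ℝ, Tendsto (fun k => ∫ z, χ z * f k z) atTop (𝓝 L)) :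
    ∃ μ : Measure (ℂ × ℂ), (∀ K, IsCompact K → μ K < ⊤) ∧
      ∀ χ : ℂ × ℂ → ℝ, ContDiff ℝ ∞ χ → HasCompactSupport χ →
        Tendsto (fun k => ∫ z, χ z * f k z) atTop (𝓝 (∫ z, χ z ∂μ)) := by
  have hint : ∀ (g : ℂ × ℂ → ℝ), Continuous g → HasCompactSupport g → ∀ k,
      Integrable (fun z => g z * f k z) := fun g hg hgs k =>
    (hg.mul (hf k)).integrable_of_hasCompactSupport hgs.mul_right
  -- convergence for continuous functions
  have hconv : ∀ g : ℂ × ℂ → ℝ, Continuous g → HasCompactSupport g →
      ∃ L : ℝ, Tendsto (fun k => ∫ z, g z * f k z) atTop (𝓝 L) := by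
    intro g hg hgs
    obtain ⟨R, hR⟩ := hgs.isCompact.isBounded.subset_closedBall (0 : ℂ × ℂ)
    set η : ContDiffBump (0 : ℂ × ℂ) := ⟨|R| + 1, |R| + 2, by positivity, by linarith⟩ with hη
    obtain ⟨Lη, hLη⟩ := hlim η (η.contDiff) η.hasCompactSupport
    obtain ⟨M, hM⟩ := hLη.bddAbove_range
    have hMb : ∀ k, ∫ z, η z * f k z ≤ M := fun k => hM ⟨k, rfl⟩
    have hM0 : 0 ≤ M := by
      refine le_trans ?_ (hMb 0)
      exact integral_nonneg fun z => mul_nonneg η.nonneg (hpos 0 z)
    apply cauchySeq_tendsto_of_complete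
    rw [Metric.cauchySeq_iff']
    intro ε hε
    have hδ : 0 < ε / (4 * (M + 1)) := by positivity
    obtain ⟨χ, hχ1, hχ2, hχ3⟩ := hg.exists_contDiff_approx (⊤ : ℕ∞)
      (ε := fun _ => ε / (4 * (M + 1))) continuous_const (fun _ => hδ)
    have hχs : HasCompactSupport χ := hgs.mono hχ3
    obtain ⟨L, hL⟩ := hlim χ hχ1 hχs
    obtain ⟨N, hN⟩ := Metric.tendsto_atTop.1 hL (ε / 4) (by positivity)
    have hdiff : ∀ k, |(∫ z, g z * f k z) - ∫ z, χ z * f k z| ≤ ε / 4 := by
      intro k
      have hη0 : Integrable (fun z => η z * f k z) :=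
        hint η η.continuous η.hasCompactSupport k
      rw [← integral_sub (hint g hg hgs k) (hint χ hχ1.continuous hχs k)]
      have hb : ∀ z, ‖g z * f k z - χ z * f k z‖ ≤ (ε / (4 * (M + 1))) * (η z * f k z) := by
        intro z
        rw [← sub_mul, norm_mul, Real.norm_eq_abs, Real.norm_eq_abs, abs_of_nonneg (hpos k z),
          ← mul_assoc]
        apply mul_le_mul_of_nonneg_right _ (hpos k z)
        by_cases hz : g z = 0
        · have : χ z = 0 := by
            by_contra hne
            exact (hχ3 (Function.mem_support.2 hne)) hz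
          rw [hz, this, sub_zero, abs_zero]
          exact mul_nonneg hδ.le η.nonneg
        · have hzR : z ∈ Metric.closedBall (0 : ℂ × ℂ) R :=
            hR (subset_tsupport g (Function.mem_support.2 hz))
          have hη1 : η z = 1 := by
            apply η.one_of_mem_closedBall
            refine Metric.closedBall_subset_closedBall ?_ hzR
            show R ≤ |R| + 1
            linarith [le_abs_self R]
          rw [hη1, mul_one, abs_sub_comm, ← Real.dist_eq]
          exact (hχ2 z).le
      have h5 := norm_integral_le_of_norm_le (hη0.const_mul (ε / (4 * (M + 1))))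
        (Eventually.of_forall hb)
      rw [Real.norm_eq_abs] at h5
      refine h5.trans ?_
      rw [integral_const_mul]
      calc ε / (4 * (M + 1)) * ∫ z, η z * f k z ≤ ε / (4 * (M + 1)) * (M + 1) := by
            apply mul_le_mul_of_nonneg_left _ hδ.le
            linarith [hMb k]
        _ = ε / 4 := by field_simp
    refine ⟨N, fun n hn => ?_⟩
    have h1 := hN n hn
    have h2 := hN N le_rfl
    have h3 := hdiff n
    have h4 := hdiff N
    rw [Real.dist_eq] at h1 h2 ⊢
    rw [abs_lt] at h1 h2 ⊢
    rw [abs_le] at h3 h4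
    constructor <;> linarith [h1.1, h1.2, h2.1, h2.2, h3.1, h3.2, h4.1, h4.2]
  choose! Lf hLf using hconv
  -- the linear functional
  set Λ0 : C_c(ℂ × ℂ, ℝ) →ₗ[ℝ] ℝ :=
    { toFun := fun g => Lf g
      map_add' := by
        intro g h
        have h1 := hLf g g.continuous g.hasCompactSupport
        have h2 := hLf h h.continuous h.hasCompactSupport
        have h3 := hLf (g + h : C_c(ℂ × ℂ, ℝ)) (g + h).continuous (g + h).hasCompactSupport
        refine tendsto_nhds_unique h3 ((h1.add h2).congr fun k => ?_)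
        rw [← integral_add (hint g g.continuous g.hasCompactSupport k)
          (hint h h.continuous h.hasCompactSupport k)]
        congr 1
        funext z
        simp only [CompactlySupportedContinuousMap.coe_add, Pi.add_apply]
        ring
      map_smul' := by
        intro c g
        have h1 := hLf g g.continuous g.hasCompactSupport
        have h3 := hLf (c • g : C_c(ℂ × ℂ, ℝ)) (c • g).continuous (c • g).hasCompactSupport
        refine tendsto_nhds_unique h3 ((h1.const_mul c).congr fun k => ?_)
        rw [← integral_const_mul]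
        congr 1
        funext z
        simp only [CompactlySupportedContinuousMap.coe_smul, Pi.smul_apply, smul_eq_mul]
        ring } with hΛ0
  have hΛ0' : ∀ g, Λ0 g = Lf g := fun g => rfl
  set Λ : C_c(ℂ × ℂ, ℝ) →ₚ[ℝ] ℝ := PositiveLinearMap.mk₀ Λ0 (by
    intro g hg
    rw [hΛ0']
    refine ge_of_tendsto' (hLf g g.continuous g.hasCompactSupport) fun k => ?_
    exact integral_nonneg fun z => mul_nonneg (hg z) (hpos k z)) with hΛ
  refine ⟨RealRMK.rieszMeasure Λ, ?_, ?_⟩
  · intro K hK
    obtain ⟨R, hR⟩ := hK.isBounded.subset_closedBall (0 : ℂ × ℂ)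
    set η : ContDiffBump (0 : ℂ × ℂ) := ⟨|R| + 1, |R| + 2, by positivity, by linarith⟩ with hη
    set ηc : C_c(ℂ × ℂ, ℝ) := ⟨⟨η, η.continuous⟩, η.hasCompactSupport⟩ with hηc
    have h1 := RealRMK.rieszMeasure_le_of_eq_one Λ (f := ηc) (K := K) (fun z => η.nonneg) hK
      (fun z hz => by
        show η z = 1
        apply η.one_of_mem_closedBall
        refine Metric.closedBall_subset_closedBall ?_ (hR hz)
        show R ≤ |R| + 1
        linarith [le_abs_self R])
    exact lt_of_le_of_lt h1 ENNReal.ofReal_lt_top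
  · intro χ hχ hχs
    set χc : C_c(ℂ × ℂ, ℝ) := ⟨⟨χ, hχ.continuous⟩, hχs⟩ with hχc
    have h1 := RealRMK.integral_rieszMeasure Λ χc
    have h2 : ∫ z, χ z ∂(RealRMK.rieszMeasure Λ) = Lf χ := h1
    rw [h2]
    exact hLf χ hχ.continuous hχs

end Pool.Agent.H314.MA
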