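import Mathlib

set_option autoImplicit false
open Set Filter Topology MeasureTheory
open scoped ContDiff

namespace Pool.Agent.H314.MA

theorem measure_eq_of_test_compact (μ : Measure (ℂ × ℂ)) (hμ : ∀ K, IsCompact K → μ K < ⊤)
    (O : Set (ℂ × ℂ)) (hO : IsOpen O) (f : ℂ × ℂ → ℝ) (hf : ContinuousOn f O)
    (hpos : ∀ z ∈ O, 0 ≤ f z)
    (h : ∀ χ : ℂ × ℂ → ℝ, ContDiff ℝ ∞ χ → HasCompactSupport χ → tsupport χ ⊆ O →
      ∫ z, χ z ∂μ = ∫ z, χ z * f z)
    (K : Set (ℂ × ℂ)) (hK : IsCompact K) (hKO : K ⊆ O) :
    μ K = ∫⁻ z in K, ENNReal.ofReal (f z) := by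
  obtain ⟨δ, δpos, hδ⟩ : ∃ δ, 0 < δ ∧ Metric.cthickening δ K ⊆ O :=
    hK.exists_cthickening_subset_open hO hKO
  have hδc : IsCompact (Metric.cthickening δ K) := hK.cthickening
  obtain ⟨u, -, u_pos, u_lim⟩ : ∃ u, StrictAnti u ∧ (∀ (n : ℕ), u n ∈ Ioo 0 δ)
    ∧ Tendsto u atTop (𝓝 0) := exists_seq_strictAnti_tendsto' δpos
  have vK : ∀ n, Metric.thickening (u n) K ⊆ Metric.cthickening δ K := fun n ↦
    Metric.thickening_subset_cthickening_of_le (u_pos n).2.le _
  have hex : ∀ n, ∃ (g : ℂ × ℂ → ℝ), Function.support g = Metric.thickening (u n) K ∧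
      ContDiff ℝ ∞ g ∧ Set.range g ⊆ Set.Icc 0 1 ∧ ∀ x ∈ K, g x = 1 := by
    intro n
    rcases exists_contMDiff_support_eq_eq_one_iff (modelWithCornersSelf ℝ (ℂ × ℂ))
      Metric.isOpen_thickening hK.isClosed
      (Metric.self_subset_thickening (u_pos n).1 K) with ⟨g, g_smooth, g_range, g_supp, hg⟩
    exact ⟨g, g_supp, g_smooth.contDiff, g_range, fun x hx ↦ (hg x).1 hx⟩
  choose g g_supp g_diff g_range hg using hex
  have L : ∀ (m : Measure (ℂ × ℂ)) (F : ℂ × ℂ → ℝ), IntegrableOn F (Metric.cthickening δ K) m →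
      Tendsto (fun n ↦ ∫ x, g n x * F x ∂m) atTop (𝓝 (∫ x in K, F x ∂m)) := by
    intro m F hF
    rw [← integral_indicator hK.measurableSet]
    let bound : ℂ × ℂ → ℝ := (Metric.cthickening δ K).indicator (fun x ↦ ‖F x‖)
    have A : ∀ n, AEStronglyMeasurable (fun x ↦ g n x * F x) m := by
      intro n
      have h1 : (fun x ↦ g n x * F x) =
          (Metric.cthickening δ K).indicator (fun x ↦ g n x * F x) := by
        funext x
        by_cases hx : x ∈ Metric.cthickening δ K
        · rw [indicator_of_mem hx]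
        · rw [indicator_of_notMem hx]
          have : g n x = 0 := by
            rw [← Function.notMem_support, g_supp]
            exact fun h' => hx (vK n h')
          rw [this, zero_mul]
      rw [h1]
      exact (aestronglyMeasurable_indicator_iff hδc.measurableSet).2
        ((g_diff n).continuous.aestronglyMeasurable.mul hF.aestronglyMeasurable)
    have B : Integrable bound m := by
      rw [integrable_indicator_iff hδc.measurableSet]
      exact hF.norm
    have C : ∀ n, ∀ᵐ x ∂m, ‖g n x * F x‖ ≤ bound x := by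
      intro n
      filter_upwards with x
      rw [norm_mul]
      refine le_indicator_apply (fun _ ↦ ?_) (fun hxK ↦ ?_)
      · have : ‖g n x‖ ≤ 1 := by
          have := g_range n (mem_range_self (f := g n) x)
          rw [Real.norm_of_nonneg this.1]
          exact this.2
        exact mul_le_of_le_one_left (norm_nonneg _) this
      · have : g n x = 0 := by
          rw [← Function.notMem_support, g_supp]
          exact fun h' => hxK (vK n h')
        simp [this]
    have D : ∀ᵐ x ∂m, Tendsto (fun n => g n x * F x) atTop (𝓝 (K.indicator F x)) := by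
      filter_upwards with x
      by_cases hxs : x ∈ K
      · have : ∀ n, g n x = 1 := fun n ↦ hg n x hxs
        simp [this, indicator_of_mem hxs F]
      · simp_rw [indicator_of_notMem hxs F]
        apply tendsto_const_nhds.congr'
        suffices H : ∀ᶠ n in atTop, g n x = 0 by
          filter_upwards [H] with n hn using by simp [hn]
        obtain ⟨ε, εpos, hε⟩ : ∃ ε, 0 < ε ∧ x ∉ Metric.thickening ε K := by
          rw [← hK.isClosed.closure_eq, Metric.closure_eq_iInter_thickening K] at hxs
          simpa using hxs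
        filter_upwards [(tendsto_order.1 u_lim).2 _ εpos] with n hn
        rw [← Function.notMem_support, g_supp]
        exact fun h' => hε (Metric.thickening_mono hn.le K h')
    exact tendsto_integral_of_dominated_convergence bound A B C D
  have hfK : IntegrableOn f (Metric.cthickening δ K) volume :=
    (hf.mono hδ).integrableOn_compact hδc
  have h1K : IntegrableOn (fun _ : ℂ × ℂ => (1 : ℝ)) (Metric.cthickening δ K) μ :=
    integrableOn_const (hμ _ hδc).ne
  have L1 := L μ (fun _ => 1) h1K
  have L2 := L volume f hfK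
  have hcs : ∀ n, HasCompactSupport (g n) := fun n => by
    apply HasCompactSupport.of_support_subset_isCompact hδc
    rw [g_supp]
    exact vK n
  have hts : ∀ n, tsupport (g n) ⊆ O := fun n => by
    refine Subset.trans ?_ hδ
    apply closure_minimal _ hδc.isClosed
    rw [g_supp]
    exact vK n
  have hEq : ∀ n, ∫ x, g n x * 1 ∂μ = ∫ x, g n x * f x := by
    intro n
    simp only [mul_one]
    exact h (g n) (g_diff n) (hcs n) (hts n)
  have hlim := tendsto_nhds_unique (L1.congr hEq) L2
  have hreal : μ.real K = ∫ x in K, f x := by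
    rw [← hlim]
    simp
  have hfin : μ K ≠ ⊤ := (hμ K hK).ne
  have e1 : μ K = ENNReal.ofReal (μ.real K) := by
    rw [Measure.real, ENNReal.ofReal_toReal hfin]
  rw [e1, hreal]
  apply ofReal_integral_eq_lintegral_ofReal
  · exact (hf.mono hKO).integrableOn_compact hK
  · rw [Filter.EventuallyLE, ae_restrict_iff' hK.measurableSet]
    exact Filter.Eventually.of_forall fun z hz => hpos z (hKO hz)

/-- A locally finite measure which acts on smooth functions supported in the open set `O` as
the density `f` coincides with it on `O`. -/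
theorem measure_eq_of_test (μ : Measure (ℂ × ℂ)) (hμ : ∀ K, IsCompact K → μ K < ⊤)
    (O : Set (ℂ × ℂ)) (hO : IsOpen O) (f : ℂ × ℂ → ℝ) (hf : ContinuousOn f O)
    (hpos : ∀ z ∈ O, 0 ≤ f z)
    (h : ∀ χ : ℂ × ℂ → ℝ, ContDiff ℝ ∞ χ → HasCompactSupport χ → tsupport χ ⊆ O →
      ∫ z, χ z ∂μ = ∫ z, χ z * f z)
    (B : Set (ℂ × ℂ)) (hB : MeasurableSet B) (hBO : B ⊆ O) :
    μ B = ∫⁻ z in B, ENNReal.ofReal (f z) := by
  set ν : Measure (ℂ × ℂ) := volume.withDensity (fun z => ENNReal.ofReal (f z)) with hν
  have hνa : ∀ s, MeasurableSet s → ν s = ∫⁻ z in s, ENNReal.ofReal (f z) := fun s hs =>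
    withDensity_apply _ hs
  have hKeq : ∀ K, IsCompact K → K ⊆ O → μ K = ν K := by
    intro K hK hKO
    rw [hνa K hK.measurableSet]
    exact measure_eq_of_test_compact μ hμ O hO f hf hpos h K hK hKO
  have hrest : ∀ K, IsCompact K → K ⊆ O → μ.restrict K = ν.restrict K := by
    intro K hK hKO
    have : IsFiniteMeasure (μ.restrict K) := ⟨by
      rw [Measure.restrict_apply_univ]
      exact hμ K hK⟩
    apply ext_of_generate_finite _ ?_ isPiSystem_isClosed
    · intro F hF
      have hF' : IsClosed F := hF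
      rw [Measure.restrict_apply hF'.measurableSet, Measure.restrict_apply hF'.measurableSet]
      exact hKeq _ (hK.inter_left hF') (inter_subset_right.trans hKO)
    · rw [Measure.restrict_apply_univ, Measure.restrict_apply_univ]
      exact hKeq K hK hKO
    · rw [BorelSpace.measurable_eq (α := ℂ × ℂ), borel_eq_generateFrom_isClosed]
  have hloc : LocallyCompactSpace O := hO.locallyCompactSpace
  have hsig : IsSigmaCompact O := isSigmaCompact_iff_sigmaCompactSpace.2 inferInstance
  obtain ⟨K, hK, hKU⟩ := hsig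
  have hAc : ∀ n, IsCompact (Set.accumulate K n) := fun n => isCompact_accumulate hK n
  have hAO : ∀ n, Set.accumulate K n ⊆ O := by
    intro n x hx
    rw [Set.mem_accumulate] at hx
    obtain ⟨y, _, hy⟩ := hx
    rw [← hKU]
    exact mem_iUnion.2 ⟨y, hy⟩
  have hBU : B = ⋃ n, B ∩ Set.accumulate K n := by
    rw [← inter_iUnion, Set.iUnion_accumulate, hKU, inter_eq_left.2 hBO]
  have hmono : Monotone (fun n => B ∩ Set.accumulate K n) := fun a b hab =>
    inter_subset_inter_right _ (Set.monotone_accumulate hab)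
  have e1 : μ B = ν B := by
    rw [hBU, hmono.measure_iUnion, hmono.measure_iUnion]
    congr 1
    funext n
    rw [← Measure.restrict_apply hB, ← Measure.restrict_apply hB, hrest _ (hAc n) (hAO n)]
  rw [e1, hνa B hB]

/-- the same when `O` is covered by two open sets -/
theorem measure_eq_of_cover (μ : Measure (ℂ × ℂ)) (f : ℂ × ℂ → ENNReal)
    (O1 O2 : Set (ℂ × ℂ)) (h1 : IsOpen O1) (h2 : IsOpen O2)
    (e1 : ∀ B, MeasurableSet B → B ⊆ O1 → μ B = ∫⁻ z in B, f z)
    (e2 : ∀ B, MeasurableSet B → B ⊆ O2 → μ B = ∫⁻ z in B, f z)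
    (B : Set (ℂ × ℂ)) (hB : MeasurableSet B) (hBO : B ⊆ O1 ∪ O2) :
    μ B = ∫⁻ z in B, f z := by
  have ha := e1 (B ∩ O1) (hB.inter h1.measurableSet) inter_subset_right
  have hb := e2 (B \ O1) (hB.diff h1.measurableSet) (by
    intro x hx
    rcases hBO hx.1 with h | h
    · exact absurd h hx.2
    · exact h)
  rw [← measure_inter_add_sdiff B h1.measurableSet, ha, hb,
    lintegral_inter_add_sdiff _ _ h1.measurableSet]

end Pool.Agent.H314.MA
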