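import Pool.Agent.H314.MA.Loc
import Pool.Agent.H314.MA.Riesz
import Pool.Agent.H314.MA.Uniq

set_option autoImplicit false
open Set Filter Topology MeasureTheory
open scoped ContDiff

namespace Pool.Agent.H314.MA

/-- Dini -/
theorem uniform_of_decreases {v : ℕ → C2 → ℝ} {u : C2 → ℝ} (hv : DecreasesTo v u)
    (hu : Continuous u) (K : Set C2) (hK : IsCompact K) (ε : ℝ) (hε : 0 < ε) :
    ∀ᶠ k in atTop, ∀ z ∈ K, |v k z - u z| ≤ ε := by
  have h := Antitone.tendstoUniformlyOn_of_forall_tendsto hK (F := v) (f := u)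
    (fun i => (hv.1 i).1.continuous.continuousOn)
    (fun x _ => antitone_nat_of_succ_le fun k => hv.2.1 k x) hu.continuousOn
    (fun x _ => hv.2.2 x)
  rw [Metric.tendstoUniformlyOn_iff] at h
  filter_upwards [h ε hε] with k hk z hz
  have := hk z hz
  rw [Real.dist_eq, abs_sub_comm] at this
  exact this.le

theorem pshOn_of_smoothPsh {u : C2 → ℝ} (h : SmoothPsh u) (O : Set C2) : PshOn O u :=
  fun z _ => ⟨h.1.contDiffAt, h.2 z⟩


/-- comparison of two locally uniformly convergent sequences -/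
theorem tendsto_diff_zero (O : Set C2) (hO : IsOpen O) (u : C2 → ℝ) (hu : ContinuousOn u O)
    (v w : ℕ → C2 → ℝ) (hv : ∀ k, PshOn O (v k)) (hw : ∀ k, PshOn O (w k))
    (hvu : ∀ K, IsCompact K → K ⊆ O → ∀ ε : ℝ, 0 < ε → ∀ᶠ k in atTop, ∀ z ∈ K, |v k z - u z| ≤ ε)
    (hwu : ∀ K, IsCompact K → K ⊆ O → ∀ ε : ℝ, 0 < ε → ∀ᶠ k in atTop, ∀ z ∈ K, |w k z - u z| ≤ ε)
    (χ : C2 → ℝ) (hχ : ContDiff ℝ ∞ χ) (hc : HasCompactSupport χ) (hsub : tsupport χ ⊆ O) :
    Tendsto (fun p : ℕ × ℕ => (∫ z, χ z * maDensity (v p.1) z) - ∫ z, χ z * maDensity (w p.2) z)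
      (atTop ×ˢ atTop) (𝓝 0) := by
  obtain ⟨K, hK, hKO, C, hC, hb⟩ := ma_diff_bound O hO χ hχ hc hsub
  obtain ⟨M, hM⟩ := hK.exists_bound_of_continuousOn (hu.mono hKO)
  rw [Metric.tendsto_nhds]
  intro ε hε
  set M' : ℝ := max M 0 + 1 with hM'
  have hM'0 : 0 < M' := by have := le_max_right M 0; linarith
  set δ : ℝ := min 1 (ε / (2 * (C + 1) * M' * 2)) with hδ
  have hδ0 : 0 < δ := by
    apply lt_min one_pos
    positivity
  have h1 := (hvu K hK hKO δ hδ0).prod_inl (atTop : Filter ℕ)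
  have h2 := (hwu K hK hKO δ hδ0).prod_inr (atTop : Filter ℕ)
  filter_upwards [h1, h2] with p hp1 hp2
  rw [Real.dist_eq, sub_zero]
  have hδ1 : δ ≤ 1 := min_le_left _ _
  have hvM : ∀ z ∈ K, |v p.1 z| ≤ M' := by
    intro z hz
    have a1 := hp1 z hz
    have a2 := hM z hz
    rw [Real.norm_eq_abs] at a2
    calc |v p.1 z| = |(v p.1 z - u z) + u z| := by ring_nf
      _ ≤ |v p.1 z - u z| + |u z| := abs_add_le _ _
      _ ≤ M' := by linarith [le_max_left M 0]
  have hwM : ∀ z ∈ K, |w p.2 z| ≤ M' := by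
    intro z hz
    have a1 := hp2 z hz
    have a2 := hM z hz
    rw [Real.norm_eq_abs] at a2
    calc |w p.2 z| = |(w p.2 z - u z) + u z| := by ring_nf
      _ ≤ |w p.2 z - u z| + |u z| := abs_add_le _ _
      _ ≤ M' := by linarith [le_max_left M 0]
  have hvw : ∀ z ∈ K, |v p.1 z - w p.2 z| ≤ 2 * δ := by
    intro z hz
    have a1 := hp1 z hz
    have a2 := hp2 z hz
    calc |v p.1 z - w p.2 z| = |(v p.1 z - u z) - (w p.2 z - u z)| := by ring_nf
      _ ≤ |v p.1 z - u z| + |w p.2 z - u z| := abs_sub _ _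
      _ ≤ 2 * δ := by linarith
  have := hb (v p.1) (w p.2) M' (2 * δ) (hv _) (hw _) hvM hwM hvw
  refine lt_of_le_of_lt this ?_
  have h3 : δ ≤ ε / (2 * (C + 1) * M' * 2) := min_le_right _ _
  calc C * M' * (2 * δ) ≤ C * M' * (2 * (ε / (2 * (C + 1) * M' * 2))) := by gcongr
    _ = ε / 2 * (C / (C + 1)) := by field_simp
    _ ≤ ε / 2 * 1 := by
        apply mul_le_mul_of_nonneg_left _ (by positivity)
        rw [div_le_one (by positivity)]; linarith
    _ < ε := by linarith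

theorem exists_limit {v : ℕ → C2 → ℝ} {u : C2 → ℝ} (hv : DecreasesTo v u)
    (hu : Continuous u) (χ : C2 → ℝ) (hχ : ContDiff ℝ ∞ χ) (hc : HasCompactSupport χ) :
    ∃ L : ℝ, Tendsto (fun k => ∫ z, χ z * maDensity (v k) z) atTop (𝓝 L) := by
  apply cauchySeq_tendsto_of_complete
  have h := tendsto_diff_zero univ isOpen_univ u hu.continuousOn v v
    (fun k => pshOn_of_smoothPsh (hv.1 k) _) (fun k => pshOn_of_smoothPsh (hv.1 k) _)
    (fun K hK _ ε hε => uniform_of_decreases hv hu K hK ε hε)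
    (fun K hK _ ε hε => uniform_of_decreases hv hu K hK ε hε) χ hχ hc (subset_univ _)
  rw [cauchySeq_iff_tendsto_dist_atTop_0]
  rw [← prod_atTop_atTop_eq]
  have h2 := h.norm
  simpa [Real.norm_eq_abs, Real.dist_eq] using h2

/-- Every continuous plurisubharmonic function on `ℂ²` which is a decreasing limit of smooth ones
has a Bedford-Taylor measure. -/
theorem isMongeAmpere_of {v : ℕ → C2 → ℝ} {u : C2 → ℝ} (hv : DecreasesTo v u)
    (hu : Continuous u) : ∃ μ : Measure C2, IsMongeAmpere u μ := by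
  obtain ⟨μ, hμ, hlim⟩ := exists_measure_of_limits (fun k => maDensity (v k))
    (fun k => continuous_iff_continuousAt.mpr fun z =>
      continuousAt_maDensity _ z ((hv.1 k).1.of_le (by norm_cast)).contDiffAt)
    (fun k z => maDensity_nonneg _ z ((hv.1 k).1.of_le (by norm_cast)).contDiffAt ((hv.1 k).2 z))
    (fun χ hχ hc => exists_limit hv hu χ hχ hc)
  refine ⟨μ, ⟨hμ, ⟨v, hv⟩, ?_⟩⟩
  intro w hw χ hχ hc
  have h := tendsto_diff_zero univ isOpen_univ u hu.continuousOn w v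
    (fun k => pshOn_of_smoothPsh (hw.1 k) _) (fun k => pshOn_of_smoothPsh (hv.1 k) _)
    (fun K hK _ ε hε => uniform_of_decreases hw hu K hK ε hε)
    (fun K hK _ ε hε => uniform_of_decreases hv hu K hK ε hε) χ hχ hc (subset_univ _)
  have hdiag : Tendsto (fun k : ℕ => (k, k)) atTop (atTop ×ˢ atTop) :=
    tendsto_id.prodMk tendsto_id
  have h2 := (h.comp hdiag).add (hlim χ hχ hc)
  simpa using h2

/-- Identification of the Bedford-Taylor measure on an open set. -/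
theorem ma_eq_on (u : C2 → ℝ) (hu : Continuous u) (μ : Measure C2) (hμ : IsMongeAmpere u μ)
    (O : Set C2) (hO : IsOpen O) (v : ℕ → C2 → ℝ) (hv : ∀ k, PshOn O (v k))
    (hvu : ∀ K, IsCompact K → K ⊆ O → ∀ ε : ℝ, 0 < ε → ∀ᶠ k in atTop, ∀ z ∈ K, |v k z - u z| ≤ ε)
    (f : C2 → ℝ) (hf : ContinuousOn f O) (hpos : ∀ z ∈ O, 0 ≤ f z)
    (hlim : ∀ χ : C2 → ℝ, ContDiff ℝ ∞ χ → HasCompactSupport χ → tsupport χ ⊆ O →
      Tendsto (fun k => ∫ z, χ z * maDensity (v k) z) atTop (𝓝 (∫ z, χ z * f z)))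
    (B : Set C2) (hB : MeasurableSet B) (hBO : B ⊆ O) :
    μ B = ∫⁻ z in B, ENNReal.ofReal (f z) := by
  obtain ⟨w, hw⟩ := hμ.exists_approx
  apply measure_eq_of_test μ hμ.finite_on_compacts O hO f hf hpos _ B hB hBO
  intro χ hχ hc hsub
  have h1 := hμ.weak_limit w hw χ hχ hc
  have h := tendsto_diff_zero O hO u hu.continuousOn v w hv
    (fun k => pshOn_of_smoothPsh (hw.1 k) _) hvu
    (fun K hK _ ε hε => uniform_of_decreases hw hu K hK ε hε) χ hχ hc hsub
  have hdiag : Tendsto (fun k : ℕ => (k, k)) atTop (atTop ×ˢ atTop) :=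
    tendsto_id.prodMk tendsto_id
  have h2 := (hlim χ hχ hc hsub).sub (h.comp hdiag)
  have h3 : Tendsto (fun k => ∫ z, χ z * maDensity (w k) z) atTop (𝓝 (∫ z, χ z * f z)) := by
    simpa using h2
  exact tendsto_nhds_unique h1 h3

end Pool.Agent.H314.MA
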