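import Pool.Agent.H314.MA.Defs

set_option autoImplicit false
open Set Filter Topology MeasureTheory
open scoped ContDiff

namespace Pool.Agent.H314.MA

/-! ### auxiliary: quadratic forms -/

noncomputable def qe1 : C2 →L[ℝ] ℝ := Complex.reCLM.comp (ContinuousLinearMap.fst ℝ ℂ ℂ)
noncomputable def qe2 : C2 →L[ℝ] ℝ := Complex.imCLM.comp (ContinuousLinearMap.fst ℝ ℂ ℂ)
noncomputable def qe3 : C2 →L[ℝ] ℝ := Complex.reCLM.comp (ContinuousLinearMap.snd ℝ ℂ ℂ)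
noncomputable def qe4 : C2 →L[ℝ] ℝ := Complex.imCLM.comp (ContinuousLinearMap.snd ℝ ℂ ℂ)

@[simp] theorem qe1_apply (z : C2) : qe1 z = z.1.re := rfl
@[simp] theorem qe2_apply (z : C2) : qe2 z = z.1.im := rfl
@[simp] theorem qe3_apply (z : C2) : qe3 z = z.2.re := rfl
@[simp] theorem qe4_apply (z : C2) : qe4 z = z.2.im := rfl

noncomputable def qq (a s t : ℝ) (z : C2) : ℝ :=
  a + s * (qe1 z ^ 2 + qe2 z ^ 2) + t * (qe3 z ^ 2 + qe4 z ^ 2)

noncomputable def qM (s t : ℝ) : C2 →L[ℝ] (C2 →L[ℝ] ℝ) :=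
  qe1.smulRight ((2 * s) • qe1) + qe2.smulRight ((2 * s) • qe2) +
    qe3.smulRight ((2 * t) • qe3) + qe4.smulRight ((2 * t) • qe4)

theorem qM_apply (s t : ℝ) (z w : C2) : qM s t z w =
    2 * (s * (z.1.re * w.1.re + z.1.im * w.1.im) + t * (z.2.re * w.2.re + z.2.im * w.2.im)) := by
  simp [qM]
  ring

theorem qq_hasFDerivAt (a s t : ℝ) (z : C2) : HasFDerivAt (qq a s t) (qM s t z) z := by
  have h1 : HasFDerivAt (fun z : C2 => qe1 z) qe1 z := qe1.hasFDerivAt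
  have h2 : HasFDerivAt (fun z : C2 => qe2 z) qe2 z := qe2.hasFDerivAt
  have h3 : HasFDerivAt (fun z : C2 => qe3 z) qe3 z := qe3.hasFDerivAt
  have h4 : HasFDerivAt (fun z : C2 => qe4 z) qe4 z := qe4.hasFDerivAt
  have := ((((h1.pow 2).add (h2.pow 2)).const_mul s).const_add a).add
    (((h3.pow 2).add (h4.pow 2)).const_mul t)
  refine this.congr_fderiv ?_
  ext w <;> simp [qM] <;> ring

theorem qq_contDiff (a s t : ℝ) : ContDiff ℝ ∞ (qq a s t) := by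
  unfold qq
  exact ((contDiff_const.add (contDiff_const.mul ((qe1.contDiff.pow 2).add (qe2.contDiff.pow 2)))).add
    (contDiff_const.mul ((qe3.contDiff.pow 2).add (qe4.contDiff.pow 2))))

theorem log_hasFDerivAt (c a s t : ℝ) (z : C2) (hz : qq a s t z ≠ 0) :
    HasFDerivAt (fun z => c * Real.log (qq a s t z)) ((c * (qq a s t z)⁻¹) • qM s t z) z := by
  have h := ((qq_hasFDerivAt a s t z).log hz).const_mul c
  refine h.congr_fderiv ?_
  rw [smul_smul]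

theorem log_fderiv (c a s t : ℝ) (z : C2) (hz : qq a s t z ≠ 0) :
    fderiv ℝ (fun z => c * Real.log (qq a s t z)) z = (c * (qq a s t z)⁻¹) • qM s t z :=
  (log_hasFDerivAt c a s t z hz).fderiv

theorem log_hess (c a s t : ℝ) (z v w : C2) (hz : qq a s t z ≠ 0) :
    hess (fun z => c * Real.log (qq a s t z)) z v w =
      c * (qM s t v w / qq a s t z - qM s t z v * qM s t z w / qq a s t z ^ 2) := by
  have hev : (fderiv ℝ (fun z => c * Real.log (qq a s t z))) =ᶠ[𝓝 z]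
      fun z => (c * (qq a s t z)⁻¹) • qM s t z := by
    have : ∀ᶠ y in 𝓝 z, qq a s t y ≠ 0 := (qq_contDiff a s t).continuous.continuousAt.eventually_ne hz
    filter_upwards [this] with y hy
    exact log_fderiv c a s t y hy
  have h2 : HasFDerivAt (fun z => (c * (qq a s t z)⁻¹) • qM s t z)
      ((c * (qq a s t z)⁻¹) • qM s t +
        (c • (-(qq a s t z ^ 2)⁻¹ • qM s t z)).smulRight (qM s t z)) z := by
    have hinv : HasFDerivAt (fun z => c * (qq a s t z)⁻¹) (c • (-(qq a s t z ^ 2)⁻¹ • qM s t z)) z := by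
      have := (hasDerivAt_inv hz).comp_hasFDerivAt z (qq_hasFDerivAt a s t z)
      exact this.const_mul c
    exact hinv.smul (qM s t).hasFDerivAt
  unfold hess
  rw [hev.fderiv_eq, h2.fderiv]
  simp only [ContinuousLinearMap.add_apply, ContinuousLinearMap.smul_apply,
    ContinuousLinearMap.smulRight_apply, smul_eq_mul]
  field_simp
  ring

theorem log_levi (c a s t : ℝ) (z w : C2) (hz : qq a s t z ≠ 0) :
    levi (fun z => c * Real.log (qq a s t z)) z w =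
      c * ((s * (w.1.re ^ 2 + w.1.im ^ 2) + t * (w.2.re ^ 2 + w.2.im ^ 2)) / qq a s t z -
        ((s * (z.1.re * w.1.re + z.1.im * w.1.im) + t * (z.2.re * w.2.re + z.2.im * w.2.im)) ^ 2 +
         (s * (z.1.im * w.1.re - z.1.re * w.1.im) + t * (z.2.im * w.2.re - z.2.re * w.2.im)) ^ 2) /
          qq a s t z ^ 2) := by
  unfold levi
  rw [log_hess c a s t z _ _ hz, log_hess c a s t z _ _ hz]
  simp only [qM_apply, Prod.smul_fst, Prod.smul_snd, smul_eq_mul, Complex.mul_re, Complex.mul_im,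
    Complex.I_re, Complex.I_im]
  field_simp
  ring

theorem nsq (x : ℂ) : ‖x‖ ^ 2 = x.re ^ 2 + x.im ^ 2 := by
  rw [Complex.sq_norm, Complex.normSq_apply]; ring

theorem qq_eq (a s t : ℝ) (z : C2) : qq a s t z = a + s * ‖z.1‖ ^ 2 + t * ‖z.2‖ ^ 2 := by
  rw [nsq, nsq]; rfl

theorem qq_pos (a s t : ℝ) (ha : 0 < a) (hs : 0 ≤ s) (ht : 0 ≤ t) (z : C2) : 0 < qq a s t z := by
  rw [qq_eq]; positivity

theorem pot_eq : pot = fun z => 1 / 2 * Real.log (qq 1 1 1 z) := by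
  funext z
  rw [qq_eq]
  unfold pot
  congr 2
  ring

theorem lg_eq (ε : ℝ) : (fun z : C2 => 1 / 2 * Real.log (‖z.1‖ ^ 2 + ε ^ 2)) =
    fun z => 1 / 2 * Real.log (qq (ε ^ 2) 1 0 z) := by
  funext z
  rw [qq_eq]
  congr 2
  ring

theorem l1_eq : (fun z : C2 => Real.log ‖z.1‖) = fun z => 1 / 2 * Real.log (qq 0 1 0 z) := by
  funext z
  rw [qq_eq]
  have : (0 : ℝ) + 1 * ‖z.1‖ ^ 2 + 0 * ‖z.2‖ ^ 2 = ‖z.1‖ ^ 2 := by ring
  rw [this, Real.log_pow]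
  push_cast
  ring

theorem m_eq : (fun z : C2 => Real.log (1 + ‖z.2‖ ^ 2)) = fun z => 1 * Real.log (qq 1 0 1 z) := by
  funext z
  rw [qq_eq, one_mul]
  congr 1
  ring

theorem log_contDiffAt (c a s t : ℝ) (z : C2) (hz : qq a s t z ≠ 0) :
    ContDiffAt ℝ ∞ (fun z => c * Real.log (qq a s t z)) z :=
  contDiffAt_const.mul ((qq_contDiff a s t).contDiffAt.log hz)

theorem pot_contDiff : ContDiff ℝ ∞ pot := by
  rw [pot_eq, contDiff_iff_contDiffAt]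
  intro z
  exact log_contDiffAt _ _ _ _ z (qq_pos 1 1 1 one_pos zero_le_one zero_le_one z).ne'

theorem levi_pot_eq (z w : C2) : levi pot z w =
    1 / 2 * ((‖w.1‖ ^ 2 + ‖w.2‖ ^ 2 + ((z.1.re * w.2.re - z.1.im * w.2.im - z.2.re * w.1.re + z.2.im * w.1.im) ^ 2
      + (z.1.re * w.2.im + z.1.im * w.2.re - z.2.re * w.1.im - z.2.im * w.1.re) ^ 2))
      / (qq 1 1 1 z) ^ 2) := by
  have hq := qq_pos 1 1 1 one_pos zero_le_one zero_le_one z
  rw [pot_eq, log_levi _ _ _ _ _ _ hq.ne', nsq, nsq]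
  rw [div_sub_div _ _ hq.ne' (pow_ne_zero 2 hq.ne'), mul_div_assoc', mul_div_assoc',
    div_eq_div_iff (mul_ne_zero hq.ne' (pow_ne_zero 2 hq.ne')) (pow_ne_zero 2 hq.ne')]
  rw [qq_eq, nsq, nsq]
  ring

theorem levi_pot_nonneg (z w : C2) : 0 ≤ levi pot z w := by
  rw [levi_pot_eq]
  positivity

theorem levi_pot_pos (z w : C2) (hw : w ≠ 0) : 0 < levi pot z w := by
  have hq := qq_pos 1 1 1 one_pos zero_le_one zero_le_one z
  rw [levi_pot_eq]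
  have : 0 < ‖w.1‖ ^ 2 + ‖w.2‖ ^ 2 := by
    by_cases h1 : w.1 = 0
    · have h2 : w.2 ≠ 0 := fun h => hw (Prod.ext h1 h)
      have : 0 < ‖w.2‖ := norm_pos_iff.mpr h2
      positivity
    · have : 0 < ‖w.1‖ := norm_pos_iff.mpr h1
      positivity
  positivity

theorem le_pot (z : C2) : Real.log ‖z.1‖ ≤ pot z := by
  by_cases h : z.1 = 0
  · rw [h, norm_zero, Real.log_zero]
    unfold pot
    have : 0 ≤ Real.log (1 + ‖z.1‖ ^ 2 + ‖z.2‖ ^ 2) :=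
      Real.log_nonneg (by nlinarith [sq_nonneg ‖z.1‖, sq_nonneg ‖z.2‖])
    linarith
  · have hp : 0 < ‖z.1‖ := norm_pos_iff.mpr h
    have h1 : Real.log ‖z.1‖ = 1 / 2 * Real.log (‖z.1‖ ^ 2) := by
      rw [Real.log_pow]; push_cast; ring
    rw [h1]
    unfold pot
    have : Real.log (‖z.1‖ ^ 2) ≤ Real.log (1 + ‖z.1‖ ^ 2 + ‖z.2‖ ^ 2) :=
      Real.log_le_log (by positivity) (by nlinarith [sq_nonneg ‖z.1‖, sq_nonneg ‖z.2‖])
    linarith

theorem pot_nonneg (z : C2) : 0 ≤ pot z := by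
  unfold pot
  have : 0 ≤ Real.log (1 + ‖z.1‖ ^ 2 + ‖z.2‖ ^ 2) :=
    Real.log_nonneg (by nlinarith [sq_nonneg ‖z.1‖, sq_nonneg ‖z.2‖])
  linarith

/-- `½ log(|z₁|² + ε²)` -/
theorem lg_contDiff (ε : ℝ) (hε : 0 < ε) :
    ContDiff ℝ ∞ fun z : C2 => 1 / 2 * Real.log (‖z.1‖ ^ 2 + ε ^ 2) := by
  rw [lg_eq, contDiff_iff_contDiffAt]
  intro z
  exact log_contDiffAt _ _ _ _ z (qq_pos _ 1 0 (by positivity) zero_le_one le_rfl z).ne'

theorem levi_lg (ε : ℝ) (hε : 0 < ε) (z w : C2) :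
    levi (fun z : C2 => 1 / 2 * Real.log (‖z.1‖ ^ 2 + ε ^ 2)) z w =
      ε ^ 2 * ‖w.1‖ ^ 2 / (2 * (‖z.1‖ ^ 2 + ε ^ 2) ^ 2) := by
  have hq := qq_pos (ε ^ 2) 1 0 (by positivity) zero_le_one le_rfl z
  rw [lg_eq, log_levi _ _ _ _ _ _ hq.ne']
  have e : qq (ε ^ 2) 1 0 z = ‖z.1‖ ^ 2 + ε ^ 2 := by rw [qq_eq]; ring
  rw [e] at hq ⊢
  rw [nsq] at hq ⊢
  rw [nsq]
  rw [div_sub_div _ _ hq.ne' (pow_ne_zero 2 hq.ne'), mul_div_assoc',
    div_eq_div_iff (mul_ne_zero hq.ne' (pow_ne_zero 2 hq.ne')) (by positivity)]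
  ring

theorem l1_contDiffAt (z : C2) (hz : z.1 ≠ 0) :
    ContDiffAt ℝ ∞ (fun z : C2 => Real.log ‖z.1‖) z := by
  rw [l1_eq]
  refine log_contDiffAt _ _ _ _ z ?_
  rw [qq_eq]
  have : 0 < ‖z.1‖ := norm_pos_iff.mpr hz
  positivity

theorem levi_l1 (z w : C2) (hz : z.1 ≠ 0) : levi (fun z : C2 => Real.log ‖z.1‖) z w = 0 := by
  have hp : 0 < ‖z.1‖ := norm_pos_iff.mpr hz
  have e : qq 0 1 0 z = ‖z.1‖ ^ 2 := by rw [qq_eq]; ring
  have hq : 0 < qq 0 1 0 z := by rw [e]; positivity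
  rw [l1_eq, log_levi _ _ _ _ _ _ hq.ne']
  rw [e] at hq ⊢
  rw [nsq] at hq ⊢
  rw [div_sub_div _ _ hq.ne' (pow_ne_zero 2 hq.ne'), mul_div_assoc',
    div_eq_iff (mul_ne_zero hq.ne' (pow_ne_zero 2 hq.ne'))]
  ring

theorem m_contDiff : ContDiff ℝ ∞ fun z : C2 => Real.log (1 + ‖z.2‖ ^ 2) := by
  rw [m_eq, contDiff_iff_contDiffAt]
  intro z
  exact log_contDiffAt _ _ _ _ z (qq_pos 1 0 1 one_pos le_rfl zero_le_one z).ne'

theorem levi_m (z w : C2) :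
    levi (fun z : C2 => Real.log (1 + ‖z.2‖ ^ 2)) z w = ‖w.2‖ ^ 2 / (1 + ‖z.2‖ ^ 2) ^ 2 := by
  have hq := qq_pos 1 0 1 one_pos le_rfl zero_le_one z
  rw [m_eq, log_levi _ _ _ _ _ _ hq.ne']
  have e : qq 1 0 1 z = 1 + ‖z.2‖ ^ 2 := by rw [qq_eq]; ring
  rw [e] at hq ⊢
  rw [nsq] at hq ⊢
  rw [nsq]
  rw [div_sub_div _ _ hq.ne' (pow_ne_zero 2 hq.ne'), mul_div_assoc',
    div_eq_div_iff (mul_ne_zero hq.ne' (pow_ne_zero 2 hq.ne')) (by positivity)]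
  ring

/-- `g(y) = arsinh(e^y)/4` -/
theorem g_contDiff : ContDiff ℝ ∞ fun y : ℝ => 1 / 4 * Real.arsinh (Real.exp y) :=
  contDiff_const.mul (Real.contDiff_arsinh.comp Real.contDiff_exp)

theorem g_hasDeriv (y : ℝ) : HasDerivAt (fun y : ℝ => 1 / 4 * Real.arsinh (Real.exp y))
    (1 / 4 * (Real.exp y / Real.sqrt (1 + Real.exp y ^ 2))) y := by
  have h := ((Real.hasDerivAt_arsinh (Real.exp y)).comp y (Real.hasDerivAt_exp y)).const_mul (1 / 4)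
  refine h.congr_deriv ?_
  field_simp

theorem g_deriv (y : ℝ) : deriv (fun y : ℝ => 1 / 4 * Real.arsinh (Real.exp y)) y =
    1 / 4 * (Real.exp y / Real.sqrt (1 + Real.exp y ^ 2)) := (g_hasDeriv y).deriv

theorem g_deriv2 (y : ℝ) : deriv (deriv (fun y : ℝ => 1 / 4 * Real.arsinh (Real.exp y))) y =
    1 / 4 * (Real.exp y / ((1 + Real.exp y ^ 2) * Real.sqrt (1 + Real.exp y ^ 2))) := by
  have e : deriv (fun y : ℝ => 1 / 4 * Real.arsinh (Real.exp y)) =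
      fun y => 1 / 4 * (Real.exp y / Real.sqrt (1 + Real.exp y ^ 2)) := funext g_deriv
  rw [e]
  have hp : 0 < 1 + Real.exp y ^ 2 := by positivity
  have hs : 0 < Real.sqrt (1 + Real.exp y ^ 2) := Real.sqrt_pos.mpr hp
  have hss : Real.sqrt (1 + Real.exp y ^ 2) ^ 2 = 1 + Real.exp y ^ 2 := Real.sq_sqrt hp.le
  have h1 : HasDerivAt (fun y : ℝ => 1 + Real.exp y ^ 2) (2 * Real.exp y ^ 1 * Real.exp y) y := by
    have := ((Real.hasDerivAt_exp y).pow 2).const_add 1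
    refine this.congr_deriv ?_
    norm_num
  have h2 := h1.sqrt hp.ne'
  have h3 := ((Real.hasDerivAt_exp y).div h2 hs.ne').const_mul (1 / 4)
  have h3' : deriv (fun y => 1 / 4 * (Real.exp y / √(1 + Real.exp y ^ 2))) y = _ := h3.deriv
  rw [h3']
  rw [← hss]
  have h4 : Real.sqrt (Real.sqrt (1 + Real.exp y ^ 2) ^ 2) = Real.sqrt (1 + Real.exp y ^ 2) :=
    Real.sqrt_sq hs.le
  rw [h4]
  set S := Real.sqrt (1 + Real.exp y ^ 2) with hS
  have hE : Real.exp y ^ 2 = S ^ 2 - 1 := by rw [hss]; ring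
  field_simp
  rw [hE]
  ring

/-- first derivatives used for the exact formulas -/
theorem fderiv_l1 (z w : C2) (hz : z.1 ≠ 0) :
    (fderiv ℝ (fun z : C2 => Real.log ‖z.1‖) z w) =
      (z.1.re * w.1.re + z.1.im * w.1.im) / ‖z.1‖ ^ 2 := by
  have hp : 0 < ‖z.1‖ := norm_pos_iff.mpr hz
  have e : qq 0 1 0 z = ‖z.1‖ ^ 2 := by rw [qq_eq]; ring
  have hq : 0 < qq 0 1 0 z := by rw [e]; positivity
  rw [l1_eq, log_fderiv _ _ _ _ _ hq.ne', e]
  rw [ContinuousLinearMap.smul_apply, qM_apply, smul_eq_mul]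
  field_simp
  ring

theorem fderiv_lg (ε : ℝ) (hε : 0 < ε) (z w : C2) :
    (fderiv ℝ (fun z : C2 => 1 / 2 * Real.log (‖z.1‖ ^ 2 + ε ^ 2)) z w) =
      (z.1.re * w.1.re + z.1.im * w.1.im) / (‖z.1‖ ^ 2 + ε ^ 2) := by
  have hq := qq_pos (ε ^ 2) 1 0 (by positivity) zero_le_one le_rfl z
  have e : qq (ε ^ 2) 1 0 z = ‖z.1‖ ^ 2 + ε ^ 2 := by rw [qq_eq]; ring
  rw [lg_eq, log_fderiv _ _ _ _ _ hq.ne', e]
  rw [ContinuousLinearMap.smul_apply, qM_apply, smul_eq_mul]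
  rw [e] at hq
  field_simp
  ring

theorem fderiv_m (z w : C2) :
    (fderiv ℝ (fun z : C2 => Real.log (1 + ‖z.2‖ ^ 2)) z w) =
      2 * (z.2.re * w.2.re + z.2.im * w.2.im) / (1 + ‖z.2‖ ^ 2) := by
  have hq := qq_pos 1 0 1 one_pos le_rfl zero_le_one z
  have e : qq 1 0 1 z = 1 + ‖z.2‖ ^ 2 := by rw [qq_eq]; ring
  rw [m_eq, log_fderiv _ _ _ _ _ hq.ne', e]
  rw [ContinuousLinearMap.smul_apply, qM_apply, smul_eq_mul]
  rw [e] at hq
  field_simp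
  ring

end Pool.Agent.H314.MA
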