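import Pool.Agent.H314.MA.Defs

set_option autoImplicit false
open Set Filter Topology MeasureTheory
open scoped ContDiff

namespace Pool.Agent.H314.MA


theorem zero_closure {f : ℝ → ℝ} (hf : Continuous f) (h : ∀ t, t < 0 → f t = 0) {t : ℝ} (ht : t ≤ 0) :
    f t = 0 := by
  have h1 : Iic (0 : ℝ) ⊆ {x | f x = 0} := by
    rw [← closure_Iio (0 : ℝ)]
    exact closure_minimal (fun x hx => h x hx) (isClosed_eq hf continuous_const)
  exact h1 ht

theorem chi_eq_pos {t : ℝ} (ht : 0 < t) : chi t = t * Real.exp (-t⁻¹) := by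
  simp [chi, expNegInvGlue, not_le.2 ht]

theorem chi_contDiff : ContDiff ℝ ∞ chi := by
  exact contDiff_id.mul expNegInvGlue.contDiff

theorem chi_of_nonpos {t : ℝ} (ht : t ≤ 0) : chi t = 0 := by
  simp [chi, expNegInvGlue.zero_of_nonpos ht]

theorem chi_nonneg (t : ℝ) : 0 ≤ chi t := by
  rcases le_or_gt t 0 with ht | ht
  · rw [chi_of_nonpos ht]
  · exact mul_nonneg ht.le (expNegInvGlue.nonneg t)

theorem chi_le (t : ℝ) : chi t ≤ max t 0 := by
  rcases le_or_gt t 0 with ht | ht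
  · rw [chi_of_nonpos ht]; exact le_max_right _ _
  · rw [chi_eq_pos ht]
    refine le_trans ?_ (le_max_left _ _)
    have : Real.exp (-t⁻¹) ≤ 1 := Real.exp_le_one_iff.2 (by have := inv_pos.2 ht; linarith)
    nlinarith

theorem le_chi (t : ℝ) : t - 1 ≤ chi t := by
  rcases le_or_gt t 0 with ht | ht
  · rw [chi_of_nonpos ht]; linarith
  · rw [chi_eq_pos ht]
    have h1 : -t⁻¹ + 1 ≤ Real.exp (-t⁻¹) := Real.add_one_le_exp _
    have h2 : t * (-t⁻¹ + 1) ≤ t * Real.exp (-t⁻¹) := mul_le_mul_of_nonneg_left h1 ht.le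
    have h3 : t * (-t⁻¹ + 1) = t - 1 := by field_simp; ring
    linarith


theorem chi_hasDerivAt {t : ℝ} (ht : 0 < t) : HasDerivAt chi (Real.exp (-t⁻¹) * (1 + t⁻¹)) t := by
  have h1 : HasDerivAt (fun t : ℝ => t * Real.exp (-t⁻¹))
      (1 * Real.exp (-t⁻¹) + t * (Real.exp (-t⁻¹) * (-(-(t ^ 2)⁻¹)))) t :=
    (hasDerivAt_id t).mul (((hasDerivAt_inv ht.ne').neg).exp)
  have h2 : HasDerivAt (fun t : ℝ => t * Real.exp (-t⁻¹)) (Real.exp (-t⁻¹) * (1 + t⁻¹)) t := by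
    refine h1.congr_deriv ?_
    field_simp
  refine h2.congr_of_eventuallyEq ?_
  filter_upwards [lt_mem_nhds ht] with s hs
  exact chi_eq_pos hs

theorem deriv_chi_pos {t : ℝ} (ht : 0 < t) : deriv chi t = Real.exp (-t⁻¹) * (1 + t⁻¹) :=
  (chi_hasDerivAt ht).deriv

theorem deriv_chi_cont : Continuous (deriv chi) :=
  chi_contDiff.continuous_deriv (by simp)

theorem deriv_chi_contDiff : ContDiff ℝ ∞ (deriv chi) := by
  have h := chi_contDiff
  rw [contDiff_infty_iff_deriv] at h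
  exact h.2

theorem deriv_chi_of_nonpos {t : ℝ} (ht : t ≤ 0) : deriv chi t = 0 := by
  refine zero_closure deriv_chi_cont (fun s hs => ?_) ht
  have : chi =ᶠ[𝓝 s] fun _ => 0 := by
    filter_upwards [gt_mem_nhds hs] with r hr
    exact chi_of_nonpos (le_of_lt hr)
  rw [this.deriv_eq]; simp

theorem deriv2_chi_of_nonpos {t : ℝ} (ht : t ≤ 0) : deriv (deriv chi) t = 0 := by
  refine zero_closure (deriv_chi_contDiff.continuous_deriv (by simp)) (fun s hs => ?_) ht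
  have : deriv chi =ᶠ[𝓝 s] fun _ => 0 := by
    filter_upwards [gt_mem_nhds hs] with r hr
    exact deriv_chi_of_nonpos (le_of_lt hr)
  rw [this.deriv_eq]; simp

theorem deriv2_chi_pos {t : ℝ} (ht : 0 < t) : deriv (deriv chi) t = Real.exp (-t⁻¹) * (t ^ 3)⁻¹ := by
  have h0 : deriv chi =ᶠ[𝓝 t] fun t => Real.exp (-t⁻¹) * (1 + t⁻¹) := by
    filter_upwards [lt_mem_nhds ht] with s hs
    exact deriv_chi_pos hs
  rw [h0.deriv_eq]
  have h1 : HasDerivAt (fun t : ℝ => Real.exp (-t⁻¹) * (1 + t⁻¹))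
      (Real.exp (-t⁻¹) * (-(-(t ^ 2)⁻¹)) * (1 + t⁻¹) + Real.exp (-t⁻¹) * (-(t ^ 2)⁻¹)) t :=
    (((hasDerivAt_inv ht.ne').neg).exp).mul ((hasDerivAt_inv ht.ne').const_add 1)
  rw [h1.deriv]
  field_simp
  ring

theorem deriv_chi_nonneg (t : ℝ) : 0 ≤ deriv chi t := by
  rcases le_or_gt t 0 with ht | ht
  · rw [deriv_chi_of_nonpos ht]
  · rw [deriv_chi_pos ht]; positivity

theorem deriv_chi_lt_one (t : ℝ) : deriv chi t < 1 := by
  rcases le_or_gt t 0 with ht | ht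
  · rw [deriv_chi_of_nonpos ht]; norm_num
  · rw [deriv_chi_pos ht]
    have h1 : t⁻¹ + 1 < Real.exp t⁻¹ := Real.add_one_lt_exp (inv_pos.2 ht).ne'
    calc Real.exp (-t⁻¹) * (1 + t⁻¹) < Real.exp (-t⁻¹) * Real.exp t⁻¹ :=
          mul_lt_mul_of_pos_left (by linarith) (Real.exp_pos _)
      _ = 1 := by rw [← Real.exp_add]; simp

theorem deriv2_chi_nonneg (t : ℝ) : 0 ≤ deriv (deriv chi) t := by
  rcases le_or_gt t 0 with ht | ht
  · rw [deriv2_chi_of_nonpos ht]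
  · rw [deriv2_chi_pos ht]; positivity

theorem chi_mono : Monotone chi := by
  exact monotone_of_deriv_nonneg (chi_contDiff.differentiable (by simp)) deriv_chi_nonneg

/-- `s + chi (t - s)` is nondecreasing in `s` -/
theorem add_chi_mono (t : ℝ) : Monotone fun s => s + chi (t - s) := by
  have hd : ∀ s, HasDerivAt (fun s => s + chi (t - s)) (1 + deriv chi (t - s) * (-1)) s := by
    intro s
    have h1 : HasDerivAt chi (deriv chi (t - s)) (t - s) :=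
      ((chi_contDiff.differentiable (by simp)) (t - s)).hasDerivAt
    have h2 : HasDerivAt (fun s => t - s) (-1) s := by
      simpa using (hasDerivAt_id s).const_sub t
    exact (hasDerivAt_id s).add (h1.comp s h2)
  apply monotone_of_deriv_nonneg (fun s => (hd s).differentiableAt)
  intro s
  rw [(hd s).deriv]
  have := deriv_chi_lt_one (t - s)
  linarith

/-- behaviour at infinity -/
theorem chi_sub_tendsto : Tendsto (fun t => chi t - t) atTop (𝓝 (-1)) := by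
  have h1 := hasDerivAt_iff_tendsto_slope.1 (Real.hasDerivAt_exp 0)
  have h2 : Tendsto (fun t : ℝ => -t⁻¹) atTop (𝓝[≠] 0) := by
    rw [tendsto_nhdsWithin_iff]
    refine ⟨by simpa using (tendsto_inv_atTop_zero (𝕜 := ℝ)).neg, ?_⟩
    filter_upwards [eventually_gt_atTop 0] with t ht
    have := inv_pos.2 ht
    simp only [mem_compl_iff, mem_singleton_iff, neg_eq_zero]
    exact this.ne'
  have h3 := (h1.comp h2).neg
  rw [Real.exp_zero] at h3
  refine h3.congr' ?_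
  filter_upwards [eventually_gt_atTop 0] with t ht
  rw [chi_eq_pos ht]
  simp only [Function.comp_apply, slope_def_field, Real.exp_zero, sub_zero]
  field_simp


theorem sq_pos_aux (ε : ℝ) (hε : 0 < ε) (x : ℝ) : 0 < x ^ 2 + ε ^ 2 := by positivity

theorem sqrt_lip (x y e : ℝ) : Real.sqrt (x ^ 2 + e ^ 2) ≤ Real.sqrt (y ^ 2 + e ^ 2) + |x - y| := by
  have h0 : 0 ≤ Real.sqrt (y ^ 2 + e ^ 2) := Real.sqrt_nonneg _
  have h1 : |y| ≤ Real.sqrt (y ^ 2 + e ^ 2) := Real.abs_le_sqrt (by nlinarith [sq_nonneg e])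
  have h2 : Real.sqrt (y ^ 2 + e ^ 2) ^ 2 = y ^ 2 + e ^ 2 := Real.sq_sqrt (by positivity)
  apply Real.sqrt_le_iff.2
  refine ⟨by positivity, ?_⟩
  have h3 : y * (x - y) ≤ Real.sqrt (y ^ 2 + e ^ 2) * |x - y| := by
    calc y * (x - y) ≤ |y * (x - y)| := le_abs_self _
      _ = |y| * |x - y| := abs_mul _ _
      _ ≤ _ := mul_le_mul_of_nonneg_right h1 (abs_nonneg _)
  have h4 : |x - y| ^ 2 = (x - y) ^ 2 := sq_abs _
  nlinarith

theorem smax_contDiff (ε : ℝ) (hε : 0 < ε) : ContDiff ℝ ∞ fun p : ℝ × ℝ => smax ε p.1 p.2 := by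
  have h1 : ContDiff ℝ ∞ fun p : ℝ × ℝ => Real.sqrt ((p.1 - p.2) ^ 2 + ε ^ 2) := by
    apply ContDiff.sqrt
    · fun_prop
    · intro p
      exact (sq_pos_aux ε hε _).ne'
  have h2 : (fun p : ℝ × ℝ => smax ε p.1 p.2) = fun p : ℝ × ℝ =>
      (p.1 + p.2 + Real.sqrt ((p.1 - p.2) ^ 2 + ε ^ 2)) / 2 := rfl
  rw [h2]
  exact ((contDiff_fst.add contDiff_snd).add h1).div_const 2

theorem smax_mono_eps {ε δ : ℝ} (h : 0 ≤ ε) (hd : ε ≤ δ) (a b : ℝ) : smax ε a b ≤ smax δ a b := by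
  unfold smax
  have : Real.sqrt ((a - b) ^ 2 + ε ^ 2) ≤ Real.sqrt ((a - b) ^ 2 + δ ^ 2) := by
    apply Real.sqrt_le_sqrt
    nlinarith
  linarith

theorem smax_mono {ε a b c d : ℝ} (h : a ≤ c) (h' : b ≤ d) : smax ε a b ≤ smax ε c d := by
  unfold smax
  have h1 := sqrt_lip (a - b) (c - d) ε
  have h2 : |a - b - (c - d)| ≤ (c - a) + (d - b) := by
    rw [abs_le]; constructor <;> linarith
  linarith

theorem max_le_smax (ε a b : ℝ) : max a b ≤ smax ε a b := by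
  have h1 : |a - b| ≤ Real.sqrt ((a - b) ^ 2 + ε ^ 2) := Real.abs_le_sqrt (by nlinarith [sq_nonneg ε])
  have h2 := abs_le.1 h1
  unfold smax
  apply max_le <;> linarith

theorem smax_le (ε a b : ℝ) (hε : 0 ≤ ε) : smax ε a b ≤ max a b + ε := by
  unfold smax
  have h1 : Real.sqrt ((a - b) ^ 2 + ε ^ 2) ≤ |a - b| + ε := by
    apply Real.sqrt_le_iff.2
    refine ⟨by positivity, ?_⟩
    have h4 : |a - b| ^ 2 = (a - b) ^ 2 := sq_abs _
    have := mul_nonneg (abs_nonneg (a - b)) hε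
    nlinarith
  rcases le_total a b with h | h
  · rw [max_eq_right h]
    rw [abs_of_nonpos (by linarith)] at h1
    linarith
  · rw [max_eq_left h]
    rw [abs_of_nonneg (by linarith)] at h1
    linarith


theorem comp_hasFDerivAt (g : ℝ → ℝ) (hg : ContDiff ℝ ∞ g) (M L : ℝ × ℝ →L[ℝ] ℝ) (p : ℝ × ℝ) :
    HasFDerivAt (fun p => M p + g (L p)) (M + (deriv g (L p)) • L) p := by
  have h1 : HasDerivAt g (deriv g (L p)) (L p) := ((hg.differentiable (by simp)) (L p)).hasDerivAt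
  exact M.hasFDerivAt.add (h1.comp_hasFDerivAt p L.hasFDerivAt)

theorem comp_fderiv (g : ℝ → ℝ) (hg : ContDiff ℝ ∞ g) (M L : ℝ × ℝ →L[ℝ] ℝ) (p v : ℝ × ℝ) :
    fderiv ℝ (fun p => M p + g (L p)) p v = M v + deriv g (L p) * L v := by
  rw [(comp_hasFDerivAt g hg M L p).fderiv]; simp

theorem comp_hess (g : ℝ → ℝ) (hg : ContDiff ℝ ∞ g) (M L : ℝ × ℝ →L[ℝ] ℝ) (p v w : ℝ × ℝ) :
    hessR (fun p => M p + g (L p)) p v w = deriv (deriv g) (L p) * L v * L w := by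
  unfold hessR
  have h0 : fderiv ℝ (fun p => M p + g (L p)) = fun p => M + (deriv g (L p)) • L := by
    funext p
    exact (comp_hasFDerivAt g hg M L p).fderiv
  rw [h0]
  have hg' : ContDiff ℝ ∞ (deriv g) := by
    rw [contDiff_infty_iff_deriv] at hg
    exact hg.2
  have h1 : HasDerivAt (deriv g) (deriv (deriv g) (L p)) (L p) :=
    ((hg'.differentiable (by simp)) (L p)).hasDerivAt
  have h2 : HasFDerivAt (fun p => deriv g (L p)) (deriv (deriv g) (L p) • L) p :=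
    h1.comp_hasFDerivAt p L.hasFDerivAt
  have h3 : HasFDerivAt (fun p => M + (deriv g (L p)) • L) ((deriv (deriv g) (L p) • L).smulRight L) p :=
    (h2.smul_const L).const_add M
  rw [h3.fderiv]
  simp

/-- the one variable function in the smooth maximum -/
noncomputable def qf (ε s : ℝ) : ℝ := Real.sqrt (s ^ 2 + ε ^ 2) / 2

theorem qf_contDiff (ε : ℝ) (hε : 0 < ε) : ContDiff ℝ ∞ (qf ε) := by
  have h1 : ContDiff ℝ ∞ fun s : ℝ => Real.sqrt (s ^ 2 + ε ^ 2) := by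
    apply ContDiff.sqrt
    · fun_prop
    · intro p
      exact (sq_pos_aux ε hε _).ne'
  exact h1.div_const 2

theorem sqrt_hasDerivAt (ε : ℝ) (hε : 0 < ε) (s : ℝ) :
    HasDerivAt (fun s : ℝ => Real.sqrt (s ^ 2 + ε ^ 2)) (s / Real.sqrt (s ^ 2 + ε ^ 2)) s := by
  have h0 : HasDerivAt (fun s : ℝ => s ^ 2 + ε ^ 2) (2 * s) s := by
    have := (hasDerivAt_pow 2 s).add_const (ε ^ 2)
    simpa using this
  have h1 := h0.sqrt (sq_pos_aux ε hε s).ne'
  refine h1.congr_deriv ?_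
  rw [mul_div_mul_left _ _ two_ne_zero]

theorem qf_hasDerivAt (ε : ℝ) (hε : 0 < ε) (s : ℝ) :
    HasDerivAt (qf ε) (s / Real.sqrt (s ^ 2 + ε ^ 2) / 2) s :=
  (sqrt_hasDerivAt ε hε s).div_const 2

theorem qf_deriv (ε : ℝ) (hε : 0 < ε) : deriv (qf ε) = fun s => s / Real.sqrt (s ^ 2 + ε ^ 2) / 2 := by
  funext s
  exact (qf_hasDerivAt ε hε s).deriv

theorem qf_deriv_bound (ε : ℝ) (hε : 0 < ε) (s : ℝ) : |deriv (qf ε) s| ≤ 1 / 2 := by
  rw [qf_deriv ε hε]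
  simp only
  have hR : 0 < Real.sqrt (s ^ 2 + ε ^ 2) := Real.sqrt_pos.2 (sq_pos_aux ε hε s)
  rw [abs_div, abs_div, abs_of_pos hR]
  have h1 : |s| ≤ Real.sqrt (s ^ 2 + ε ^ 2) := Real.abs_le_sqrt (by nlinarith [sq_nonneg ε])
  have h2 : |s| / Real.sqrt (s ^ 2 + ε ^ 2) ≤ 1 := by rw [div_le_one hR]; exact h1
  rw [abs_of_pos (two_pos : (0:ℝ) < 2)]
  linarith

theorem qf_deriv2_nonneg (ε : ℝ) (hε : 0 < ε) (s : ℝ) : 0 ≤ deriv (deriv (qf ε)) s := by
  rw [qf_deriv ε hε]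
  have hR : 0 < Real.sqrt (s ^ 2 + ε ^ 2) := Real.sqrt_pos.2 (sq_pos_aux ε hε s)
  have h1 : HasDerivAt (fun s => s / Real.sqrt (s ^ 2 + ε ^ 2) / 2)
      ((1 * Real.sqrt (s ^ 2 + ε ^ 2) - s * (s / Real.sqrt (s ^ 2 + ε ^ 2))) /
        Real.sqrt (s ^ 2 + ε ^ 2) ^ 2 / 2) s :=
    (((hasDerivAt_id s).fun_div (sqrt_hasDerivAt ε hε s) hR.ne').div_const 2)
  rw [h1.deriv]
  have h2 : Real.sqrt (s ^ 2 + ε ^ 2) ^ 2 = s ^ 2 + ε ^ 2 := Real.sq_sqrt (sq_pos_aux ε hε s).le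
  have h3 : 1 * Real.sqrt (s ^ 2 + ε ^ 2) - s * (s / Real.sqrt (s ^ 2 + ε ^ 2)) =
      ε ^ 2 / Real.sqrt (s ^ 2 + ε ^ 2) := by
    rw [eq_div_iff hR.ne']
    have : s * (s / Real.sqrt (s ^ 2 + ε ^ 2)) * Real.sqrt (s ^ 2 + ε ^ 2) = s ^ 2 := by
      field_simp
    rw [sub_mul, this, one_mul]
    nlinarith
  rw [h3]
  positivity

theorem smax_eq (ε : ℝ) : (fun p : ℝ × ℝ => smax ε p.1 p.2) = fun p : ℝ × ℝ =>
    ((1 / 2 : ℝ) • (ContinuousLinearMap.fst ℝ ℝ ℝ + ContinuousLinearMap.snd ℝ ℝ ℝ)) p +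
      qf ε ((ContinuousLinearMap.fst ℝ ℝ ℝ - ContinuousLinearMap.snd ℝ ℝ ℝ) p) := by
  funext p
  simp only [smax, qf, _root_.smul_apply, _root_.add_apply,
    _root_.sub_apply, ContinuousLinearMap.coe_fst', ContinuousLinearMap.coe_snd', smul_eq_mul]
  ring

theorem glue_eq : (fun p : ℝ × ℝ => p.1 + chi (p.2 - p.1)) = fun p : ℝ × ℝ =>
    (ContinuousLinearMap.fst ℝ ℝ ℝ) p +
      chi ((ContinuousLinearMap.snd ℝ ℝ ℝ - ContinuousLinearMap.fst ℝ ℝ ℝ) p) := by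
  funext p
  simp

/-- partial derivatives of the smooth maximum are nonnegative -/
theorem smax_fderiv_nonneg (ε : ℝ) (hε : 0 < ε) (p : ℝ × ℝ) :
    0 ≤ fderiv ℝ (fun p : ℝ × ℝ => smax ε p.1 p.2) p (1, 0) ∧
      0 ≤ fderiv ℝ (fun p : ℝ × ℝ => smax ε p.1 p.2) p (0, 1) := by
  rw [smax_eq ε, comp_fderiv _ (qf_contDiff ε hε), comp_fderiv _ (qf_contDiff ε hε)]
  have h := abs_le.1 (qf_deriv_bound ε hε ((ContinuousLinearMap.fst ℝ ℝ ℝ - ContinuousLinearMap.snd ℝ ℝ ℝ) p))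
  constructor
  · simp only [_root_.smul_apply, _root_.add_apply,
      _root_.sub_apply, ContinuousLinearMap.coe_fst', ContinuousLinearMap.coe_snd', smul_eq_mul] at h ⊢
    linarith
  · simp only [_root_.smul_apply, _root_.add_apply,
      _root_.sub_apply, ContinuousLinearMap.coe_fst', ContinuousLinearMap.coe_snd', smul_eq_mul] at h ⊢
    linarith

/-- the smooth maximum is convex -/
theorem smax_hess_nonneg (ε : ℝ) (hε : 0 < ε) (p ξ : ℝ × ℝ) :
    0 ≤ hessR (fun p : ℝ × ℝ => smax ε p.1 p.2) p ξ ξ := by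
  rw [smax_eq ε, comp_hess _ (qf_contDiff ε hε), mul_assoc]
  exact mul_nonneg (qf_deriv2_nonneg ε hε _) (mul_self_nonneg _)

/-- the same for the gluing function `s + chi (t - s)` -/
theorem glue_contDiff : ContDiff ℝ ∞ fun p : ℝ × ℝ => p.1 + chi (p.2 - p.1) := by
  exact contDiff_fst.add (chi_contDiff.comp (contDiff_snd.sub contDiff_fst))

theorem glue_fderiv_1 (p : ℝ × ℝ) :
    fderiv ℝ (fun p : ℝ × ℝ => p.1 + chi (p.2 - p.1)) p (1, 0) = 1 - deriv chi (p.2 - p.1) := by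
  rw [glue_eq, comp_fderiv _ chi_contDiff]
  simp only [_root_.sub_apply, ContinuousLinearMap.coe_fst', ContinuousLinearMap.coe_snd']
  ring

theorem glue_fderiv_2 (p : ℝ × ℝ) :
    fderiv ℝ (fun p : ℝ × ℝ => p.1 + chi (p.2 - p.1)) p (0, 1) = deriv chi (p.2 - p.1) := by
  rw [glue_eq, comp_fderiv _ chi_contDiff]
  simp only [_root_.sub_apply, ContinuousLinearMap.coe_fst', ContinuousLinearMap.coe_snd']
  ring

theorem glue_hess (p ξ : ℝ × ℝ) :
    hessR (fun p : ℝ × ℝ => p.1 + chi (p.2 - p.1)) p ξ ξ =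
      deriv (deriv chi) (p.2 - p.1) * (ξ.2 - ξ.1) ^ 2 := by
  rw [glue_eq, comp_hess _ chi_contDiff]
  simp only [_root_.sub_apply, ContinuousLinearMap.coe_fst', ContinuousLinearMap.coe_snd']
  ring

end Pool.Agent.H314.MA
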