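import Pool.Agent.H314.MA.Defs

set_option autoImplicit false
open Set Filter Topology MeasureTheory
open scoped ContDiff

namespace Pool.Agent.H314.MA

section genaux

variable {E F : Type*} [NormedAddCommGroup E] [NormedSpace ℝ E] [NormedAddCommGroup F] [NormedSpace ℝ F]

theorem diffAt_fderiv_gen {u : E → F} {z : E} (hu : ContDiffAt ℝ 2 u z) :
    DifferentiableAt ℝ (fderiv ℝ u) z :=
  (hu.fderiv_right (m := 1) (by norm_num)).differentiableAt (by norm_num)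

theorem ev_diff_gen {u : E → F} {z : E} (hu : ContDiffAt ℝ 2 u z) :
    ∀ᶠ y in 𝓝 z, DifferentiableAt ℝ u y := by
  filter_upwards [hu.eventually (by simp)] with y hy
  exact hy.differentiableAt (by norm_num)

/-- second derivative of a composition -/
theorem snd_comp_gen {f : E → F} {g : F → ℝ} {z : E} (hg : ContDiffAt ℝ 2 g (f z))
    (hf : ContDiffAt ℝ 2 f z) (v w : E) :
    fderiv ℝ (fderiv ℝ (fun y => g (f y))) z v w =
      fderiv ℝ (fderiv ℝ g) (f z) (fderiv ℝ f z v) (fderiv ℝ f z w) +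
        fderiv ℝ g (f z) (fderiv ℝ (fderiv ℝ f) z v w) := by
  have h1 : fderiv ℝ (fun y => g (f y)) =ᶠ[𝓝 z] fun y => (fderiv ℝ g (f y)).comp (fderiv ℝ f y) := by
    have hgev : ∀ᶠ y in 𝓝 z, DifferentiableAt ℝ g (f y) :=
      hf.continuousAt.eventually (ev_diff_gen hg)
    filter_upwards [hgev, ev_diff_gen hf] with y hy1 hy2
    exact fderiv_comp y hy1 hy2
  rw [h1.fderiv_eq]
  have h2 : HasFDerivAt (fun y => fderiv ℝ g (f y))
      ((fderiv ℝ (fderiv ℝ g) (f z)).comp (fderiv ℝ f z)) z :=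
    (diffAt_fderiv_gen hg).hasFDerivAt.comp z (hf.differentiableAt (by norm_num)).hasFDerivAt
  have h3 : HasFDerivAt (fderiv ℝ f) (fderiv ℝ (fderiv ℝ f) z) z := (diffAt_fderiv_gen hf).hasFDerivAt
  rw [(h2.clm_comp h3).fderiv]
  simp only [add_apply, ContinuousLinearMap.comp_apply, ContinuousLinearMap.compL_apply,
    ContinuousLinearMap.flip_apply]
  rw [add_comm]

theorem snd_linear_zero (L : F →L[ℝ] ℝ) (x u v : F) : fderiv ℝ (fderiv ℝ (fun y => L y)) x u v = 0 := by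
  have h1 : fderiv ℝ (fun y => L y) = fun _ => L := by
    funext y
    exact L.fderiv
  rw [h1, fderiv_fun_const]
  rfl

theorem pair_snd {a b : E → ℝ} {z : E} (ha : ContDiffAt ℝ 2 a z) (hb : ContDiffAt ℝ 2 b z) (v w : E) :
    fderiv ℝ (fderiv ℝ (fun y => (a y, b y))) z v w =
      (fderiv ℝ (fderiv ℝ a) z v w, fderiv ℝ (fderiv ℝ b) z v w) := by
  have hf : ContDiffAt ℝ 2 (fun y => (a y, b y)) z := ha.prodMk hb
  ext1
  · have h1 := snd_comp_gen (f := fun y => (a y, b y)) (g := fun p : ℝ × ℝ => ContinuousLinearMap.fst ℝ ℝ ℝ p)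
      (z := z) (ContinuousLinearMap.fst ℝ ℝ ℝ).contDiff.contDiffAt hf v w
    rw [snd_linear_zero, zero_add, ContinuousLinearMap.fderiv] at h1
    exact h1.symm
  · have h1 := snd_comp_gen (f := fun y => (a y, b y)) (g := fun p : ℝ × ℝ => ContinuousLinearMap.snd ℝ ℝ ℝ p)
      (z := z) (ContinuousLinearMap.snd ℝ ℝ ℝ).contDiff.contDiffAt hf v w
    rw [snd_linear_zero, zero_add, ContinuousLinearMap.fderiv] at h1
    exact h1.symm

theorem pair_fst {a b : E → ℝ} {z : E} (ha : ContDiffAt ℝ 2 a z) (hb : ContDiffAt ℝ 2 b z) (v : E) :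
    fderiv ℝ (fun y => (a y, b y)) z v = (fderiv ℝ a z v, fderiv ℝ b z v) := by
  have h1 := ((ha.differentiableAt (by norm_num)).hasFDerivAt.prodMk
    (hb.differentiableAt (by norm_num)).hasFDerivAt).fderiv
  rw [h1]
  rfl

theorem comp2_gen (g : ℝ × ℝ → ℝ) (a b : E → ℝ) (z : E)
    (hg : ContDiffAt ℝ 2 g (a z, b z)) (ha : ContDiffAt ℝ 2 a z) (hb : ContDiffAt ℝ 2 b z)
    (v w : E) :
    fderiv ℝ (fderiv ℝ (fun y => g (a y, b y))) z v w =
      fderiv ℝ g (a z, b z) (1, 0) * fderiv ℝ (fderiv ℝ a) z v w +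
      fderiv ℝ g (a z, b z) (0, 1) * fderiv ℝ (fderiv ℝ b) z v w +
      fderiv ℝ (fderiv ℝ g) (a z, b z) (fderiv ℝ a z v, fderiv ℝ b z v) (fderiv ℝ a z w, fderiv ℝ b z w) := by
  have h1 := snd_comp_gen (f := fun y => (a y, b y)) (g := g) (z := z) hg (ha.prodMk hb) v w
  rw [h1, pair_snd ha hb, pair_fst ha hb, pair_fst ha hb]
  have h2 : ∀ s t : ℝ, fderiv ℝ g (a z, b z) (s, t) =
      fderiv ℝ g (a z, b z) (1, 0) * s + fderiv ℝ g (a z, b z) (0, 1) * t := by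
    intro s t
    have h3 : ((s, t) : ℝ × ℝ) = s • ((1, 0) : ℝ × ℝ) + t • ((0, 1) : ℝ × ℝ) := by
      simp
    rw [h3, map_add, map_smul, map_smul, smul_eq_mul, smul_eq_mul]
    ring
  rw [h2]
  ring

theorem fderiv_real (g : ℝ → ℝ) (x s : ℝ) : fderiv ℝ g x s = deriv g x * s := by
  have h3 : s = s • (1:ℝ) := by simp
  conv_lhs => rw [h3, map_smul, smul_eq_mul]
  rw [fderiv_apply_one_eq_deriv]
  ring

theorem snd_real {g : ℝ → ℝ} {x : ℝ} (hg : ContDiffAt ℝ 2 g x) (s t : ℝ) :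
    fderiv ℝ (fderiv ℝ g) x s t = deriv (deriv g) x * (s * t) := by
  have h1 : HasFDerivAt (fderiv ℝ g) (fderiv ℝ (fderiv ℝ g) x) x := (diffAt_fderiv_gen hg).hasFDerivAt
  have h2 := h1.clm_apply (hasFDerivAt_const (1:ℝ) x)
  have h3 : (fun y => fderiv ℝ g y 1) = deriv g := by
    funext y
    exact fderiv_apply_one_eq_deriv
  rw [h3] at h2
  have h4 := h2.fderiv
  have h5 : fderiv ℝ (deriv g) x s = deriv (deriv g) x * s := fderiv_real _ _ _
  rw [h4] at h5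
  simp only [add_apply, ContinuousLinearMap.comp_apply, ContinuousLinearMap.flip_apply,
    zero_apply, map_zero, zero_add] at h5
  have h6 : t = t • (1:ℝ) := by simp
  conv_lhs => rw [h6, map_smul, smul_eq_mul, h5]
  ring

theorem comp1_gen (g : ℝ → ℝ) (a : E → ℝ) (z : E)
    (hg : ContDiffAt ℝ 2 g (a z)) (ha : ContDiffAt ℝ 2 a z) (v w : E) :
    fderiv ℝ (fderiv ℝ (fun y => g (a y))) z v w = deriv g (a z) * fderiv ℝ (fderiv ℝ a) z v w +
      deriv (deriv g) (a z) * (fderiv ℝ a z v * fderiv ℝ a z w) := by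
  rw [snd_comp_gen hg ha, snd_real hg, fderiv_real]
  ring

end genaux

theorem hess_comp1 (g : ℝ → ℝ) (a : C2 → ℝ) (z : C2) (hg : ContDiffAt ℝ 2 g (a z))
    (ha : ContDiffAt ℝ 2 a z) (v w : C2) :
    hess (fun z => g (a z)) z v w = deriv g (a z) * hess a z v w +
      deriv (deriv g) (a z) * (fderiv ℝ a z v * fderiv ℝ a z w) :=
  comp1_gen g a z hg ha v w

theorem hess_comp2 (g : ℝ × ℝ → ℝ) (a b : C2 → ℝ) (z : C2)
    (hg : ContDiffAt ℝ 2 g (a z, b z)) (ha : ContDiffAt ℝ 2 a z) (hb : ContDiffAt ℝ 2 b z)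
    (v w : C2) :
    hess (fun z => g (a z, b z)) z v w =
      fderiv ℝ g (a z, b z) (1, 0) * hess a z v w + fderiv ℝ g (a z, b z) (0, 1) * hess b z v w +
      hessR g (a z, b z) (fderiv ℝ a z v, fderiv ℝ b z v) (fderiv ℝ a z w, fderiv ℝ b z w) :=
  comp2_gen g a b z hg ha hb v w

theorem levi_comp1 (g : ℝ → ℝ) (a : C2 → ℝ) (z : C2) (hg : ContDiffAt ℝ 2 g (a z))
    (ha : ContDiffAt ℝ 2 a z) (w : C2) :
    levi (fun z => g (a z)) z w = deriv g (a z) * levi a z w +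
      deriv (deriv g) (a z) * ((fderiv ℝ a z w) ^ 2 + (fderiv ℝ a z (Complex.I • w)) ^ 2) / 4 := by
  unfold levi
  rw [hess_comp1 g a z hg ha, hess_comp1 g a z hg ha]
  ring

theorem levi_comp2 (g : ℝ × ℝ → ℝ) (a b : C2 → ℝ) (z : C2)
    (hg : ContDiffAt ℝ 2 g (a z, b z)) (ha : ContDiffAt ℝ 2 a z) (hb : ContDiffAt ℝ 2 b z)
    (w : C2) :
    levi (fun z => g (a z, b z)) z w =
      fderiv ℝ g (a z, b z) (1, 0) * levi a z w + fderiv ℝ g (a z, b z) (0, 1) * levi b z w +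
      (hessR g (a z, b z) (fderiv ℝ a z w, fderiv ℝ b z w) (fderiv ℝ a z w, fderiv ℝ b z w) +
        hessR g (a z, b z) (fderiv ℝ a z (Complex.I • w), fderiv ℝ b z (Complex.I • w))
          (fderiv ℝ a z (Complex.I • w), fderiv ℝ b z (Complex.I • w))) / 4 := by
  unfold levi
  rw [hess_comp2 g a b z hg ha hb, hess_comp2 g a b z hg ha hb]
  ring

/-- real version -/
theorem hessR_comp2 (g : ℝ × ℝ → ℝ) (a b : ℝ × ℝ → ℝ) (x : ℝ × ℝ)
    (hg : ContDiffAt ℝ 2 g (a x, b x)) (ha : ContDiffAt ℝ 2 a x) (hb : ContDiffAt ℝ 2 b x)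
    (v w : ℝ × ℝ) :
    hessR (fun x => g (a x, b x)) x v w =
      fderiv ℝ g (a x, b x) (1, 0) * hessR a x v w +
      fderiv ℝ g (a x, b x) (0, 1) * hessR b x v w +
      hessR g (a x, b x) (fderiv ℝ a x v, fderiv ℝ b x v) (fderiv ℝ a x w, fderiv ℝ b x w) :=
  comp2_gen g a b x hg ha hb v w

/-- the function `(a, b) ↦ a - √(1 + a - b)` on `b ≤ a` -/
theorem q_contDiffAt (p : ℝ × ℝ) (hp : p.2 ≤ p.1) :
    ContDiffAt ℝ ∞ (fun p : ℝ × ℝ => p.1 - Real.sqrt (1 + p.1 - p.2)) p := by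
  apply ContDiffAt.sub contDiffAt_fst
  apply ContDiffAt.sqrt
  · exact (contDiffAt_const.add contDiffAt_fst).sub contDiffAt_snd
  · have : 0 < 1 + p.1 - p.2 := by linarith
    exact this.ne'

theorem q_hasFDerivAt (p : ℝ × ℝ) (hp : 0 < 1 + p.1 - p.2) :
    HasFDerivAt (fun p : ℝ × ℝ => p.1 - Real.sqrt (1 + p.1 - p.2))
      (ContinuousLinearMap.fst ℝ ℝ ℝ - (1 / (2 * Real.sqrt (1 + p.1 - p.2))) •
        (ContinuousLinearMap.fst ℝ ℝ ℝ - ContinuousLinearMap.snd ℝ ℝ ℝ)) p := by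
  have h1 : HasFDerivAt (fun p : ℝ × ℝ => 1 + p.1 - p.2)
      (ContinuousLinearMap.fst ℝ ℝ ℝ - ContinuousLinearMap.snd ℝ ℝ ℝ) p :=
    (hasFDerivAt_fst.const_add 1).sub hasFDerivAt_snd
  exact hasFDerivAt_fst.sub (h1.sqrt hp.ne')

theorem q_fderiv_1 (p : ℝ × ℝ) (hp : p.2 ≤ p.1) :
    fderiv ℝ (fun p : ℝ × ℝ => p.1 - Real.sqrt (1 + p.1 - p.2)) p (1, 0) =
      1 - 1 / (2 * Real.sqrt (1 + p.1 - p.2)) := by
  rw [(q_hasFDerivAt p (by linarith)).fderiv]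
  simp

theorem q_fderiv_2 (p : ℝ × ℝ) (hp : p.2 ≤ p.1) :
    fderiv ℝ (fun p : ℝ × ℝ => p.1 - Real.sqrt (1 + p.1 - p.2)) p (0, 1) =
      1 / (2 * Real.sqrt (1 + p.1 - p.2)) := by
  rw [(q_hasFDerivAt p (by linarith)).fderiv]
  simp

theorem q_hess_nonneg (p : ℝ × ℝ) (hp : p.2 ≤ p.1) (ξ : ℝ × ℝ) :
    0 ≤ hessR (fun p : ℝ × ℝ => p.1 - Real.sqrt (1 + p.1 - p.2)) p ξ ξ := by
  unfold hessR
  have hs : 0 < 1 + p.1 - p.2 := by linarith
  set M : ℝ × ℝ →L[ℝ] ℝ := ContinuousLinearMap.fst ℝ ℝ ℝ - ContinuousLinearMap.snd ℝ ℝ ℝ with hM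
  have hcont : Continuous (fun p : ℝ × ℝ => 1 + p.1 - p.2) := by fun_prop
  have h1 : fderiv ℝ (fun p : ℝ × ℝ => p.1 - Real.sqrt (1 + p.1 - p.2)) =ᶠ[𝓝 p]
      fun p => ContinuousLinearMap.fst ℝ ℝ ℝ - (1 / (2 * Real.sqrt (1 + p.1 - p.2))) • M := by
    filter_upwards [hcont.continuousAt.eventually (lt_mem_nhds hs)] with y hy
    exact (q_hasFDerivAt y hy).fderiv
  rw [h1.fderiv_eq]
  have h2 : HasFDerivAt (fun p : ℝ × ℝ => 1 + p.1 - p.2) M p :=
    (hasFDerivAt_fst.const_add 1).sub hasFDerivAt_snd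
  set s : ℝ := 1 + p.1 - p.2 with hsdef
  have hsq : 0 < Real.sqrt s := Real.sqrt_pos.mpr hs
  have h3 : HasDerivAt (fun t : ℝ => 1 / (2 * Real.sqrt t)) (-(1 / (4 * (s * Real.sqrt s)))) s := by
    have e1 := ((Real.hasDerivAt_sqrt hs.ne').const_mul 2).inv (by positivity)
    have e2 : (fun t : ℝ => 1 / (2 * Real.sqrt t)) = (fun t : ℝ => 2 * Real.sqrt t)⁻¹ := by
      funext t
      simp [one_div]
    rw [e2]
    convert! e1 using 1
    have e3 : Real.sqrt s ^ 2 = s := Real.sq_sqrt hs.le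
    have e4 : (2 * Real.sqrt s) ^ 2 = 4 * s := by rw [mul_pow, e3]; norm_num
    rw [e4]
    field_simp
  have h4 : HasFDerivAt (fun p : ℝ × ℝ => 1 / (2 * Real.sqrt (1 + p.1 - p.2)))
      ((-(1 / (4 * (s * Real.sqrt s)))) • M) p := by
    have e1 : HasFDerivAt ((fun t : ℝ => 1 / (2 * Real.sqrt t)) ∘ (fun p : ℝ × ℝ => 1 + p.1 - p.2))
        ((-(1 / (4 * (s * Real.sqrt s)))) • M) p := HasDerivAt.comp_hasFDerivAt p h3 h2
    exact e1
  have h5 : HasFDerivAt (fun p : ℝ × ℝ => ContinuousLinearMap.fst ℝ ℝ ℝ -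
      (1 / (2 * Real.sqrt (1 + p.1 - p.2))) • M) (-(((-(1 / (4 * (s * Real.sqrt s)))) • M).smulRight M)) p := by
    have e1 := (hasFDerivAt_const (ContinuousLinearMap.fst ℝ ℝ ℝ) p).sub (h4.smul_const M)
    rw [zero_sub] at e1
    exact e1
  rw [h5.fderiv]
  have h6 : (-(((-(1 / (4 * (s * Real.sqrt s)))) • M).smulRight M)) ξ ξ = (1 / (4 * (s * Real.sqrt s))) * (M ξ) ^ 2 := by
    simp only [neg_apply, ContinuousLinearMap.smulRight_apply,
      smul_apply, smul_eq_mul]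
    ring
  rw [h6]
  positivity

end Pool.Agent.H314.MA
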