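import Mathlib

set_option autoImplicit false

open Set Filter Topology MeasureTheory
open scoped ContDiff ComplexConjugate

namespace Pool.Agent.H314.MA

/-- The affine chart `ℂ²` of the complex projective plane. -/
abbrev C2 : Type := ℂ × ℂ

/-- Second derivative `D²u(z)(v,w)` (real second derivative of a function on `ℂ² = ℝ⁴`). -/
noncomputable def hess (u : C2 → ℝ) (z v w : C2) : ℝ := fderiv ℝ (fderiv ℝ u) z v w

/-- `∂²u/∂z₁∂z̄₁` -/
noncomputable def h11 (u : C2 → ℝ) (z : C2) : ℝ :=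
  (hess u z (1, 0) (1, 0) + hess u z (Complex.I, 0) (Complex.I, 0)) / 4

/-- `∂²u/∂z₂∂z̄₂` -/
noncomputable def h22 (u : C2 → ℝ) (z : C2) : ℝ :=
  (hess u z (0, 1) (0, 1) + hess u z (0, Complex.I) (0, Complex.I)) / 4

/-- real part of `∂²u/∂z₁∂z̄₂` -/
noncomputable def h12re (u : C2 → ℝ) (z : C2) : ℝ :=
  (hess u z (1, 0) (0, 1) + hess u z (Complex.I, 0) (0, Complex.I)) / 4

/-- imaginary part of `∂²u/∂z₁∂z̄₂` -/
noncomputable def h12im (u : C2 → ℝ) (z : C2) : ℝ :=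
  (hess u z (1, 0) (0, Complex.I) - hess u z (Complex.I, 0) (0, 1)) / 4

/-- Density of `(dd^c u)²` with respect to Lebesgue measure, for `dd^c = (i/π)∂∂̄`:
`(8/π²) det(∂²u/∂z_j∂z̄_k)`. -/
noncomputable def maDensity (u : C2 → ℝ) (z : C2) : ℝ :=
  8 / Real.pi ^ 2 * (h11 u z * h22 u z - h12re u z ^ 2 - h12im u z ^ 2)

/-- The Levi form `∑ u_{j k̄} w_j w̄_k = (D²u(w,w) + D²u(iw,iw))/4`. -/
noncomputable def levi (u : C2 → ℝ) (z w : C2) : ℝ :=
  (hess u z w w + hess u z (Complex.I • w) (Complex.I • w)) / 4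

/-- Smooth plurisubharmonic functions on `ℂ²`. -/
def SmoothPsh (u : C2 → ℝ) : Prop := ContDiff ℝ ∞ u ∧ ∀ z w, 0 ≤ levi u z w

/-- `v` is a decreasing sequence of smooth plurisubharmonic functions on `ℂ²` with limit `u`. -/
def DecreasesTo (v : ℕ → C2 → ℝ) (u : C2 → ℝ) : Prop :=
  (∀ k, SmoothPsh (v k)) ∧ (∀ k z, v (k + 1) z ≤ v k z) ∧
    ∀ z, Tendsto (fun k => v k z) atTop (𝓝 (u z))

/-- `μ` is the Bedford-Taylor measure `(dd^c u)²` on `ℂ²`. -/
structure IsMongeAmpere (u : C2 → ℝ) (μ : Measure C2) : Prop where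
  finite_on_compacts : ∀ K : Set C2, IsCompact K → μ K < ⊤
  exists_approx : ∃ v : ℕ → C2 → ℝ, DecreasesTo v u
  weak_limit : ∀ v : ℕ → C2 → ℝ, DecreasesTo v u →
    ∀ χ : C2 → ℝ, ContDiff ℝ ∞ χ → HasCompactSupport χ →
      Tendsto (fun k => ∫ z, χ z * maDensity (v k) z) atTop (𝓝 (∫ z, χ z ∂μ))

/-- Potential of the Fubini-Study form `ω` in the affine chart. -/
noncomputable def pot (z : C2) : ℝ := 1 / 2 * Real.log (1 + ‖z.1‖ ^ 2 + ‖z.2‖ ^ 2)

/-- The mixed form of the determinant. -/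
noncomputable def mixed (u v : C2 → ℝ) (z : C2) : ℝ :=
  h11 u z * h22 v z + h22 u z * h11 v z - 2 * (h12re u z * h12re v z + h12im u z * h12im v z)

/-- Smooth and plurisubharmonic on an open set. -/
def PshOn (O : Set C2) (u : C2 → ℝ) : Prop :=
  ∀ z ∈ O, ContDiffAt ℝ ∞ u z ∧ ∀ w, 0 ≤ levi u z w

/-! ### The concrete functions -/

/-- a smooth convex function vanishing on `(-∞, 0]` -/
noncomputable def chi (t : ℝ) : ℝ := t * expNegInvGlue t

/-- Pogorelov type function with a singularity along `z₁ = 0` -/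
noncomputable def u1 (z : C2) : ℝ := 1 / 4 * Real.arsinh (‖z.1‖ * (1 + ‖z.2‖ ^ 2))

/-- its smooth approximations -/
noncomputable def u1e (ε : ℝ) (z : C2) : ℝ :=
  1 / 4 * Real.arsinh (Real.sqrt (‖z.1‖ ^ 2 + ε ^ 2) * (1 + ‖z.2‖ ^ 2))

/-- a function of full mass, equal to `-∞` along `z₁ = 0` (used only for `z₁ ≠ 0`) -/
noncomputable def u2 (z : C2) : ℝ := pot z - Real.sqrt (1 + pot z - Real.log ‖z.1‖)

/-- the potential `U` -/
noncomputable def U (z : C2) : ℝ := if z.1 = 0 then 0 else u1 z + chi (u2 z - u1 z)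

/-- smooth approximations of `U` -/
noncomputable def Ue (ε : ℝ) (z : C2) : ℝ :=
  if z.1 = 0 then u1e ε z else u1e ε z + chi (u2 z - u1e ε z)

/-- smooth maximum -/
noncomputable def smax (ε a b : ℝ) : ℝ := (a + b + Real.sqrt ((a - b) ^ 2 + ε ^ 2)) / 2

/-- the truncated potentials `max(φ, -j) + pot = max(U, pot - j)` -/
noncomputable def V (j : ℝ) (z : C2) : ℝ := max (U z) (pot z - j)

/-- their smooth approximations -/
noncomputable def Ve (j ε : ℝ) (z : C2) : ℝ := smax ε (Ue ε z) (pot z - j)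

/-- The density of the Monge-Ampere measure of `U`. -/
noncomputable def dens (z : C2) : ℝ :=
  if z.1 = 0 then 1 / (8 * Real.pi ^ 2) else maDensity U z

/-! ### Real functions in logarithmic coordinates -/

noncomputable def hessR (f : ℝ × ℝ → ℝ) (x v w : ℝ × ℝ) : ℝ := fderiv ℝ (fderiv ℝ f) x v w

noncomputable def detR (f : ℝ × ℝ → ℝ) (x : ℝ × ℝ) : ℝ :=
  hessR f x (1, 0) (1, 0) * hessR f x (0, 1) (0, 1) - hessR f x (1, 0) (0, 1) ^ 2

noncomputable def rho (x : ℝ × ℝ) : ℝ :=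
  1 / 2 * Real.log (1 + Real.exp (2 * x.1) + Real.exp (2 * x.2))

noncomputable def r1 (x : ℝ × ℝ) : ℝ :=
  1 / 4 * Real.arsinh (Real.exp x.1 * (1 + Real.exp (2 * x.2)))

noncomputable def r2 (x : ℝ × ℝ) : ℝ := rho x - Real.sqrt (1 + rho x - x.1)

noncomputable def R (x : ℝ × ℝ) : ℝ := r1 x + chi (r2 x - r1 x)

end Pool.Agent.H314.MA
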