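import Pool.Agent.H314.MA.UU

set_option autoImplicit false
open Set Filter Topology MeasureTheory
open scoped ContDiff ComplexConjugate

namespace Pool.Agent.H314.MA

theorem h_of_levi_1 (α : C2 → ℝ) (z : C2) (hα : ContDiffAt ℝ 2 α z) (A : ℝ)
    (hA : ∀ w, levi α z w = A * ‖w.1‖ ^ 2) :
    h11 α z = A ∧ h22 α z = 0 ∧ h12re α z = 0 ∧ h12im α z = 0 := by
  have e := fun a b => (levi_eq α z hα a b).symm.trans (hA (a, b))
  have e1 := e 1 0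
  have e2 := e 0 1
  have e3 := e 1 1
  have e4 := e 1 Complex.I
  simp at e1 e2 e3 e4
  refine ⟨e1, e2, ?_, ?_⟩
  · linarith
  · linarith

theorem h_of_levi_2 (α : C2 → ℝ) (z : C2) (hα : ContDiffAt ℝ 2 α z) (A : ℝ)
    (hA : ∀ w, levi α z w = A * ‖w.2‖ ^ 2) :
    h11 α z = 0 ∧ h22 α z = A ∧ h12re α z = 0 ∧ h12im α z = 0 := by
  have e := fun a b => (levi_eq α z hα a b).symm.trans (hA (a, b))
  have e1 := e 1 0
  have e2 := e 0 1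
  have e3 := e 1 1
  have e4 := e 1 Complex.I
  simp at e1 e2 e3 e4
  refine ⟨e1, e2, ?_, ?_⟩
  · linarith
  · linarith

/-- Monge-Ampere density of `gg(α(z₁) + log(1+|z₂|²))`. -/
theorem maDensity_gg (α : C2 → ℝ) (z : C2) (hα : ContDiffAt ℝ 2 α z) (A s : ℝ)
    (hA : ∀ w, levi α z w = A * ‖w.1‖ ^ 2)
    (hd : ∀ v, fderiv ℝ α z v = (z.1.re * v.1.re + z.1.im * v.1.im) / s) :
    maDensity (fun z => gg (α z + fm z)) z = 8 / Real.pi ^ 2 *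
      (deriv gg (α z + fm z) ^ 2 * A * (1 / (1 + ‖z.2‖ ^ 2) ^ 2) +
        deriv gg (α z + fm z) * deriv (deriv gg) (α z + fm z) *
          (A * (‖z.2‖ ^ 2 / (1 + ‖z.2‖ ^ 2) ^ 2) +
            1 / (1 + ‖z.2‖ ^ 2) ^ 2 * (‖z.1‖ ^ 2 / (4 * s ^ 2)))) := by
  have hfm : ContDiffAt ℝ 2 fm z := fm_contDiff.contDiffAt.of_le (by norm_cast)
  have hs : ContDiffAt ℝ 2 (fun z => α z + fm z) z := hα.add hfm
  have hgg : ContDiffAt ℝ 2 gg (α z + fm z) := gg_contDiff.contDiffAt.of_le (by norm_cast)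
  have hcomp := fun v w => hess_comp1 gg (fun z => α z + fm z) z hgg hs v w
  have hadd : ∀ v : C2, fderiv ℝ (fun z => α z + fm z) z v = fderiv ℝ α z v + fderiv ℝ fm z v := by
    intro v
    have := fderiv_fun_add (hα.differentiableAt (by norm_num)) (hfm.differentiableAt (by norm_num))
    rw [this]; rfl
  have f2 : ∀ v : C2, fderiv ℝ fm z v = 2 * (z.2.re * v.2.re + z.2.im * v.2.im) / (1 + ‖z.2‖ ^ 2) :=
    fun v => fderiv_m z v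
  have hhess : ∀ v w, hess (fun z => α z + fm z) z v w = hess α z v w + hess fm z v w :=
    fun v w => hess_add α fm z hα hfm v w
  obtain ⟨a1, a2, a3, a4⟩ := h_of_levi_1 α z hα A hA
  obtain ⟨b1, b2, b3, b4⟩ := h_of_levi_2 fm z hfm (1 / (1 + ‖z.2‖ ^ 2) ^ 2) (by
    intro w
    have h : levi fm z w = ‖w.2‖ ^ 2 / (1 + ‖z.2‖ ^ 2) ^ 2 := levi_m z w
    rw [h]; ring)
  have hz1 : ‖z.1‖ ^ 2 = z.1.re ^ 2 + z.1.im ^ 2 := by
    rw [← Complex.normSq_eq_norm_sq, Complex.normSq_apply]; ring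
  have hz2 : ‖z.2‖ ^ 2 = z.2.re ^ 2 + z.2.im ^ 2 := by
    rw [← Complex.normSq_eq_norm_sq, Complex.normSq_apply]; ring
  set D1 := deriv gg (α z + fm z) with hD1
  set D2 := deriv (deriv gg) (α z + fm z) with hD2
  set b := 1 + ‖z.2‖ ^ 2 with hb
  have k11 : h11 (fun z => gg (α z + fm z)) z = D1 * A + D2 * (‖z.1‖ ^ 2 / (4 * s ^ 2)) := by
    have : h11 (fun z => gg (α z + fm z)) z = D1 * (h11 α z + h11 fm z) +
        D2 * (‖z.1‖ ^ 2 / (4 * s ^ 2)) := by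
      unfold h11
      rw [hcomp, hcomp, hhess, hhess, hadd, hadd, hd, hd, f2, f2, hz1]
      simp
      ring
    rw [this, a1, b1, add_zero]
  have k22 : h22 (fun z => gg (α z + fm z)) z = D1 * (1 / b ^ 2) + D2 * (‖z.2‖ ^ 2 / b ^ 2) := by
    have : h22 (fun z => gg (α z + fm z)) z = D1 * (h22 α z + h22 fm z) +
        D2 * (‖z.2‖ ^ 2 / b ^ 2) := by
      unfold h22
      rw [hcomp, hcomp, hhess, hhess, hadd, hadd, hd, hd, f2, f2]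
      have : ‖z.2‖ ^ 2 / b ^ 2 = (z.2.re ^ 2 + z.2.im ^ 2) / b ^ 2 := by rw [hz2]
      rw [this]
      simp
      ring
    rw [this, a2, b2, zero_add]
  have k12r : h12re (fun z => gg (α z + fm z)) z =
      D2 * ((z.1.re * z.2.re + z.1.im * z.2.im) / (2 * s * b)) := by
    have : h12re (fun z => gg (α z + fm z)) z = D1 * (h12re α z + h12re fm z) +
        D2 * ((z.1.re * z.2.re + z.1.im * z.2.im) / (2 * s * b)) := by
      unfold h12re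
      rw [hcomp, hcomp, hhess, hhess, hadd, hadd, hadd, hadd, hd, hd, hd, hd, f2, f2, f2, f2]
      simp
      ring
    rw [this, a3, b3]; ring
  have k12i : h12im (fun z => gg (α z + fm z)) z =
      D2 * ((z.1.re * z.2.im - z.1.im * z.2.re) / (2 * s * b)) := by
    have : h12im (fun z => gg (α z + fm z)) z = D1 * (h12im α z + h12im fm z) +
        D2 * ((z.1.re * z.2.im - z.1.im * z.2.re) / (2 * s * b)) := by
      unfold h12im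
      rw [hcomp, hcomp, hhess, hhess, hadd, hadd, hadd, hadd, hd, hd, hd, hd, f2, f2, f2, f2]
      simp
      ring
    rw [this, a4, b4]; ring
  unfold maDensity
  rw [k11, k22, k12r, k12i]
  have hbn : b ≠ 0 := (one_add_sq_pos z.2).ne'
  rw [hz1]
  have hz2' : ‖z.2‖ ^ 2 = z.2.re ^ 2 + z.2.im ^ 2 := hz2
  rw [hz2']
  by_cases hs0 : s = 0
  · subst hs0; simp; ring
  · field_simp
    ring

theorem exp_gg {ε : ℝ} (hε : 0 < ε) (z : C2) :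
    Real.exp (fle ε z + fm z) ^ 2 = (‖z.1‖ ^ 2 + ε ^ 2) * (1 + ‖z.2‖ ^ 2) ^ 2 := by
  unfold fle fm
  rw [Real.exp_add, Real.exp_log (one_add_sq_pos _), mul_pow, ← Real.exp_nat_mul]
  have : ((2 : ℕ) : ℝ) * (1 / 2 * Real.log (‖z.1‖ ^ 2 + ε ^ 2)) = Real.log (‖z.1‖ ^ 2 + ε ^ 2) := by
    push_cast; ring
  rw [this, Real.exp_log (sq_add_pos _ hε)]

theorem gg_prod (y : ℝ) :
    deriv gg y ^ 2 = 1 / 16 * (Real.exp y ^ 2 / (1 + Real.exp y ^ 2)) ∧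
      deriv gg y * deriv (deriv gg) y = 1 / 16 * (Real.exp y ^ 2 / (1 + Real.exp y ^ 2) ^ 2) := by
  have h1 : deriv gg y = _ := g_deriv y
  have h2 : deriv (deriv gg) y = _ := g_deriv2 y
  rw [h1, h2]
  have hs : Real.sqrt (1 + Real.exp y ^ 2) ^ 2 = 1 + Real.exp y ^ 2 := Real.sq_sqrt (by positivity)
  have hp : 0 < Real.sqrt (1 + Real.exp y ^ 2) := Real.sqrt_pos.mpr (by positivity)
  set t := Real.sqrt (1 + Real.exp y ^ 2) with ht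
  constructor
  · rw [← hs]; field_simp; norm_num
  · rw [← hs]; field_simp; norm_num

/-- density of the regularised functions -/
theorem maDensity_u1e {ε : ℝ} (hε : 0 < ε) (z : C2) :
    maDensity (u1e ε) z = 1 / (2 * Real.pi ^ 2) *
      (ε ^ 2 / (2 * (‖z.1‖ ^ 2 + ε ^ 2) * (1 + (‖z.1‖ ^ 2 + ε ^ 2) * (1 + ‖z.2‖ ^ 2) ^ 2)) +
        (ε ^ 2 * ‖z.2‖ ^ 2 / (2 * (‖z.1‖ ^ 2 + ε ^ 2)) + ‖z.1‖ ^ 2 / (4 * (‖z.1‖ ^ 2 + ε ^ 2))) /
          (1 + (‖z.1‖ ^ 2 + ε ^ 2) * (1 + ‖z.2‖ ^ 2) ^ 2) ^ 2) := by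
  rw [u1e_eq ε hε]
  have hs := sq_add_pos z.1 hε
  rw [maDensity_gg (fle ε) z ((fle_contDiff ε hε).contDiffAt.of_le (by norm_cast))
    (ε ^ 2 / (2 * (‖z.1‖ ^ 2 + ε ^ 2) ^ 2)) (‖z.1‖ ^ 2 + ε ^ 2) (by
      intro w
      have h : levi (fle ε) z w = _ := levi_lg ε hε z w
      rw [h]; ring) (fun v => fderiv_lg ε hε z v)]
  obtain ⟨p1, p2⟩ := gg_prod (fle ε z + fm z)
  rw [p1, p2, exp_gg hε]
  have hb := one_add_sq_pos z.2
  set s := ‖z.1‖ ^ 2 + ε ^ 2 with hs'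
  set b := 1 + ‖z.2‖ ^ 2 with hb'
  have hE : 0 < 1 + s * b ^ 2 := by positivity
  field_simp
  ring

/-- the limit density -/
noncomputable def F1 (z : C2) : ℝ := 1 / (8 * Real.pi ^ 2 * (1 + ‖z.1‖ ^ 2 * (1 + ‖z.2‖ ^ 2) ^ 2) ^ 2)

theorem maDensity_u1 (z : C2) (hz : z.1 ≠ 0) : maDensity u1 z = F1 z := by
  rw [maDensity_congr (u1_eventually z hz)]
  have hn : 0 < ‖z.1‖ := norm_pos_iff.mpr hz
  rw [maDensity_gg fl z ((fl_contDiffAt z hz).of_le (by norm_cast)) 0 (‖z.1‖ ^ 2) (by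
      intro w
      have h : levi fl z w = _ := levi_l1 z w hz
      rw [h]; ring) (fun v => fderiv_l1 z v hz)]
  obtain ⟨p1, p2⟩ := gg_prod (fl z + fm z)
  rw [p1, p2]
  have e : Real.exp (fl z + fm z) ^ 2 = ‖z.1‖ ^ 2 * (1 + ‖z.2‖ ^ 2) ^ 2 := by
    unfold fl fm
    rw [Real.exp_add, Real.exp_log (one_add_sq_pos _), Real.exp_log hn, mul_pow]
  rw [e]
  unfold F1
  have hb := one_add_sq_pos z.2
  set b := 1 + ‖z.2‖ ^ 2 with hb'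
  have hE : 0 < 1 + ‖z.1‖ ^ 2 * b ^ 2 := by positivity
  field_simp
  ring

theorem maDensity_u1e_bound {ε : ℝ} (hε : 0 < ε) (z : C2) :
    |maDensity (u1e ε) z| ≤ 1 + ‖z.2‖ ^ 2 := by
  rw [maDensity_u1e hε]
  have hs := sq_add_pos z.1 hε
  have hb := one_add_sq_pos z.2
  have hz1 : 0 ≤ ‖z.1‖ ^ 2 := by positivity
  have hz2 : 0 ≤ ‖z.2‖ ^ 2 := by positivity
  set s := ‖z.1‖ ^ 2 + ε ^ 2 with hs'
  have hE : 1 ≤ 1 + s * (1 + ‖z.2‖ ^ 2) ^ 2 := by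
    have : 0 ≤ s * (1 + ‖z.2‖ ^ 2) ^ 2 := by positivity
    linarith
  set E := 1 + s * (1 + ‖z.2‖ ^ 2) ^ 2 with hE'
  have hes : ε ^ 2 ≤ s := by rw [hs']; linarith
  have hzs : ‖z.1‖ ^ 2 ≤ s := by rw [hs']; nlinarith
  have t1 : ε ^ 2 / (2 * s * E) ≤ 1 := by
    rw [div_le_one (by positivity)]; nlinarith
  have t2 : (ε ^ 2 * ‖z.2‖ ^ 2 / (2 * s) + ‖z.1‖ ^ 2 / (4 * s)) / E ^ 2 ≤ ‖z.2‖ ^ 2 + 1 := by
    have h1 : ε ^ 2 * ‖z.2‖ ^ 2 / (2 * s) ≤ ‖z.2‖ ^ 2 := by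
      rw [div_le_iff₀ (by positivity)]; nlinarith
    have h2 : ‖z.1‖ ^ 2 / (4 * s) ≤ 1 := by
      rw [div_le_one (by positivity)]; nlinarith
    have h3 : 1 ≤ E ^ 2 := by nlinarith
    rw [div_le_iff₀ (by positivity)]
    calc ε ^ 2 * ‖z.2‖ ^ 2 / (2 * s) + ‖z.1‖ ^ 2 / (4 * s) ≤ ‖z.2‖ ^ 2 + 1 := by linarith
      _ = (‖z.2‖ ^ 2 + 1) * 1 := by ring
      _ ≤ _ := mul_le_mul_of_nonneg_left h3 (by positivity)
  have t1' : 0 ≤ ε ^ 2 / (2 * s * E) := by positivity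
  have t2' : 0 ≤ (ε ^ 2 * ‖z.2‖ ^ 2 / (2 * s) + ‖z.1‖ ^ 2 / (4 * s)) / E ^ 2 := by positivity
  have hpi : 1 / (2 * Real.pi ^ 2) ≤ 1 / 2 := by
    apply one_div_le_one_div_of_le (by norm_num)
    have := Real.pi_gt_three
    nlinarith
  have hpi' : 0 < 1 / (2 * Real.pi ^ 2) := by positivity
  rw [abs_of_nonneg (by positivity)]
  calc _ ≤ 1 / 2 * (ε ^ 2 / (2 * s * E) + (ε ^ 2 * ‖z.2‖ ^ 2 / (2 * s) + ‖z.1‖ ^ 2 / (4 * s)) / E ^ 2) :=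
        mul_le_mul_of_nonneg_right hpi (by positivity)
    _ ≤ 1 + ‖z.2‖ ^ 2 := by linarith

theorem maDensity_u1e_tendsto (z : C2) (hz : z.1 ≠ 0) :
    Tendsto (fun k : ℕ => maDensity (u1e (1 / ((k : ℝ) + 1))) z) atTop (𝓝 (F1 z)) := by
  have hn : 0 < ‖z.1‖ := norm_pos_iff.mpr hz
  have hε : Tendsto (fun k : ℕ => (1 / ((k : ℝ) + 1))) atTop (𝓝 0) :=
    tendsto_one_div_add_atTop_nhds_zero_nat
  have hcont : ContinuousAt (fun ε : ℝ => 1 / (2 * Real.pi ^ 2) *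
      (ε ^ 2 / (2 * (‖z.1‖ ^ 2 + ε ^ 2) * (1 + (‖z.1‖ ^ 2 + ε ^ 2) * (1 + ‖z.2‖ ^ 2) ^ 2)) +
        (ε ^ 2 * ‖z.2‖ ^ 2 / (2 * (‖z.1‖ ^ 2 + ε ^ 2)) + ‖z.1‖ ^ 2 / (4 * (‖z.1‖ ^ 2 + ε ^ 2))) /
          (1 + (‖z.1‖ ^ 2 + ε ^ 2) * (1 + ‖z.2‖ ^ 2) ^ 2) ^ 2)) 0 := by
    have h1 : (2 : ℝ) * (‖z.1‖ ^ 2 + 0 ^ 2) * (1 + (‖z.1‖ ^ 2 + 0 ^ 2) * (1 + ‖z.2‖ ^ 2) ^ 2) ≠ 0 := by
      positivity
    have h2 : (2 : ℝ) * (‖z.1‖ ^ 2 + 0 ^ 2) ≠ 0 := by positivity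
    have h3 : (4 : ℝ) * (‖z.1‖ ^ 2 + 0 ^ 2) ≠ 0 := by positivity
    have h4 : (1 + (‖z.1‖ ^ 2 + (0 : ℝ) ^ 2) * (1 + ‖z.2‖ ^ 2) ^ 2) ^ 2 ≠ 0 := by positivity
    fun_prop (disch := assumption)
  have h := hcont.tendsto.comp hε
  have hval : 1 / (2 * Real.pi ^ 2) *
      ((0 : ℝ) ^ 2 / (2 * (‖z.1‖ ^ 2 + 0 ^ 2) * (1 + (‖z.1‖ ^ 2 + 0 ^ 2) * (1 + ‖z.2‖ ^ 2) ^ 2)) +
        (0 ^ 2 * ‖z.2‖ ^ 2 / (2 * (‖z.1‖ ^ 2 + 0 ^ 2)) + ‖z.1‖ ^ 2 / (4 * (‖z.1‖ ^ 2 + 0 ^ 2))) /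
          (1 + (‖z.1‖ ^ 2 + 0 ^ 2) * (1 + ‖z.2‖ ^ 2) ^ 2) ^ 2) = F1 z := by
    unfold F1
    have hE : 0 < 1 + ‖z.1‖ ^ 2 * (1 + ‖z.2‖ ^ 2) ^ 2 := by positivity
    simp only [ne_eq, OfNat.ofNat_ne_zero, not_false_eq_true, zero_pow, add_zero, zero_div,
      zero_mul, zero_add]
    field_simp
    ring
  rw [hval] at h
  refine h.congr fun k => ?_
  have hk : 0 < 1 / ((k : ℝ) + 1) := by positivity
  simp only [Function.comp]
  rw [maDensity_u1e hk]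

theorem ae_ne : ∀ᵐ z : C2, z.1 ≠ 0 := by
  have h : (volume : Measure C2) {z | z.1 = 0} = 0 := by
    have e : {z : C2 | z.1 = 0} = ({0} : Set ℂ) ×ˢ (univ : Set ℂ) := by ext z; simp
    rw [e, Measure.volume_eq_prod, Measure.prod_prod]
    simp
  exact (ae_iff.mpr (by simpa using h))

theorem F1_continuous : Continuous F1 := by
  unfold F1
  have : ∀ z : C2, 8 * Real.pi ^ 2 * (1 + ‖z.1‖ ^ 2 * (1 + ‖z.2‖ ^ 2) ^ 2) ^ 2 ≠ 0 := by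
    intro z; positivity
  fun_prop (disch := exact this _)

theorem F1_pos (z : C2) : 0 < F1 z := by unfold F1; positivity

/-- convergence of the Monge-Ampere measures of the regularisations -/
theorem u1e_weak (χ : C2 → ℝ) (hχ : ContDiff ℝ ∞ χ) (hc : HasCompactSupport χ) :
    Tendsto (fun k : ℕ => ∫ z, χ z * maDensity (u1e (1 / ((k : ℝ) + 1))) z) atTop
      (𝓝 (∫ z, χ z * F1 z)) := by
  apply tendsto_integral_of_dominated_convergence (fun z => |χ z| * (1 + ‖z.2‖ ^ 2))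
  · intro k
    have hk : 0 < 1 / ((k : ℝ) + 1) := by positivity
    exact (hχ.continuous.mul (continuous_iff_continuousAt.mpr fun z => continuousAt_maDensity _ z
      ((u1e_contDiff _ hk).contDiffAt.of_le (by norm_cast)))).aestronglyMeasurable
  · apply Continuous.integrable_of_hasCompactSupport
    · exact hχ.continuous.abs.mul (by fun_prop)
    · exact hc.abs.mul_right
  · intro k
    apply Eventually.of_forall
    intro z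
    have hk : 0 < 1 / ((k : ℝ) + 1) := by positivity
    rw [Real.norm_eq_abs, abs_mul]
    exact mul_le_mul_of_nonneg_left (maDensity_u1e_bound hk z) (abs_nonneg _)
  · filter_upwards [ae_ne] with z hz
    exact (maDensity_u1e_tendsto z hz).const_mul _

end Pool.Agent.H314.MA
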