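import Mathlib

set_option autoImplicit false
open Set Filter Topology MeasureTheory
open scoped ContDiff

namespace Pool.Agent.H314.MA

/-- smooth cut-off functions -/
theorem exists_cutoff (O L : Set (ℂ × ℂ)) (hO : IsOpen O) (hL : IsCompact L) (hLO : L ⊆ O) :
    ∃ η : ℂ × ℂ → ℝ, ContDiff ℝ ∞ η ∧ HasCompactSupport η ∧ tsupport η ⊆ O ∧
      (∀ z, 0 ≤ η z ∧ η z ≤ 1) ∧ ∀ᶠ z in 𝓝ˢ L, η z = 1 := by
  obtain ⟨K, hK, hLK, hKO⟩ := exists_compact_between hL hO hLO
  obtain ⟨f, hf1, hf0, hfI⟩ := exists_contMDiffMap_one_nhds_of_subset_interior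
    (modelWithCornersSelf ℝ (ℂ × ℂ)) (M := ℂ × ℂ) (n := ⊤) hL.isClosed hLK
  have hts : tsupport (f : ℂ × ℂ → ℝ) ⊆ K := by
    refine closure_minimal ?_ hK.isClosed
    intro x hx
    by_contra h
    exact hx (hf0 x h)
  refine ⟨f, ?_, HasCompactSupport.of_support_subset_isCompact hK (subset_closure.trans hts),
    hts.trans hKO, fun z => ⟨(hfI z).1, (hfI z).2⟩, hf1⟩
  exact f.contMDiff.contDiff

/-- a locally smooth function agrees near a compact set with a globally smooth one -/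
theorem exists_smooth_ext (O L : Set (ℂ × ℂ)) (hO : IsOpen O) (hL : IsCompact L) (hLO : L ⊆ O)
    (u : ℂ × ℂ → ℝ) (hu : ∀ z ∈ O, ContDiffAt ℝ ∞ u z) :
    ∃ v : ℂ × ℂ → ℝ, ContDiff ℝ ∞ v ∧ ∀ᶠ z in 𝓝ˢ L, v z = u z := by
  obtain ⟨η, hη, -, hts, -, h1⟩ := exists_cutoff O L hO hL hLO
  refine ⟨fun z => η z * u z, ?_, ?_⟩
  · rw [contDiff_iff_contDiffAt]
    intro z
    by_cases hz : z ∈ O
    · exact hη.contDiffAt.mul (hu z hz)
    · have hz' : z ∉ tsupport η := fun h => hz (hts h)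
      have : (fun z => η z * u z) =ᶠ[𝓝 z] fun _ => 0 := by
        filter_upwards [(isClosed_tsupport η).isOpen_compl.mem_nhds hz'] with y hy
        rw [image_eq_zero_of_notMem_tsupport hy, zero_mul]
      exact contDiffAt_const.congr_of_eventuallyEq this
  · filter_upwards [h1] with z hz
    rw [hz, one_mul]

end Pool.Agent.H314.MA
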