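import Pool.Agent.H314.MA.Proj
import Pool.Agent.H314.MA.Chi

set_option autoImplicit false
open Set Filter Topology MeasureTheory
open scoped ContDiff

namespace Pool.Agent.H314.MA

theorem nrm_sq_pos (Z : C3) (hZ : Z ≠ 0) : 0 < ‖Z 0‖ ^ 2 + ‖Z 1‖ ^ 2 + ‖Z 2‖ ^ 2 := by
  by_contra hcon
  push Not at hcon
  apply hZ
  have a0 := sq_nonneg ‖Z 0‖
  have a1 := sq_nonneg ‖Z 1‖
  have a2 := sq_nonneg ‖Z 2‖
  have h0 : ‖Z 0‖ ^ 2 = 0 := by linarith
  have h1 : ‖Z 1‖ ^ 2 = 0 := by linarith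
  have h2 : ‖Z 2‖ ^ 2 = 0 := by linarith
  have g0 : Z 0 = 0 := by simpa using h0
  have g1 : Z 1 = 0 := by simpa using h1
  have g2 : Z 2 = 0 := by simpa using h2
  funext i
  fin_cases i
  · exact g0
  · exact g1
  · exact g2

theorem nrm_pos (Z : C3) (hZ : Z ≠ 0) : 0 < nrm Z := Real.sqrt_pos.mpr (nrm_sq_pos Z hZ)

theorem nrm_smul_C3 (c : ℂ) (Z : C3) : nrm (c • Z) = ‖c‖ * nrm Z := by
  unfold nrm
  simp only [Pi.smul_apply, smul_eq_mul, norm_mul]
  have : (‖c‖ * ‖Z 0‖) ^ 2 + (‖c‖ * ‖Z 1‖) ^ 2 + (‖c‖ * ‖Z 2‖) ^ 2 =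
      ‖c‖ ^ 2 * (‖Z 0‖ ^ 2 + ‖Z 1‖ ^ 2 + ‖Z 2‖ ^ 2) := by ring
  rw [this, Real.sqrt_mul (sq_nonneg _), Real.sqrt_sq (norm_nonneg _)]

/-- the function `s` -/
noncomputable def sfun (Z : C3) : ℝ := -Real.sqrt (1 + Real.log (nrm Z) - Real.log ‖Z 1‖)

theorem phi_homogeneous (c : ℂ) (Z : C3) (hc : c ≠ 0) (hZ : Z ≠ 0) : phi (c • Z) = phi Z := by
  unfold phi
  simp only [Pi.smul_apply, smul_eq_mul]
  by_cases h0 : Z 0 = 0
  · rw [h0, mul_zero]
    simp only [ne_eq, not_true_eq_false, if_false]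
    by_cases h1 : Z 1 = 0
    · rw [h1, mul_zero]; simp
    · have h1' : c * Z 1 ≠ 0 := mul_ne_zero hc h1
      rw [if_neg h1', if_neg h1, nrm_smul_C3, norm_mul]
      have hcn : ‖c‖ ≠ 0 := norm_ne_zero_iff.mpr hc
      rw [Real.log_mul hcn (nrm_pos Z hZ).ne', Real.log_mul hcn (norm_ne_zero_iff.mpr h1)]
      congr 4
      ring
  · have h0' : c * Z 0 ≠ 0 := mul_ne_zero hc h0
    rw [if_pos h0', if_pos h0, mul_div_mul_left _ _ hc, mul_div_mul_left _ _ hc]

theorem phi_lt_top (Z : C3) : phi Z < ⊤ := by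
  unfold phi
  split_ifs
  · exact EReal.coe_lt_top _
  · exact bot_lt_top
  · exact EReal.coe_lt_top _

theorem phi_chart (z : C2) : phi (chart z) = ((U z - pot z : ℝ) : EReal) := by
  unfold phi chart
  simp

theorem pot_ratio (Z : C3) (h0 : Z 0 ≠ 0) :
    pot (Z 1 / Z 0, Z 2 / Z 0) = Real.log (nrm Z) - Real.log ‖Z 0‖ := by
  have hZ : Z ≠ 0 := fun h => h0 (by rw [h]; rfl)
  have hn0 : 0 < ‖Z 0‖ := norm_pos_iff.mpr h0
  have hs := nrm_sq_pos Z hZ
  unfold pot nrm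
  rw [Real.log_sqrt hs.le]
  have h1 : 1 + ‖Z 1 / Z 0‖ ^ 2 + ‖Z 2 / Z 0‖ ^ 2 =
      (‖Z 0‖ ^ 2 + ‖Z 1‖ ^ 2 + ‖Z 2‖ ^ 2) / ‖Z 0‖ ^ 2 := by
    rw [norm_div, norm_div]
    field_simp
  simp only
  rw [h1, Real.log_div hs.ne' (by positivity), Real.log_pow]
  push_cast
  ring

theorem pot_continuous : Continuous pot := by
  unfold pot
  apply Continuous.mul continuous_const
  apply Continuous.log
  · fun_prop
  · intro z
    positivity

theorem u2_sub_pot (Z : C3) (h0 : Z 0 ≠ 0) (h1 : Z 1 ≠ 0) :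
    u2 (Z 1 / Z 0, Z 2 / Z 0) - pot (Z 1 / Z 0, Z 2 / Z 0) = sfun Z := by
  unfold u2 sfun
  rw [pot_ratio Z h0]
  simp only
  rw [norm_div, Real.log_div (norm_ne_zero_iff.mpr h1) (norm_ne_zero_iff.mpr h0)]
  have : 1 + (Real.log (nrm Z) - Real.log ‖Z 0‖) - (Real.log ‖Z 1‖ - Real.log ‖Z 0‖) =
      1 + Real.log (nrm Z) - Real.log ‖Z 1‖ := by ring
  rw [this]
  ring

/-- the function `N` -/
noncomputable def Nfun (Z : C3) : ℝ := ‖Z 1‖ * (‖Z 0‖ ^ 2 + ‖Z 2‖ ^ 2)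

theorem Nfun_nonneg (Z : C3) : 0 ≤ Nfun Z := by unfold Nfun; positivity

theorem arsinh_le_log {x : ℝ} (hx : 0 ≤ x) : Real.arsinh x ≤ Real.log (1 + 2 * x) := by
  unfold Real.arsinh
  apply Real.log_le_log
  · positivity
  · have : Real.sqrt (1 + x ^ 2) ≤ 1 + x := by
      rw [Real.sqrt_le_left (by linarith)]
      nlinarith
    linarith

theorem u1_le (Z : C3) (h0 : Z 0 ≠ 0) (h1 : ‖Z 0‖ ≤ 1) :
    u1 (Z 1 / Z 0, Z 2 / Z 0) ≤ 1 / 4 * Real.log (1 + 2 * Nfun Z) - 3 / 4 * Real.log ‖Z 0‖ := by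
  have hn0 : 0 < ‖Z 0‖ := norm_pos_iff.mpr h0
  unfold u1
  simp only
  have hx : ‖Z 1 / Z 0‖ * (1 + ‖Z 2 / Z 0‖ ^ 2) = Nfun Z / ‖Z 0‖ ^ 3 := by
    unfold Nfun
    rw [norm_div, norm_div]
    field_simp
  rw [hx]
  have hN := Nfun_nonneg Z
  have h2 := arsinh_le_log (x := Nfun Z / ‖Z 0‖ ^ 3) (by positivity)
  have h3 : Real.log (1 + 2 * (Nfun Z / ‖Z 0‖ ^ 3)) ≤
      Real.log ((1 + 2 * Nfun Z) / ‖Z 0‖ ^ 3) := by
    apply Real.log_le_log (by positivity)
    rw [le_div_iff₀ (by positivity)]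
    have h4 : ‖Z 0‖ ^ 3 ≤ 1 := pow_le_one₀ hn0.le h1
    have h5 : (1 + 2 * (Nfun Z / ‖Z 0‖ ^ 3)) * ‖Z 0‖ ^ 3 = ‖Z 0‖ ^ 3 + 2 * Nfun Z := by
      field_simp
    rw [h5]; linarith
  rw [Real.log_div (by positivity) (by positivity), Real.log_pow] at h3
  push_cast at h3
  linarith

theorem phi_of_ne (Z : C3) (h0 : Z 0 ≠ 0) (h1 : Z 1 ≠ 0) :
    phi Z = ((sfun Z + (chi (sfun Z + (Real.log (nrm Z) - Real.log ‖Z 0‖) -
      u1 (Z 1 / Z 0, Z 2 / Z 0)) - (sfun Z + (Real.log (nrm Z) - Real.log ‖Z 0‖) -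
      u1 (Z 1 / Z 0, Z 2 / Z 0))) : ℝ) : EReal) := by
  unfold phi
  rw [if_pos h0]
  congr 1
  unfold U
  have h2 : (Z 1 / Z 0, Z 2 / Z 0).1 ≠ 0 := div_ne_zero h1 h0
  rw [if_neg h2]
  have h3 := u2_sub_pot Z h0 h1
  rw [pot_ratio Z h0] at h3 ⊢
  have h4 : u2 (Z 1 / Z 0, Z 2 / Z 0) = sfun Z + (Real.log (nrm Z) - Real.log ‖Z 0‖) := by
    linarith
  rw [h4]
  ring

theorem nrm_continuous : Continuous nrm := by
  unfold nrm
  fun_prop

theorem Nfun_continuous : Continuous Nfun := by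
  unfold Nfun
  fun_prop

theorem log_nrm_continuousAt (Z : C3) (hZ : Z ≠ 0) : ContinuousAt (fun Z => Real.log (nrm Z)) Z :=
  ContinuousAt.log nrm_continuous.continuousAt (nrm_pos Z hZ).ne'

theorem sfun_continuousAt (Z : C3) (hZ : Z ≠ 0) (h1 : Z 1 ≠ 0) : ContinuousAt sfun Z := by
  unfold sfun
  apply ContinuousAt.neg
  apply ContinuousAt.sqrt
  apply ContinuousAt.sub
  · exact continuousAt_const.add (log_nrm_continuousAt Z hZ)
  · apply ContinuousAt.log
    · exact (continuous_apply (A := fun _ : Fin 3 => ℂ) 1).norm.continuousAt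
    · exact norm_ne_zero_iff.mpr h1

theorem log_coord_small (i : Fin 3) (Z : C3) (hi : Z i = 0) (M : ℝ) :
    ∀ᶠ Z' in 𝓝 Z, ‖Z' i‖ ≤ 1 ∧ (Z' i ≠ 0 → Real.log ‖Z' i‖ < M) := by
  have hc : Continuous (fun Z' : C3 => ‖Z' i‖) := by fun_prop
  have h := hc.tendsto Z
  rw [hi, norm_zero] at h
  have e1 := h.eventually (gt_mem_nhds (show (0 : ℝ) < 1 by norm_num))
  have e2 := h.eventually (gt_mem_nhds (Real.exp_pos M))
  filter_upwards [e1, e2] with Z' h1 h2
  refine ⟨h1.le, fun h3 => ?_⟩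
  rw [Real.log_lt_iff_lt_exp (norm_pos_iff.mpr h3)]
  exact h2

/-- continuity of `phi` on `ℂ³ \ {0}` (with values in `[-∞, ∞)`), given continuity of `U` -/
theorem phi_continuousAt (hU : Continuous U) (Z : C3) (hZ : Z ≠ 0) : ContinuousAt phi Z := by
  by_cases h0 : Z 0 = 0
  swap
  · -- case (a)
    have hc0 : Continuous (fun Z' : C3 => Z' 0) := by fun_prop
    have hne : ∀ᶠ Z' in 𝓝 Z, Z' 0 ≠ 0 := hc0.continuousAt.eventually_ne h0
    have heq : phi =ᶠ[𝓝 Z] fun Z' => ((U (Z' 1 / Z' 0, Z' 2 / Z' 0) -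
        pot (Z' 1 / Z' 0, Z' 2 / Z' 0) : ℝ) : EReal) := by
      filter_upwards [hne] with Z' h
      unfold phi
      rw [if_pos h]
    rw [continuousAt_congr heq]
    apply continuous_coe_real_ereal.continuousAt.comp
    have hp : ContinuousAt (fun Z' : C3 => (Z' 1 / Z' 0, Z' 2 / Z' 0)) Z := by
      apply ContinuousAt.prodMk
      · exact ContinuousAt.div (continuous_apply (A := fun _ : Fin 3 => ℂ) 1).continuousAt
          (continuous_apply (A := fun _ : Fin 3 => ℂ) 0).continuousAt h0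
      · exact ContinuousAt.div (continuous_apply (A := fun _ : Fin 3 => ℂ) 2).continuousAt
          (continuous_apply (A := fun _ : Fin 3 => ℂ) 0).continuousAt h0
    exact (ContinuousAt.comp (f := fun Z' : C3 => (Z' 1 / Z' 0, Z' 2 / Z' 0))
      hU.continuousAt hp).sub
      (ContinuousAt.comp (f := fun Z' : C3 => (Z' 1 / Z' 0, Z' 2 / Z' 0))
      pot_continuous.continuousAt hp)
  by_cases h1 : Z 1 = 0
  swap
  · -- case (b)
    have hc1 : Continuous (fun Z' : C3 => Z' 1) := by fun_prop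
    have hne1 : ∀ᶠ Z' in 𝓝 Z, Z' 1 ≠ 0 := hc1.continuousAt.eventually_ne h1
    set e : C3 → ℝ := fun Z' => if Z' 0 ≠ 0 then
      (chi (sfun Z' + (Real.log (nrm Z') - Real.log ‖Z' 0‖) -
      u1 (Z' 1 / Z' 0, Z' 2 / Z' 0)) - (sfun Z' + (Real.log (nrm Z') - Real.log ‖Z' 0‖) -
      u1 (Z' 1 / Z' 0, Z' 2 / Z' 0))) else -1 with he
    have heq : phi =ᶠ[𝓝 Z] fun Z' => ((sfun Z' + e Z' : ℝ) : EReal) := by
      filter_upwards [hne1] with Z' h
      by_cases h' : Z' 0 = 0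
      · have : e Z' = -1 := by rw [he]; simp [h']
        rw [this]
        unfold phi sfun
        rw [if_neg (by simp [h']), if_neg h]
        rfl
      · rw [phi_of_ne Z' h' h]
        have : e Z' = (chi (sfun Z' + (Real.log (nrm Z') - Real.log ‖Z' 0‖) -
          u1 (Z' 1 / Z' 0, Z' 2 / Z' 0)) - (sfun Z' + (Real.log (nrm Z') - Real.log ‖Z' 0‖) -
          u1 (Z' 1 / Z' 0, Z' 2 / Z' 0))) := by
          rw [he]; simp only; rw [if_pos h']
        rw [this]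
    rw [continuousAt_congr heq]
    apply continuous_coe_real_ereal.continuousAt.comp
    apply (sfun_continuousAt Z hZ h1).add
    have heZ : e Z = -1 := by rw [he]; simp [h0]
    rw [ContinuousAt, heZ, Metric.tendsto_nhds]
    intro ε hε
    have hchi := (Metric.tendsto_nhds.mp chi_sub_tendsto) ε hε
    obtain ⟨T, hT⟩ := eventually_atTop.mp hchi
    have hCc : ContinuousAt (fun Z' => sfun Z' + Real.log (nrm Z') -
        1 / 4 * Real.log (1 + 2 * Nfun Z')) Z := by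
      apply ((sfun_continuousAt Z hZ h1).add (log_nrm_continuousAt Z hZ)).sub
      apply ContinuousAt.mul continuousAt_const
      apply ContinuousAt.log
      · exact (continuous_const.add (continuous_const.mul Nfun_continuous)).continuousAt
      · have := Nfun_nonneg Z; positivity
    set C : ℝ := sfun Z + Real.log (nrm Z) - 1 / 4 * Real.log (1 + 2 * Nfun Z) with hC
    have e1 : ∀ᶠ Z' in 𝓝 Z, C - 1 < sfun Z' + Real.log (nrm Z') -
        1 / 4 * Real.log (1 + 2 * Nfun Z') :=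
      Filter.Tendsto.eventually hCc (lt_mem_nhds (by simp only [hC]; linarith))
    filter_upwards [e1, log_coord_small 0 Z h0 (-(4 * (T - (C - 1))))] with Z' g1 g2
    by_cases h' : Z' 0 = 0
    · have : e Z' = -1 := by rw [he]; simp [h']
      rw [this, dist_self]; exact hε
    · have : e Z' = (chi (sfun Z' + (Real.log (nrm Z') - Real.log ‖Z' 0‖) -
          u1 (Z' 1 / Z' 0, Z' 2 / Z' 0)) - (sfun Z' + (Real.log (nrm Z') - Real.log ‖Z' 0‖) -
          u1 (Z' 1 / Z' 0, Z' 2 / Z' 0))) := by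
          rw [he]; simp only; rw [if_pos h']
      rw [this]
      apply hT
      have g3 := u1_le Z' h' g2.1
      have g4 := g2.2 h'
      linarith
  · -- case (c)
    have hbot : phi Z = ⊥ := by
      unfold phi
      rw [if_neg (by simp [h0]), if_pos h1]
    rw [ContinuousAt, hbot, EReal.tendsto_nhds_bot_iff_real]
    intro a
    set ℓ : ℝ := Real.log (nrm Z) with hℓ
    set c1 : ℝ := 1 / 4 * Real.log (1 + 2 * Nfun Z) with hc1
    have e1 : ∀ᶠ Z' in 𝓝 Z, ℓ - 1 < Real.log (nrm Z') :=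
      Filter.Tendsto.eventually (log_nrm_continuousAt Z hZ) (lt_mem_nhds (by linarith))
    have hc1c : ContinuousAt (fun Z' => 1 / 4 * Real.log (1 + 2 * Nfun Z')) Z := by
      apply ContinuousAt.mul continuousAt_const
      apply ContinuousAt.log
      · exact (continuous_const.add (continuous_const.mul Nfun_continuous)).continuousAt
      · have := Nfun_nonneg Z; positivity
    have e2 : ∀ᶠ Z' in 𝓝 Z, 1 / 4 * Real.log (1 + 2 * Nfun Z') < c1 + 1 :=
      Filter.Tendsto.eventually hc1c (gt_mem_nhds (by simp only [hc1]; linarith))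
    filter_upwards [e1, e2, log_coord_small 0 Z h0 (min (a + ℓ - 1) (4 * (a + ℓ - c1 - 2))),
      log_coord_small 1 Z h1 (ℓ - a ^ 2)] with Z' g1 g2 g3 g4
    have hs : Z' 1 ≠ 0 → sfun Z' < a := by
      intro h
      have g5 := g4.2 h
      unfold sfun
      have : |a| < Real.sqrt (1 + Real.log (nrm Z') - Real.log ‖Z' 1‖) := by
        rw [Real.lt_sqrt (abs_nonneg a), sq_abs]
        linarith
      have := neg_abs_le a
      linarith
    by_cases h0' : Z' 0 = 0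
    · by_cases h1' : Z' 1 = 0
      · have : phi Z' = ⊥ := by
          unfold phi
          rw [if_neg (by simp [h0']), if_pos h1']
        rw [this]; exact EReal.bot_lt_coe a
      · have : phi Z' = ((sfun Z' - 1 : ℝ) : EReal) := by
          unfold phi sfun
          rw [if_neg (by simp [h0']), if_neg h1']
        rw [this, EReal.coe_lt_coe_iff]
        have := hs h1'
        linarith
    · have g5 := g3.2 h0'
      rw [lt_min_iff] at g5
      by_cases h1' : Z' 1 = 0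
      · have : phi Z' = ((-(Real.log (nrm Z') - Real.log ‖Z' 0‖) : ℝ) : EReal) := by
          unfold phi
          rw [if_pos h0', pot_ratio Z' h0']
          unfold U
          rw [if_pos (by simp [h1'])]
          congr 1
          ring
        rw [this, EReal.coe_lt_coe_iff]
        linarith [g5.1]
      · rw [phi_of_ne Z' h0' h1', EReal.coe_lt_coe_iff]
        have g6 := hs h1'
        have g7 := u1_le Z' h0' g3.1
        have g8 := chi_le (sfun Z' + (Real.log (nrm Z') - Real.log ‖Z' 0‖) -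
          u1 (Z' 1 / Z' 0, Z' 2 / Z' 0))
        rcases le_total (sfun Z' + (Real.log (nrm Z') - Real.log ‖Z' 0‖) -
          u1 (Z' 1 / Z' 0, Z' 2 / Z' 0)) 0 with g9 | g9
        · rw [max_eq_right g9] at g8
          linarith [g5.2]
        · rw [max_eq_left g9] at g8
          linarith

theorem exp_two_log_norm (z : ℂ) (h : z ≠ 0) : Real.exp (2 * Real.log ‖z‖) = ‖z‖ ^ 2 := by
  have h1 : 2 * Real.log ‖z‖ = Real.log (‖z‖ ^ 2) := by rw [Real.log_pow]; push_cast; ring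
  rw [h1, Real.exp_log (by have := norm_pos_iff.mpr h; positivity)]

theorem pot_toric (z : C2) (h1 : z.1 ≠ 0) (h2 : z.2 ≠ 0) :
    pot z = rho (Real.log ‖z.1‖, Real.log ‖z.2‖) := by
  unfold pot rho
  simp only
  rw [exp_two_log_norm _ h1, exp_two_log_norm _ h2]

theorem U_toric (z : C2) (h1 : z.1 ≠ 0) (h2 : z.2 ≠ 0) :
    U z = R (Real.log ‖z.1‖, Real.log ‖z.2‖) := by
  have hu1 : u1 z = r1 (Real.log ‖z.1‖, Real.log ‖z.2‖) := by
    unfold u1 r1
    simp only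
    rw [exp_two_log_norm _ h2, Real.exp_log (norm_pos_iff.mpr h1)]
  have hu2 : u2 z = r2 (Real.log ‖z.1‖, Real.log ‖z.2‖) := by
    unfold u2 r2
    rw [pot_toric z h1 h2]
  unfold U R
  rw [if_neg h1, hu1, hu2]

/-- the function `phi + log ‖Z‖` in logarithmic coordinates -/
theorem psi_toric (Z : C3) (h0 : Z 0 ≠ 0) (h1 : Z 1 ≠ 0) (h2 : Z 2 ≠ 0) :
    phi Z + (Real.log (nrm Z) : EReal) =
      ((Real.log ‖Z 0‖ + R (Real.log ‖Z 1‖ - Real.log ‖Z 0‖, Real.log ‖Z 2‖ - Real.log ‖Z 0‖) :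
        ℝ) : EReal) := by
  have hphi : phi Z = ((U (Z 1 / Z 0, Z 2 / Z 0) - pot (Z 1 / Z 0, Z 2 / Z 0) : ℝ) : EReal) := by
    unfold phi
    rw [if_pos h0]
  rw [hphi, pot_ratio Z h0, U_toric (Z 1 / Z 0, Z 2 / Z 0) (div_ne_zero h1 h0) (div_ne_zero h2 h0),
    ← EReal.coe_add]
  simp only
  rw [norm_div, norm_div, Real.log_div (norm_ne_zero_iff.mpr h1) (norm_ne_zero_iff.mpr h0),
    Real.log_div (norm_ne_zero_iff.mpr h2) (norm_ne_zero_iff.mpr h0)]
  congr 1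
  ring

end Pool.Agent.H314.MA
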