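import Pool.Agent.H314.MA.Proj

set_option autoImplicit false
open Set Filter Topology MeasureTheory
open scoped ContDiff

namespace Pool.Agent.H314.MA

theorem tangent_le6357 (r : ℝ × ℝ → ℝ) (hr : ContDiff ℝ 2 r) (hpd : ∀ x ξ, 0 ≤ hessR r x ξ ξ)
    (x0 x : ℝ × ℝ) : r x0 + fderiv ℝ r x0 (x - x0) ≤ r x := by
  obtain ⟨v, hv⟩ : ∃ v, v = x - x0 := ⟨_, rfl⟩
  have hd : ∀ y, HasFDerivAt r (fderiv ℝ r y) y := fun y =>
    ((hr.differentiable (by norm_num)) y).hasFDerivAt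
  have hd2 : ∀ y, HasFDerivAt (fderiv ℝ r) (fderiv ℝ (fderiv ℝ r) y) y := fun y => by
    have h1 : ContDiff ℝ 1 (fderiv ℝ r) := hr.fderiv_right (by norm_num)
    exact ((h1.differentiable (by norm_num)) y).hasFDerivAt
  have hl : ∀ t : ℝ, HasDerivAt (fun t : ℝ => x0 + t • v) v t := by
    intro t
    have h1 := ((hasDerivAt_id t).smul_const v).const_add x0
    simpa using h1
  have h1 : ∀ t : ℝ, HasDerivAt (fun t : ℝ => r (x0 + t • v)) (fderiv ℝ r (x0 + t • v) v) t :=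
    fun t => (hd _).comp_hasDerivAt t (hl t)
  have h2 : ∀ t : ℝ, HasDerivAt (fun t : ℝ => fderiv ℝ r (x0 + t • v) v)
      (hessR r (x0 + t • v) v v) t := by
    intro t
    have h3 := ((hd2 _).comp_hasDerivAt t (hl t)).clm_apply (hasDerivAt_const t v)
    simpa [hessR] using h3
  have hmono : Monotone (fun t : ℝ => fderiv ℝ r (x0 + t • v) v) := by
    apply monotone_of_deriv_nonneg
    · exact fun t => (h2 t).differentiableAt
    · intro t
      rw [(h2 t).deriv]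
      exact hpd _ _
  obtain ⟨c, hc, hc'⟩ := exists_hasDerivAt_eq_slope (fun t : ℝ => r (x0 + t • v))
    (fun t : ℝ => fderiv ℝ r (x0 + t • v) v) (zero_lt_one)
    (continuous_iff_continuousAt.2 fun t => (h1 t).continuousAt).continuousOn (fun t _ => h1 t)
  have h3 := hmono hc.1.le
  simp only [zero_smul, add_zero, one_smul, sub_zero, div_one] at hc' h3
  have h4 : x0 + v = x := by rw [hv]; abel
  rw [h4] at hc'
  rw [hc', hv] at h3
  linarith

theorem exp_ne_ae6357 (z w : ℂ) (hz : z ≠ 0) :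
    ∀ᵐ θ : ℝ, z + Complex.exp (θ * Complex.I) * w ≠ 0 := by
  have hc : Set.Countable {θ : ℝ | z + Complex.exp (θ * Complex.I) * w = 0} := by
    by_cases hne : ∃ θ0 : ℝ, z + Complex.exp (θ0 * Complex.I) * w = 0
    · obtain ⟨θ0, h0⟩ := hne
      have hw : w ≠ 0 := by
        intro h
        rw [h, mul_zero, add_zero] at h0
        exact hz h0
      refine (Set.countable_range (fun n : ℤ => θ0 + n * (2 * Real.pi))).mono ?_
      intro θ hθ
      have hθ' : z + Complex.exp (θ * Complex.I) * w = 0 := hθ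
      have h1 : Complex.exp (θ * Complex.I) * w = Complex.exp (θ0 * Complex.I) * w := by
        linear_combination hθ' - h0
      have h2 := mul_right_cancel₀ hw h1
      obtain ⟨n, hn⟩ := Complex.exp_eq_exp_iff_exists_int.1 h2
      refine ⟨n, ?_⟩
      have h3 : ((θ : ℂ)) = θ0 + n * (2 * Real.pi) := by
        have : (θ : ℂ) * Complex.I = (θ0 + n * (2 * Real.pi)) * Complex.I := by
          rw [hn]; ring
        exact mul_right_cancel₀ Complex.I_ne_zero this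
      have h4 : ((θ : ℝ) : ℂ) = ((θ0 + n * (2 * Real.pi) : ℝ) : ℂ) := by
        rw [h3]; push_cast; ring
      exact (Complex.ofReal_injective h4).symm
    · have : {θ : ℝ | z + Complex.exp (θ * Complex.I) * w = 0} = ∅ := by
        ext θ
        simp only [Set.mem_ofPred_eq, Set.mem_empty_iff_false, iff_false]
        exact fun h => hne ⟨θ, h⟩
      rw [this]
      exact Set.countable_empty
  filter_upwards [hc.ae_notMem volume] with θ hθ
  exact hθ

theorem int6357 (z w : ℂ) :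
    IntervalIntegrable (fun θ : ℝ => Real.log ‖z + Complex.exp (θ * Complex.I) * w‖) volume 0
      (2 * Real.pi) := by
  have h := MeromorphicOn.circleIntegrable_log_norm (f := fun x : ℂ => z + x * w) (c := 0) (R := 1)
    (fun _ _ => by fun_prop)
  have h2 : CircleIntegrable (fun x : ℂ => Real.log ‖z + x * w‖) 0 1 := h
  unfold CircleIntegrable at h2
  simpa [circleMap] using h2

theorem mean6357 (z w : ℂ) (hz : z ≠ 0) :
    2 * Real.pi * Real.log ‖z‖ ≤
      ∫ θ in (0 : ℝ)..(2 * Real.pi), Real.log ‖z + Complex.exp (θ * Complex.I) * w‖ := by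
  by_cases hw : w = 0
  · simp [hw]
  have h1 : (∫ θ in (0 : ℝ)..(2 * Real.pi), Real.log ‖z + Complex.exp (θ * Complex.I) * w‖) =
      ∫ θ in (0 : ℝ)..(2 * Real.pi), (Real.log ‖w‖ +
        Real.log ‖Complex.exp (θ * Complex.I) + z / w‖) := by
    apply intervalIntegral.integral_congr_ae
    filter_upwards [exp_ne_ae6357 z w hz] with θ hθ _
    have h2 : z + Complex.exp (θ * Complex.I) * w = w * (Complex.exp (θ * Complex.I) + z / w) := by
      field_simp
      ring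
    rw [h2, norm_mul, Real.log_mul (norm_ne_zero_iff.2 hw)]
    rw [norm_ne_zero_iff]
    intro h3
    apply hθ
    rw [h2, h3, mul_zero]
  have h2 := circleAverage_log_norm_add_const_eq_posLog (a := z / w)
  have h3 : (∫ θ in (0 : ℝ)..(2 * Real.pi), Real.log ‖Complex.exp (θ * Complex.I) + z / w‖) =
      2 * Real.pi * Real.posLog ‖z / w‖ := by
    rw [← h2, Real.circleAverage_def]
    simp only [circleMap, smul_eq_mul, zero_add, Complex.ofReal_one, one_mul]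
    rw [← mul_assoc, mul_inv_cancel₀ (by positivity), one_mul]
  have hi : IntervalIntegrable (fun θ : ℝ => Real.log ‖Complex.exp (θ * Complex.I) + z / w‖)
      volume 0 (2 * Real.pi) := by
    have := int6357 (z / w) 1
    simpa [add_comm] using this
  rw [h1, intervalIntegral.integral_add intervalIntegrable_const hi, h3,
    intervalIntegral.integral_const]
  have h4 : Real.log ‖z / w‖ ≤ Real.posLog ‖z / w‖ := le_max_right _ _
  rw [norm_div, Real.log_div (norm_ne_zero_iff.2 hz) (norm_ne_zero_iff.2 hw)] at h4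
  rw [← norm_div] at h4
  have hpi := Real.pi_pos
  have h5 : 2 * Real.pi * (Real.log ‖z‖ - Real.log ‖w‖) ≤ 2 * Real.pi * Real.posLog ‖z / w‖ :=
    mul_le_mul_of_nonneg_left h4 (by positivity)
  rw [smul_eq_mul]
  nlinarith

theorem step1_6357 (Ψ : C3 → EReal)
    (r : ℝ × ℝ → ℝ) (hr : ContDiff ℝ 2 r) (hpd : ∀ x ξ, 0 ≤ hessR r x ξ ξ)
    (hgrad : ∀ x, 0 ≤ fderiv ℝ r x (1, 0) ∧ 0 ≤ fderiv ℝ r x (0, 1) ∧
      fderiv ℝ r x (1, 0) + fderiv ℝ r x (0, 1) ≤ 1)
    (hΨ : ∀ Z : C3, Z 0 ≠ 0 → Z 1 ≠ 0 → Z 2 ≠ 0 → Ψ Z =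
      ((Real.log ‖Z 0‖ + r (Real.log ‖Z 1‖ - Real.log ‖Z 0‖, Real.log ‖Z 2‖ - Real.log ‖Z 0‖) :
        ℝ) : EReal))
    (Z W : C3) (h0 : Z 0 ≠ 0) (h1 : Z 1 ≠ 0) (h2 : Z 2 ≠ 0) (g : ℝ → ℝ) (hg : Continuous g)
    (hle : ∀ θ ∈ Set.Icc (0 : ℝ) (2 * Real.pi),
      Ψ (Z + Complex.exp (θ * Complex.I) • W) ≤ (g θ : EReal)) :
    Ψ Z ≤ (((2 * Real.pi)⁻¹ * ∫ θ in (0 : ℝ)..(2 * Real.pi), g θ : ℝ) : EReal) := by
  have hpi := Real.pi_pos
  obtain ⟨x0, hx0⟩ : ∃ x0 : ℝ × ℝ, x0 = (Real.log ‖Z 1‖ - Real.log ‖Z 0‖,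
    Real.log ‖Z 2‖ - Real.log ‖Z 0‖) := ⟨_, rfl⟩
  obtain ⟨m1, hm1⟩ : ∃ m, m = fderiv ℝ r x0 (1, 0) := ⟨_, rfl⟩
  obtain ⟨m2, hm2⟩ : ∃ m, m = fderiv ℝ r x0 (0, 1) := ⟨_, rfl⟩
  obtain ⟨g1, g2, g3⟩ := hgrad x0
  rw [← hm1] at g1 g3
  rw [← hm2] at g2 g3
  obtain ⟨f, hf⟩ : ∃ f : Fin 3 → ℝ → ℝ, f = fun i (θ : ℝ) =>
    Real.log ‖Z i + Complex.exp (θ * Complex.I) * W i‖ := ⟨_, rfl⟩
  have hfi : ∀ i, IntervalIntegrable (f i) volume 0 (2 * Real.pi) := by
    intro i; rw [hf]; exact int6357 _ _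
  have hfm : ∀ i, Z i ≠ 0 → 2 * Real.pi * Real.log ‖Z i‖ ≤ ∫ θ in (0 : ℝ)..(2 * Real.pi), f i θ := by
    intro i hi; rw [hf]; exact mean6357 _ _ hi
  obtain ⟨P, hP⟩ : ∃ P : ℝ, P = Real.log ‖Z 0‖ + r x0 := ⟨_, rfl⟩
  obtain ⟨C, hC⟩ : ∃ C : ℝ, C = P - (1 - m1 - m2) * Real.log ‖Z 0‖ - m1 * Real.log ‖Z 1‖ -
    m2 * Real.log ‖Z 2‖ := ⟨_, rfl⟩
  have hae : ∀ᵐ θ : ℝ, θ ∈ Set.Icc (0 : ℝ) (2 * Real.pi) →
      C + (1 - m1 - m2) * f 0 θ + m1 * f 1 θ + m2 * f 2 θ ≤ g θ := by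
    filter_upwards [exp_ne_ae6357 (Z 0) (W 0) h0, exp_ne_ae6357 (Z 1) (W 1) h1,
      exp_ne_ae6357 (Z 2) (W 2) h2] with θ e0 e1 e2 hθ
    have h3 := hle θ hθ
    rw [hΨ _ e0 e1 e2, EReal.coe_le_coe_iff] at h3
    have h4 : ∀ i, (Z + Complex.exp (θ * Complex.I) • W) i = Z i + Complex.exp (θ * Complex.I) * W i :=
      fun i => rfl
    rw [h4, h4, h4] at h3
    have h5 := tangent_le6357 r hr hpd x0 (Real.log ‖Z 1 + Complex.exp (θ * Complex.I) * W 1‖ -
      Real.log ‖Z 0 + Complex.exp (θ * Complex.I) * W 0‖,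
      Real.log ‖Z 2 + Complex.exp (θ * Complex.I) * W 2‖ -
      Real.log ‖Z 0 + Complex.exp (θ * Complex.I) * W 0‖)
    have h6 : ∀ a b : ℝ, fderiv ℝ r x0 (a, b) = a * m1 + b * m2 := by
      intro a b
      have : ((a, b) : ℝ × ℝ) = a • ((1 : ℝ), (0 : ℝ)) + b • ((0 : ℝ), (1 : ℝ)) := by
        simp
      rw [this, map_add, map_smul, map_smul, hm1, hm2]
      rfl
    have h7 : ((Real.log ‖Z 1 + Complex.exp (θ * Complex.I) * W 1‖ -
      Real.log ‖Z 0 + Complex.exp (θ * Complex.I) * W 0‖,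
      Real.log ‖Z 2 + Complex.exp (θ * Complex.I) * W 2‖ -
      Real.log ‖Z 0 + Complex.exp (θ * Complex.I) * W 0‖) : ℝ × ℝ) - x0 =
      (f 1 θ - f 0 θ - (Real.log ‖Z 1‖ - Real.log ‖Z 0‖),
       f 2 θ - f 0 θ - (Real.log ‖Z 2‖ - Real.log ‖Z 0‖)) := by
      rw [hx0, hf]; rfl
    rw [h7, h6] at h5
    have h8 : f 0 θ = Real.log ‖Z 0 + Complex.exp (θ * Complex.I) * W 0‖ := by rw [hf]
    rw [← h8] at h3
    rw [← h8] at h5
    rw [hC, hP]
    linarith
  have hint : IntervalIntegrable (fun θ => C + (1 - m1 - m2) * f 0 θ + m1 * f 1 θ + m2 * f 2 θ)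
      volume 0 (2 * Real.pi) :=
    ((intervalIntegrable_const.add ((hfi 0).const_mul _)).add ((hfi 1).const_mul _)).add
      ((hfi 2).const_mul _)
  have hle2 : (∫ θ in (0 : ℝ)..(2 * Real.pi), (C + (1 - m1 - m2) * f 0 θ + m1 * f 1 θ + m2 * f 2 θ))
      ≤ ∫ θ in (0 : ℝ)..(2 * Real.pi), g θ := by
    apply intervalIntegral.integral_mono_ae_restrict (by positivity) hint
      (hg.intervalIntegrable _ _)
    rw [Filter.EventuallyLE, ae_restrict_iff' measurableSet_Icc]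
    exact hae
  rw [intervalIntegral.integral_add
      ((intervalIntegrable_const.add ((hfi 0).const_mul _)).add ((hfi 1).const_mul _))
      ((hfi 2).const_mul _), intervalIntegral.integral_add
      (intervalIntegrable_const.add ((hfi 0).const_mul _)) ((hfi 1).const_mul _),
      intervalIntegral.integral_add intervalIntegrable_const ((hfi 0).const_mul _),
      intervalIntegral.integral_const, intervalIntegral.integral_const_mul,
      intervalIntegral.integral_const_mul, intervalIntegral.integral_const_mul, smul_eq_mul] at hle2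
  have k0 := mul_le_mul_of_nonneg_left (hfm 0 h0) (show 0 ≤ 1 - m1 - m2 by linarith)
  have k1 := mul_le_mul_of_nonneg_left (hfm 1 h1) g1
  have k2 := mul_le_mul_of_nonneg_left (hfm 2 h2) g2
  rw [hΨ Z h0 h1 h2, EReal.coe_le_coe_iff, ← hx0, ← hP]
  rw [inv_mul_eq_div, le_div_iff₀ (by positivity)]
  have hC' : C * (2 * Real.pi) = P * (2 * Real.pi) - (1 - m1 - m2) * (2 * Real.pi * Real.log ‖Z 0‖)
    - m1 * (2 * Real.pi * Real.log ‖Z 1‖) - m2 * (2 * Real.pi * Real.log ‖Z 2‖) := by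
    rw [hC]; ring
  linarith

/-- A continuous function on `ℂ³ \ {0}` which in logarithmic coordinates is
`L₀ + r(L₁ - L₀, L₂ - L₀)` with `r` convex and gradient in the unit triangle satisfies the
sub-mean value inequality. -/
theorem submean_of_toric (Ψ : C3 → EReal) (hcont : ∀ Z, Z ≠ 0 → ContinuousAt Ψ Z)
    (r : ℝ × ℝ → ℝ) (hr : ContDiff ℝ 2 r) (hpd : ∀ x ξ, 0 ≤ hessR r x ξ ξ)
    (hgrad : ∀ x, 0 ≤ fderiv ℝ r x (1, 0) ∧ 0 ≤ fderiv ℝ r x (0, 1) ∧
      fderiv ℝ r x (1, 0) + fderiv ℝ r x (0, 1) ≤ 1)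
    (hΨ : ∀ Z : C3, Z 0 ≠ 0 → Z 1 ≠ 0 → Z 2 ≠ 0 → Ψ Z =
      ((Real.log ‖Z 0‖ + r (Real.log ‖Z 1‖ - Real.log ‖Z 0‖, Real.log ‖Z 2‖ - Real.log ‖Z 0‖) :
        ℝ) : EReal))
    (Z W : C3) (hZW : ∀ ζ : ℂ, ‖ζ‖ ≤ 1 → Z + ζ • W ≠ 0) (g : ℝ → ℝ) (hg : Continuous g)
    (hle : ∀ θ : ℝ, Ψ (Z + Complex.exp (θ * Complex.I) • W) ≤ (g θ : EReal)) :
    Ψ Z ≤ (((2 * Real.pi)⁻¹ * ∫ θ in (0 : ℝ)..(2 * Real.pi), g θ : ℝ) : EReal) := by
  have hpi := Real.pi_pos
  have hZ0 : Z ≠ 0 := by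
    have := hZW 0 (by simp)
    simpa using this
  obtain ⟨M, hM⟩ : ∃ M : ℝ, M = (2 * Real.pi)⁻¹ * ∫ θ in (0 : ℝ)..(2 * Real.pi), g θ := ⟨_, rfl⟩
  rw [← hM]
  have hone : Continuous (fun t : ℂ => Z + t • (fun _ => (1 : ℂ)) : ℂ → C3) := by fun_prop
  have hkey : ∀ ε : ℝ, 0 < ε → Ψ Z ≤ ((M + ε : ℝ) : EReal) := by
    intro ε hε
    have h1 : ∀ᶠ t : ℂ in 𝓝 0, ∀ θ ∈ Set.Icc (0 : ℝ) (2 * Real.pi),
        Ψ (Z + t • (fun _ => (1 : ℂ)) + Complex.exp (θ * Complex.I) • W) < ((g θ + ε : ℝ) : EReal) := by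
      apply isCompact_Icc.eventually_forall_of_forall_eventually
      intro θ _
      have hne : Z + Complex.exp (θ * Complex.I) • W ≠ 0 := hZW _ (by
        rw [Complex.norm_exp_ofReal_mul_I])
      have hc1 : ContinuousAt (fun z : ℂ × ℝ => Z + z.1 • (fun _ => (1 : ℂ)) +
          Complex.exp (z.2 * Complex.I) • W : ℂ × ℝ → C3) (0, θ) := by
        apply Continuous.continuousAt
        fun_prop
      have hc2 : ContinuousAt (fun z : ℂ × ℝ => Ψ (Z + z.1 • (fun _ => (1 : ℂ)) +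
          Complex.exp (z.2 * Complex.I) • W)) (0, θ) := by
        apply ContinuousAt.comp (g := Ψ) _ hc1
        simp only [zero_smul, add_zero]
        exact hcont _ hne
      have hc3 : ContinuousAt (fun z : ℂ × ℝ => ((g z.2 + ε : ℝ) : EReal)) (0, θ) := by
        apply Continuous.continuousAt
        exact continuous_coe_real_ereal.comp ((hg.comp continuous_snd).add continuous_const)
      apply hc2.eventually_lt hc3
      simp only [zero_smul, add_zero]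
      refine lt_of_le_of_lt (hle θ) ?_
      rw [EReal.coe_lt_coe_iff]
      linarith
    have h2 : ∀ i, ∀ᶠ t : ℂ in 𝓝[≠] 0, Z i + t ≠ 0 := by
      intro i
      by_cases hi : Z i = 0
      · filter_upwards [self_mem_nhdsWithin] with t ht
        rw [hi, zero_add]
        exact ht
      · apply nhdsWithin_le_nhds
        have hc : ContinuousAt (fun t : ℂ => Z i + t) 0 := by fun_prop
        apply hc.eventually_ne
        simpa using hi
    have h3 : ∀ᶠ t : ℂ in 𝓝[≠] 0, Ψ (Z + t • (fun _ => (1 : ℂ))) ≤ ((M + ε : ℝ) : EReal) := by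
      filter_upwards [h2 0, h2 1, h2 2, nhdsWithin_le_nhds h1] with t t0 t1 t2 ht
      have h4 := step1_6357 Ψ r hr hpd hgrad hΨ (Z + t • (fun _ => (1 : ℂ))) W (by simpa using t0)
        (by simpa using t1) (by simpa using t2) (fun θ => g θ + ε) (hg.add continuous_const)
        (fun θ hθ => (ht θ hθ).le)
      have h5 : (2 * Real.pi)⁻¹ * ∫ θ in (0 : ℝ)..(2 * Real.pi), (g θ + ε) = M + ε := by
        rw [intervalIntegral.integral_add (hg.intervalIntegrable _ _) intervalIntegrable_const,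
          intervalIntegral.integral_const, mul_add, ← hM, smul_eq_mul]
        field_simp
        ring
      rw [h5] at h4
      exact h4
    have h4 : Tendsto (fun t : ℂ => Ψ (Z + t • (fun _ => (1 : ℂ)))) (𝓝[≠] 0) (𝓝 (Ψ Z)) := by
      have h5 : ContinuousAt (fun t : ℂ => Ψ (Z + t • (fun _ => (1 : ℂ)))) 0 := by
        apply ContinuousAt.comp (g := Ψ) _ hone.continuousAt
        simp only [zero_smul, add_zero]
        exact hcont _ hZ0
      have h6 := h5.tendsto.mono_left (nhdsWithin_le_nhds (s := {0}ᶜ))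
      simpa using h6
    exact le_of_tendsto h4 h3
  have h5 : Tendsto (fun ε : ℝ => ((M + ε : ℝ) : EReal)) (𝓝[>] 0) (𝓝 (M : EReal)) := by
    have h6 : Continuous (fun ε : ℝ => ((M + ε : ℝ) : EReal)) :=
      continuous_coe_real_ereal.comp (continuous_const.add continuous_id)
    have h7 := (h6.tendsto 0).mono_left (nhdsWithin_le_nhds (s := Set.Ioi 0))
    simpa using h7
  apply ge_of_tendsto h5
  filter_upwards [self_mem_nhdsWithin] with ε hε
  exact hkey ε hε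

end Pool.Agent.H314.MA
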