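import Pool.Agent.H314.MA.Defs

set_option autoImplicit false
open Set Filter Topology MeasureTheory
open scoped ContDiff

namespace Pool.Agent.H314.MA

theorem fd_lin_aux {a b : ℝ × ℝ → ℝ} {f : ℝ × ℝ → ℝ}
    (h : ∀ x, HasFDerivAt f (a x • ContinuousLinearMap.fst ℝ ℝ ℝ
      + b x • ContinuousLinearMap.snd ℝ ℝ ℝ) x) (x : ℝ × ℝ) :
    fderiv ℝ f x (1, 0) = a x ∧ fderiv ℝ f x (0, 1) = b x := by
  rw [(h x).fderiv]
  simp

theorem hessR_lin_aux {a b : ℝ × ℝ → ℝ} {f : ℝ × ℝ → ℝ}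
    (h : ∀ x, HasFDerivAt f (a x • ContinuousLinearMap.fst ℝ ℝ ℝ
      + b x • ContinuousLinearMap.snd ℝ ℝ ℝ) x) (x ξ : ℝ × ℝ)
    {a' b' : ℝ × ℝ →L[ℝ] ℝ} (ha : HasFDerivAt a a' x) (hb : HasFDerivAt b b' x) :
    hessR f x ξ ξ = a' ξ * ξ.1 + b' ξ * ξ.2 := by
  have e : fderiv ℝ f = fun x => a x • ContinuousLinearMap.fst ℝ ℝ ℝ
      + b x • ContinuousLinearMap.snd ℝ ℝ ℝ := by
    funext y; exact (h y).fderiv
  unfold hessR
  rw [e]
  have h1 := (ha.smul_const (ContinuousLinearMap.fst ℝ ℝ ℝ)).add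
    (hb.smul_const (ContinuousLinearMap.snd ℝ ℝ ℝ))
  have h2 := h1.fderiv
  have e3 : (fun x => a x • ContinuousLinearMap.fst ℝ ℝ ℝ
      + b x • ContinuousLinearMap.snd ℝ ℝ ℝ) = (fun y => a y • ContinuousLinearMap.fst ℝ ℝ ℝ) +
      (fun y => b y • ContinuousLinearMap.snd ℝ ℝ ℝ) := rfl
  rw [e3, h2]
  simp

theorem rho_S_pos (x : ℝ × ℝ) : 0 < 1 + Real.exp (2 * x.1) + Real.exp (2 * x.2) := by positivity

theorem exp_two_rho (x : ℝ × ℝ) :
    Real.exp (2 * rho x) = 1 + Real.exp (2 * x.1) + Real.exp (2 * x.2) := by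
  unfold rho
  rw [← mul_assoc]
  norm_num
  exact Real.exp_log (rho_S_pos x)

theorem rho_hasFDeriv (x : ℝ × ℝ) : HasFDerivAt rho
    (Real.exp (2 * x.1 - 2 * rho x) • ContinuousLinearMap.fst ℝ ℝ ℝ
      + Real.exp (2 * x.2 - 2 * rho x) • ContinuousLinearMap.snd ℝ ℝ ℝ) x := by
  have e1 : HasFDerivAt (fun y : ℝ × ℝ => Real.exp (2 * y.1))
      (Real.exp (2 * x.1) • ((2 : ℝ) • ContinuousLinearMap.fst ℝ ℝ ℝ)) x :=
    ((hasFDerivAt_fst (𝕜 := ℝ) (p := x)).const_mul 2).exp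
  have e2 : HasFDerivAt (fun y : ℝ × ℝ => Real.exp (2 * y.2))
      (Real.exp (2 * x.2) • ((2 : ℝ) • ContinuousLinearMap.snd ℝ ℝ ℝ)) x :=
    ((hasFDerivAt_snd (𝕜 := ℝ) (p := x)).const_mul 2).exp
  have e3 := (((e1.const_add 1).add e2).log (rho_S_pos x).ne').const_mul (1 / 2)
  refine HasFDerivAt.congr_fderiv e3 ?_
  ext
  · simp only [Real.exp_sub, exp_two_rho]
    simp
    field_simp
  · simp only [Real.exp_sub, exp_two_rho]
    simp
    field_simp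

theorem rho_contDiff : ContDiff ℝ ∞ rho := by
  unfold rho
  refine contDiff_const.mul (ContDiff.log ?_ fun x => (rho_S_pos x).ne')
  fun_prop

theorem rho_sum (x : ℝ × ℝ) : Real.exp (2 * x.1 - 2 * rho x) + Real.exp (2 * x.2 - 2 * rho x)
    = 1 - Real.exp (- (2 * rho x)) := by
  have h := rho_S_pos x
  rw [Real.exp_sub, Real.exp_sub, Real.exp_neg, exp_two_rho]
  field_simp
  ring

theorem rho_grad (x : ℝ × ℝ) :
    0 < fderiv ℝ rho x (1, 0) ∧ 0 < fderiv ℝ rho x (0, 1) ∧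
      fderiv ℝ rho x (1, 0) + fderiv ℝ rho x (0, 1) < 1 := by
  obtain ⟨h1, h2⟩ := fd_lin_aux rho_hasFDeriv x
  rw [h1, h2]
  refine ⟨Real.exp_pos _, Real.exp_pos _, ?_⟩
  rw [rho_sum]
  have := Real.exp_pos (- (2 * rho x))
  linarith

theorem rho_pd (x ξ : ℝ × ℝ) (hξ : ξ ≠ 0) : 0 < hessR rho x ξ ξ := by
  have d := rho_hasFDeriv x
  have a1 : HasFDerivAt (fun y : ℝ × ℝ => Real.exp (2 * y.1 - 2 * rho y)) _ x :=
    (((hasFDerivAt_fst (𝕜 := ℝ) (p := x)).const_mul 2).sub (d.const_mul 2)).exp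
  have a2 : HasFDerivAt (fun y : ℝ × ℝ => Real.exp (2 * y.2 - 2 * rho y)) _ x :=
    (((hasFDerivAt_snd (𝕜 := ℝ) (p := x)).const_mul 2).sub (d.const_mul 2)).exp
  rw [hessR_lin_aux rho_hasFDeriv x ξ a1 a2]
  simp
  have hs := rho_sum x
  have h0 := Real.exp_pos (- (2 * rho x))
  have h1 := Real.exp_pos (2 * x.1 - 2 * rho x)
  have h2 := Real.exp_pos (2 * x.2 - 2 * rho x)
  set p := Real.exp (2 * x.1 - 2 * rho x)
  set q := Real.exp (2 * x.2 - 2 * rho x)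
  set r := Real.exp (- (2 * rho x))
  have hr : r = 1 - p - q := by linarith
  have key : p * (2 * ξ.1 - (2 * (p * ξ.1) + 2 * (q * ξ.2))) * ξ.1
      + q * (2 * ξ.2 - (2 * (p * ξ.1) + 2 * (q * ξ.2))) * ξ.2
      = 2 * (r * p * ξ.1 ^ 2 + r * q * ξ.2 ^ 2 + p * q * (ξ.1 - ξ.2) ^ 2) := by
    rw [hr]; ring
  rw [key]
  by_cases hx : ξ.1 = 0
  · have hy : ξ.2 ≠ 0 := by
      intro hy; exact hξ (Prod.ext hx hy)
    have : 0 < r * q * ξ.2 ^ 2 := by positivity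
    have : 0 ≤ r * p * ξ.1 ^ 2 := by positivity
    have : 0 ≤ p * q * (ξ.1 - ξ.2) ^ 2 := by positivity
    linarith
  · have : 0 < r * p * ξ.1 ^ 2 := by positivity
    have : 0 ≤ r * q * ξ.2 ^ 2 := by positivity
    have : 0 ≤ p * q * (ξ.1 - ξ.2) ^ 2 := by positivity
    linarith

theorem le_rho (x : ℝ × ℝ) : max 0 (max x.1 x.2) ≤ rho x := by
  have h1 := Real.exp_pos (2 * x.1)
  have h2 := Real.exp_pos (2 * x.2)
  refine max_le ?_ (max_le ?_ ?_)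
  · unfold rho
    have := Real.log_nonneg (x := 1 + Real.exp (2 * x.1) + Real.exp (2 * x.2)) (by linarith)
    linarith
  · unfold rho
    have : Real.log (Real.exp (2 * x.1)) ≤ Real.log (1 + Real.exp (2 * x.1) + Real.exp (2 * x.2)) :=
      Real.log_le_log h1 (by linarith)
    rw [Real.log_exp] at this
    linarith
  · unfold rho
    have : Real.log (Real.exp (2 * x.2)) ≤ Real.log (1 + Real.exp (2 * x.1) + Real.exp (2 * x.2)) :=
      Real.log_le_log h2 (by linarith)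
    rw [Real.log_exp] at this
    linarith

theorem rho_le (x : ℝ × ℝ) : rho x ≤ max 0 (max x.1 x.2) + 1 := by
  set m := max 0 (max x.1 x.2) with hm
  have m0 : 0 ≤ m := le_max_left _ _
  have m1 : x.1 ≤ m := le_trans (le_max_left _ _) (le_max_right _ _)
  have m2 : x.2 ≤ m := le_trans (le_max_right _ _) (le_max_right _ _)
  have e0 : 1 ≤ Real.exp (2 * m) := Real.one_le_exp (by linarith)
  have e1 : Real.exp (2 * x.1) ≤ Real.exp (2 * m) := Real.exp_le_exp.2 (by linarith)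
  have e2 : Real.exp (2 * x.2) ≤ Real.exp (2 * m) := Real.exp_le_exp.2 (by linarith)
  have h : Real.log (1 + Real.exp (2 * x.1) + Real.exp (2 * x.2)) ≤ Real.log (3 * Real.exp (2 * m)) :=
    Real.log_le_log (rho_S_pos x) (by linarith)
  rw [Real.log_mul (by norm_num) (Real.exp_pos _).ne', Real.log_exp] at h
  have h3 : Real.log 3 ≤ 3 - 1 := Real.log_le_sub_one_of_pos (by norm_num)
  unfold rho
  linarith

/-! ### the function `r1` -/

theorem G_deriv (y : ℝ) : HasDerivAt (fun y => Real.arsinh (Real.exp y))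
    (Real.exp y / Real.sqrt (1 + Real.exp y ^ 2)) y := by
  have h := (Real.hasDerivAt_exp y).arsinh
  refine h.congr_deriv ?_
  rw [smul_eq_mul]
  field_simp

theorem G_deriv2 (y : ℝ) : HasDerivAt (fun y => Real.exp y / Real.sqrt (1 + Real.exp y ^ 2))
    (Real.exp y / (Real.sqrt (1 + Real.exp y ^ 2)) ^ 3) y := by
  have hp : 0 < 1 + Real.exp y ^ 2 := by positivity
  have h1 : HasDerivAt (fun y => 1 + Real.exp y ^ 2) (2 * Real.exp y * Real.exp y) y := by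
    have := ((Real.hasDerivAt_exp y).pow 2).const_add 1
    refine this.congr_deriv ?_
    norm_num
  have h2 := h1.sqrt hp.ne'
  have h3 := (Real.hasDerivAt_exp y).div h2 (Real.sqrt_pos.2 hp).ne'
  refine h3.congr_deriv ?_
  have hs := Real.sq_sqrt hp.le
  have hs0 := Real.sqrt_pos.2 hp
  set s := Real.sqrt (1 + Real.exp y ^ 2)
  field_simp
  nlinarith [hs]

theorem tau_deriv (s : ℝ) : HasDerivAt (fun s => Real.log (1 + Real.exp (2 * s)))
    (2 * Real.exp (2 * s) / (1 + Real.exp (2 * s))) s := by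
  have h1 : HasDerivAt (fun s => 1 + Real.exp (2 * s)) (2 * Real.exp (2 * s)) s := by
    have := (((hasDerivAt_id s).const_mul 2).exp).const_add 1
    refine this.congr_deriv ?_
    simp [mul_comm]
  exact h1.log (by positivity)

theorem tau_deriv2 (s : ℝ) : HasDerivAt (fun s => 2 * Real.exp (2 * s) / (1 + Real.exp (2 * s)))
    (4 * Real.exp (2 * s) / (1 + Real.exp (2 * s)) ^ 2) s := by
  have h0 : HasDerivAt (fun s => Real.exp (2 * s)) (2 * Real.exp (2 * s)) s := by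
    have := (((hasDerivAt_id s).const_mul 2).exp)
    refine this.congr_deriv ?_
    simp [mul_comm]
  have h3 := (h0.const_mul 2).div (h0.const_add 1) (by positivity)
  refine h3.congr_deriv ?_
  field_simp
  ring

theorem r1_eq (x : ℝ × ℝ) : r1 x =
    1 / 4 * Real.arsinh (Real.exp (x.1 + Real.log (1 + Real.exp (2 * x.2)))) := by
  unfold r1
  rw [Real.exp_add, Real.exp_log (by positivity)]

theorem yy_hasFDeriv (x : ℝ × ℝ) :
    HasFDerivAt (fun x : ℝ × ℝ => x.1 + Real.log (1 + Real.exp (2 * x.2)))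
      (ContinuousLinearMap.fst ℝ ℝ ℝ +
        (2 * Real.exp (2 * x.2) / (1 + Real.exp (2 * x.2))) • ContinuousLinearMap.snd ℝ ℝ ℝ) x :=
  (hasFDerivAt_fst (𝕜 := ℝ) (p := x)).add
    ((tau_deriv x.2).comp_hasFDerivAt x (hasFDerivAt_snd (𝕜 := ℝ) (p := x)))

/-- the one variable functions -/
noncomputable def Gp (y : ℝ) : ℝ := Real.exp y / Real.sqrt (1 + Real.exp y ^ 2)
noncomputable def Gpp (y : ℝ) : ℝ := Real.exp y / (Real.sqrt (1 + Real.exp y ^ 2)) ^ 3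
noncomputable def tp (s : ℝ) : ℝ := 2 * Real.exp (2 * s) / (1 + Real.exp (2 * s))
noncomputable def tpp (s : ℝ) : ℝ := 4 * Real.exp (2 * s) / (1 + Real.exp (2 * s)) ^ 2
noncomputable def yy (x : ℝ × ℝ) : ℝ := x.1 + Real.log (1 + Real.exp (2 * x.2))

theorem Gp_pos (y : ℝ) : 0 < Gp y := by unfold Gp; positivity
theorem Gpp_pos (y : ℝ) : 0 < Gpp y := by unfold Gpp; positivity
theorem tp_pos (y : ℝ) : 0 < tp y := by unfold tp; positivity
theorem tpp_pos (y : ℝ) : 0 < tpp y := by unfold tpp; positivity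
theorem Gp_lt (y : ℝ) : Gp y < 1 := by
  unfold Gp
  rw [div_lt_one (by positivity)]
  apply Real.lt_sqrt_of_sq_lt
  linarith
theorem tp_lt (y : ℝ) : tp y < 2 := by
  unfold tp
  rw [div_lt_iff₀ (by positivity)]
  linarith

theorem r1_hasFDeriv (x : ℝ × ℝ) : HasFDerivAt r1
    ((1 / 4 * Gp (yy x)) • ContinuousLinearMap.fst ℝ ℝ ℝ
      + (1 / 4 * Gp (yy x) * tp x.2) • ContinuousLinearMap.snd ℝ ℝ ℝ) x := by
  have h := ((G_deriv (yy x)).comp_hasFDerivAt x (yy_hasFDeriv x)).const_mul (1 / 4)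
  have e : r1 = fun x : ℝ × ℝ => 1 / 4 * ((fun y => Real.arsinh (Real.exp y)) ∘
      (fun x : ℝ × ℝ => x.1 + Real.log (1 + Real.exp (2 * x.2)))) x := by
    funext z; exact r1_eq z
  rw [e]
  refine HasFDerivAt.congr_fderiv h ?_
  apply ContinuousLinearMap.ext
  intro v
  simp [Gp, tp]
  ring

theorem r1_contDiff : ContDiff ℝ ∞ r1 := by
  unfold r1
  refine contDiff_const.mul (Real.contDiff_arsinh.comp ?_)
  fun_prop

theorem r1_grad (x : ℝ × ℝ) :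
    0 < fderiv ℝ r1 x (1, 0) ∧ 0 < fderiv ℝ r1 x (0, 1) ∧
      fderiv ℝ r1 x (1, 0) + fderiv ℝ r1 x (0, 1) < 1 := by
  obtain ⟨h1, h2⟩ := fd_lin_aux r1_hasFDeriv x
  rw [h1, h2]
  have g0 := Gp_pos (yy x)
  have g1 := Gp_lt (yy x)
  have t0 := tp_pos x.2
  have t1 := tp_lt x.2
  refine ⟨by positivity, by positivity, ?_⟩
  nlinarith [mul_pos g0 t0, mul_pos g0 (sub_pos.2 t1)]

theorem r1_pd (x ξ : ℝ × ℝ) (hξ : ξ ≠ 0) : 0 < hessR r1 x ξ ξ := by
  have hy := yy_hasFDeriv x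
  have a0 : HasFDerivAt (fun x : ℝ × ℝ => Gp (yy x)) _ x :=
    (G_deriv2 (yy x)).comp_hasFDerivAt x hy
  have a1 : HasFDerivAt (fun x : ℝ × ℝ => 1 / 4 * Gp (yy x)) _ x := a0.const_mul (1 / 4)
  have b0 : HasFDerivAt (fun x : ℝ × ℝ => tp x.2) _ x :=
    (tau_deriv2 x.2).comp_hasFDerivAt x (hasFDerivAt_snd (𝕜 := ℝ) (p := x))
  have a2 : HasFDerivAt (fun x : ℝ × ℝ => 1 / 4 * Gp (yy x) * tp x.2) _ x := a1.mul b0
  rw [hessR_lin_aux r1_hasFDeriv x ξ a1 a2]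
  have g0 := Gp_pos (yy x)
  have g1 := Gpp_pos (yy x)
  have t0 := tp_pos x.2
  have t1 := tpp_pos x.2
  have eG : Real.exp (yy x) / (Real.sqrt (1 + Real.exp (yy x) ^ 2)) ^ 3 = Gpp (yy x) := rfl
  have et : 4 * Real.exp (2 * x.2) / (1 + Real.exp (2 * x.2)) ^ 2 = tpp x.2 := rfl
  have etp : 2 * Real.exp (2 * x.2) / (1 + Real.exp (2 * x.2)) = tp x.2 := rfl
  rw [eG, et, etp]
  simp only [add_apply, smul_apply, ContinuousLinearMap.coe_fst', ContinuousLinearMap.coe_snd',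
    smul_eq_mul]
  have key : 1 / 4 * (Gpp (yy x) * (ξ.1 + tp x.2 * ξ.2)) * ξ.1 +
      (1 / 4 * Gp (yy x) * (tpp x.2 * ξ.2) + tp x.2 * (1 / 4 * (Gpp (yy x) * (ξ.1 + tp x.2 * ξ.2)))) * ξ.2
      = 1 / 4 * (Gpp (yy x) * (ξ.1 + tp x.2 * ξ.2) ^ 2 + Gp (yy x) * tpp x.2 * ξ.2 ^ 2) := by
    ring
  rw [key]
  by_cases h2 : ξ.2 = 0
  · have h1 : ξ.1 ≠ 0 := by
      intro h1; exact hξ (Prod.ext h1 h2)
    rw [h2]
    simp
    positivity
  · have : 0 < Gp (yy x) * tpp x.2 * ξ.2 ^ 2 := by positivity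
    have : 0 ≤ Gpp (yy x) * (ξ.1 + tp x.2 * ξ.2) ^ 2 := by positivity
    linarith

theorem r1_nonneg (x : ℝ × ℝ) : 0 ≤ r1 x := by
  unfold r1
  have := Real.arsinh_nonneg_iff.2 (show 0 ≤ Real.exp x.1 * (1 + Real.exp (2 * x.2)) by positivity)
  linarith

end Pool.Agent.H314.MA
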