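import Pool.Agent.H314.MA.Defs

set_option autoImplicit false
open Set Filter Topology MeasureTheory
open scoped ContDiff

namespace Pool.Agent.H314.MA

theorem detR_pos (f : ℝ × ℝ → ℝ) (x : ℝ × ℝ) (hf : ContDiffAt ℝ 2 f x)
    (hpd : ∀ ξ, ξ ≠ 0 → 0 < hessR f x ξ ξ) : 0 < detR f x := by
  have hsym : IsSymmSndFDerivAt ℝ f x := hf.isSymmSndFDerivAt (by simp)
  have hs : hessR f x (0, 1) (1, 0) = hessR f x (1, 0) (0, 1) := hsym.eq _ _
  set A := hessR f x (1, 0) (1, 0) with hA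
  set B := hessR f x (1, 0) (0, 1) with hB
  set D := hessR f x (0, 1) (0, 1) with hD
  have hApos : 0 < A := hpd (1, 0) (by simp [Prod.ext_iff])
  have key := hpd (-B, A) (by
    intro h
    have := congrArg Prod.snd h
    simp at this
    exact hApos.ne' this)
  have hdec : ((-B, A) : ℝ × ℝ) = (-B) • ((1, 0) : ℝ × ℝ) + A • ((0, 1) : ℝ × ℝ) := by
    ext <;> simp
  have : hessR f x (-B, A) (-B, A) = A * (A * D - B ^ 2) := by
    have hx : hessR f x (-B, A) (-B, A) =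
        (-B) * ((-B) * A + A * B) + A * ((-B) * hessR f x (0, 1) (1, 0) + A * D) := by
      rw [hdec, hA, hB, hD]
      unfold hessR
      simp only [map_add, map_smul, add_apply, smul_apply,
        smul_eq_mul]
      ring
    rw [hx, hs]; ring
  rw [this] at key
  have := (mul_pos_iff_of_pos_left hApos).1 key
  show 0 < A * D - B ^ 2
  exact this

/-- A convex function which grows like the support function of the triangle, up to a sublinear
term, has every interior point of the triangle as a gradient. -/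
theorem exists_grad (f : ℝ × ℝ → ℝ) (hf : ContDiff ℝ 1 f) (C : ℝ)
    (hC : ∀ x : ℝ × ℝ, max 0 (max x.1 x.2) - Real.sqrt (1 + max 0 (max x.1 x.2) - x.1) - C ≤ f x)
    (p : ℝ × ℝ) (h1 : 0 < p.1) (h2 : 0 < p.2) (h3 : p.1 + p.2 < 1) :
    ∃ x, fderiv ℝ f x (1, 0) = p.1 ∧ fderiv ℝ f x (0, 1) = p.2 := by
  set c : ℝ := min p.1 (min p.2 (1 - p.1 - p.2)) with hc
  have hcpos : 0 < c := by
    refine lt_min h1 (lt_min h2 (by linarith))
  have hc1 : c ≤ p.1 := min_le_left _ _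
  have hc2 : c ≤ p.2 := (min_le_right _ _).trans (min_le_left _ _)
  have hc3 : c ≤ 1 - p.1 - p.2 := (min_le_right _ _).trans (min_le_right _ _)
  have hcoer : ∀ x : ℝ × ℝ, c * ‖x‖ ≤ max 0 (max x.1 x.2) - p.1 * x.1 - p.2 * x.2 := by
    intro x
    obtain ⟨a, b⟩ := x
    have hn : ‖((a, b) : ℝ × ℝ)‖ = max |a| |b| := by
      rw [Prod.norm_def]; simp [Real.norm_eq_abs]
    rw [hn]
    simp only
    have hm0 : (0:ℝ) ≤ max 0 (max a b) := le_max_left _ _
    have hma : a ≤ max 0 (max a b) := (le_max_left _ _).trans (le_max_right _ _)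
    have hmb : b ≤ max 0 (max a b) := (le_max_right _ _).trans (le_max_right _ _)
    set m := max 0 (max a b) with hm
    rcases max_cases |a| |b| with ⟨h, _⟩ | ⟨h, _⟩ <;> rw [h]
    · rcases abs_cases a with ⟨h', ha⟩ | ⟨h', ha⟩ <;> rw [h']
      · nlinarith [mul_nonneg h2.le (sub_nonneg.2 hmb), mul_nonneg (sub_nonneg.2 hc3) ha,
          mul_nonneg (sub_nonneg.2 hc3) hm0, mul_nonneg h1.le (sub_nonneg.2 hma),
          mul_nonneg hcpos.le (sub_nonneg.2 hma)]
      · nlinarith [mul_nonneg h2.le (sub_nonneg.2 hmb), mul_nonneg (sub_nonneg.2 hc1) (neg_nonneg.2 ha.le),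
          mul_nonneg (sub_nonneg.2 hc3) hm0, mul_nonneg (hcpos.le.trans hc3) hm0,
          mul_nonneg h1.le hm0]
    · rcases abs_cases b with ⟨h', ha⟩ | ⟨h', ha⟩ <;> rw [h']
      · nlinarith [mul_nonneg h1.le (sub_nonneg.2 hma), mul_nonneg (sub_nonneg.2 hc3) ha,
          mul_nonneg (sub_nonneg.2 hc3) hm0, mul_nonneg h2.le (sub_nonneg.2 hmb),
          mul_nonneg hcpos.le (sub_nonneg.2 hmb)]
      · nlinarith [mul_nonneg h1.le (sub_nonneg.2 hma), mul_nonneg (sub_nonneg.2 hc2) (neg_nonneg.2 ha.le),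
          mul_nonneg (sub_nonneg.2 hc3) hm0, mul_nonneg (hcpos.le.trans hc3) hm0,
          mul_nonneg h2.le hm0]
  have hsub : ∀ x : ℝ × ℝ, Real.sqrt (1 + max 0 (max x.1 x.2) - x.1) ≤ c / 4 * (1 + 2 * ‖x‖) + 1 / c := by
    intro x
    have e1 : |x.1| ≤ ‖x‖ := by rw [← Real.norm_eq_abs]; exact norm_fst_le x
    have e2 : |x.2| ≤ ‖x‖ := by rw [← Real.norm_eq_abs]; exact norm_snd_le x
    have h0 : max 0 (max x.1 x.2) ≤ ‖x‖ :=
      max_le (norm_nonneg _) (max_le ((le_abs_self _).trans e1) ((le_abs_self _).trans e2))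
    have h1' : 1 + max 0 (max x.1 x.2) - x.1 ≤ 1 + 2 * ‖x‖ := by
      linarith [(neg_le_abs x.1).trans e1]
    refine (Real.sqrt_le_sqrt h1').trans ?_
    have hnn : 0 ≤ 1 + 2 * ‖x‖ := by positivity
    rw [Real.sqrt_le_left (by positivity)]
    have : (c / 4 * (1 + 2 * ‖x‖) + 1 / c) ^ 2 =
        (c / 4 * (1 + 2 * ‖x‖) - 1 / c) ^ 2 + (1 + 2 * ‖x‖) := by
      field_simp; ring
    rw [this]
    nlinarith [sq_nonneg (c / 4 * (1 + 2 * ‖x‖) - 1 / c)]
  set F : ℝ × ℝ → ℝ := fun x => f x - (p.1 * x.1 + p.2 * x.2) with hF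
  have hFlow : ∀ x, c / 2 * ‖x‖ - (c / 4 + 1 / c + C) ≤ F x := by
    intro x
    have := hC x
    have := hcoer x
    have := hsub x
    simp only [hF]
    nlinarith
  have hFc : Continuous F := by
    have := hf.continuous
    fun_prop
  have hFt : Tendsto F (cocompact (ℝ × ℝ)) atTop := by
    refine tendsto_atTop_mono hFlow ?_
    have h := tendsto_norm_cocompact_atTop (E := ℝ × ℝ)
    have h' : Tendsto (fun x : ℝ × ℝ => c / 2 * ‖x‖) (cocompact (ℝ × ℝ)) atTop :=
      h.const_mul_atTop (by positivity)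
    exact tendsto_atTop_add_const_right _ _ h'
  obtain ⟨x, hx⟩ := hFc.exists_forall_le hFt
  have hmin : IsLocalMin F x := Filter.Eventually.of_forall hx
  have hd0 := hmin.fderiv_eq_zero
  have hfd : HasFDerivAt f (fderiv ℝ f x) x := (hf.differentiable (by norm_num) x).hasFDerivAt
  have hL : HasFDerivAt (fun x : ℝ × ℝ => p.1 * x.1 + p.2 * x.2)
      (p.1 • ContinuousLinearMap.fst ℝ ℝ ℝ + p.2 • ContinuousLinearMap.snd ℝ ℝ ℝ) x := by
    exact (hasFDerivAt_fst.const_mul p.1).add (hasFDerivAt_snd.const_mul p.2)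
  have hFd := (hfd.sub hL).fderiv
  have hFd' : fderiv ℝ f x - (p.1 • ContinuousLinearMap.fst ℝ ℝ ℝ + p.2 • ContinuousLinearMap.snd ℝ ℝ ℝ) = 0 := by
    rw [← hFd]; exact hd0
  refine ⟨x, ?_, ?_⟩
  · have := congrArg (fun φ : ℝ × ℝ →L[ℝ] ℝ => φ (1, 0)) hFd'
    simp at this
    linarith
  · have := congrArg (fun φ : ℝ × ℝ →L[ℝ] ℝ => φ (0, 1)) hFd'
    simp at this
    linarith

/-- The total real Monge-Ampere mass is the area of the triangle. -/
theorem lintegral_detR (f : ℝ × ℝ → ℝ) (hf : ContDiff ℝ 2 f)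
    (hpd : ∀ x ξ, ξ ≠ 0 → 0 < hessR f x ξ ξ)
    (hg : ∀ x, 0 < fderiv ℝ f x (1, 0) ∧ 0 < fderiv ℝ f x (0, 1) ∧
      fderiv ℝ f x (1, 0) + fderiv ℝ f x (0, 1) < 1)
    (hs : ∀ p : ℝ × ℝ, 0 < p.1 → 0 < p.2 → p.1 + p.2 < 1 →
      ∃ x, fderiv ℝ f x (1, 0) = p.1 ∧ fderiv ℝ f x (0, 1) = p.2) :
    ∫⁻ x, ENNReal.ofReal (detR f x) = ENNReal.ofReal (1 / 2) := by
  set G : ℝ × ℝ → ℝ × ℝ := fun x => (fderiv ℝ f x (1, 0), fderiv ℝ f x (0, 1)) with hG
  have hfd1 : ContDiff ℝ 1 (fderiv ℝ f) := hf.fderiv_right (by norm_num)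
  have hd2 : ∀ x, HasFDerivAt (fderiv ℝ f) (fderiv ℝ (fderiv ℝ f) x) x := fun x =>
    (hfd1.differentiable (by norm_num) x).hasFDerivAt
  set L : ((ℝ × ℝ) →L[ℝ] ℝ) →L[ℝ] ℝ × ℝ :=
    (ContinuousLinearMap.apply ℝ ℝ ((1, 0) : ℝ × ℝ)).prod (ContinuousLinearMap.apply ℝ ℝ ((0, 1) : ℝ × ℝ)) with hLdef
  have hGd : ∀ x, HasFDerivAt G (L.comp (fderiv ℝ (fderiv ℝ f) x)) x := fun x =>
    (L.hasFDerivAt (x := fderiv ℝ f x)).comp x (hd2 x)
  have hdet : ∀ x, (L.comp (fderiv ℝ (fderiv ℝ f) x)).det = detR f x := by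
    intro x
    have hsym : IsSymmSndFDerivAt ℝ f x := (hf.contDiffAt).isSymmSndFDerivAt (by simp)
    have hs' : hessR f x (0, 1) (1, 0) = hessR f x (1, 0) (0, 1) := hsym.eq _ _
    rw [ContinuousLinearMap.det, ← LinearMap.det_toMatrix (Module.Basis.finTwoProd ℝ), Matrix.det_fin_two]
    simp only [LinearMap.toMatrix_apply, Module.Basis.finTwoProd_zero, Module.Basis.finTwoProd_one]
    simp only [detR]
    have e1 : ∀ v, L (fderiv ℝ (fderiv ℝ f) x v) = (hessR f x v (1, 0), hessR f x v (0, 1)) := by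
      intro v; rfl
    simp [e1, hs']
    ring
  have hinj : Function.Injective G := by
    intro x y hxy
    by_contra hne
    have hv : x - y ≠ 0 := sub_ne_zero.2 hne
    have hγ : ∀ t : ℝ, HasDerivAt (fun t : ℝ => fderiv ℝ f (y + t • (x - y)) (x - y))
        (hessR f (y + t • (x - y)) (x - y) (x - y)) t := by
      intro t
      have hl : HasDerivAt (fun t : ℝ => y + t • (x - y)) (x - y) t := by
        simpa using ((hasDerivAt_id t).smul_const (x - y)).const_add y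
      have h2 : HasDerivAt (fun t : ℝ => fderiv ℝ f (y + t • (x - y)))
        (fderiv ℝ (fderiv ℝ f) (y + t • (x - y)) (x - y)) t := (hd2 _).comp_hasDerivAt t hl
      have h3 := h2.clm_apply (hasDerivAt_const t (x - y))
      simpa [hessR] using h3
    have hmono : StrictMono (fun t : ℝ => fderiv ℝ f (y + t • (x - y)) (x - y)) := by
      apply strictMono_of_deriv_pos
      intro t
      rw [(hγ t).deriv]
      exact hpd _ _ hv
    have h01 := hmono (zero_lt_one)
    simp only [zero_smul, add_zero, one_smul, add_sub_cancel] at h01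
    have hdec : ∀ (φ : ℝ × ℝ →L[ℝ] ℝ) (v : ℝ × ℝ), φ v = v.1 * φ (1, 0) + v.2 * φ (0, 1) := by
      intro φ v
      have : v = v.1 • ((1, 0) : ℝ × ℝ) + v.2 • ((0, 1) : ℝ × ℝ) := by ext <;> simp
      conv_lhs => rw [this]
      rw [map_add, map_smul, map_smul, smul_eq_mul, smul_eq_mul]
    rw [hdec (fderiv ℝ f y), hdec (fderiv ℝ f x)] at h01
    have a1 : fderiv ℝ f x (1, 0) = fderiv ℝ f y (1, 0) := congrArg Prod.fst hxy
    have a2 : fderiv ℝ f x (0, 1) = fderiv ℝ f y (0, 1) := congrArg Prod.snd hxy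
    rw [a1, a2] at h01
    exact lt_irrefl _ h01
  have hmain := lintegral_abs_det_fderiv_eq_addHaar_image (volume : Measure (ℝ × ℝ))
    (MeasurableSet.univ) (fun x _ => (hGd x).hasFDerivWithinAt) (hinj.injOn)
  have habs : ∀ x, |(L.comp (fderiv ℝ (fderiv ℝ f) x)).det| = detR f x := by
    intro x
    rw [hdet x, abs_of_pos (detR_pos f x hf.contDiffAt (hpd x))]
  simp only [habs, Measure.restrict_univ, image_univ] at hmain
  rw [hmain]
  have hrange : range G = regionBetween (fun _ => (0:ℝ)) (fun x => 1 - x) (Ioo (0:ℝ) 1) := by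
    ext p
    constructor
    · rintro ⟨x, rfl⟩
      obtain ⟨g1, g2, g3⟩ := hg x
      refine ⟨⟨g1, by simp only [hG]; linarith⟩, ⟨g2, by simp only [hG]; linarith⟩⟩
    · rintro ⟨⟨q1, q2⟩, ⟨q3, q4⟩⟩
      obtain ⟨x, hx1, hx2⟩ := hs p q1 q3 (by simp only at q4; linarith)
      exact ⟨x, Prod.ext hx1 hx2⟩
  rw [hrange, Measure.volume_eq_prod, volume_regionBetween_eq_integral]
  · congr 1
    rw [← integral_Ioc_eq_integral_Ioo, ← intervalIntegral.integral_of_le zero_le_one]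
    simp only [Pi.sub_apply, sub_zero]
    rw [intervalIntegral.integral_sub (by simp) (by simp)]
    simp
    norm_num
  · exact integrableOn_const (by simp) (by simp)
  · exact (Continuous.integrableOn_Icc (by fun_prop)).mono_set Ioo_subset_Icc_self
  · exact measurableSet_Ioo
  · intro x hx
    have := hx.2
    show (0:ℝ) ≤ 1 - x
    linarith

end Pool.Agent.H314.MA
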