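import Pool.Agent.H314.MA.Chi
import Pool.Agent.H314.MA.Tor1
import Pool.Agent.H314.MA.Tor2
import Pool.Agent.H314.MA.Comp

set_option autoImplicit false
open Set Filter Topology MeasureTheory
open scoped ContDiff

namespace Pool.Agent.H314.MA



theorem x1_le_rho (x : ℝ × ℝ) : x.1 ≤ rho x :=
  le_trans (le_trans (le_max_left _ _) (le_max_right _ _)) (le_rho x)



theorem r2_contDiff : ContDiff ℝ ∞ r2 := by
  rw [contDiff_iff_contDiffAt]
  intro x
  have h1 := q_contDiffAt (rho x, x.1) (x1_le_rho x)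
  exact h1.comp x (rho_contDiff.contDiffAt.prodMk contDiff_fst.contDiffAt)

theorem R_contDiff : ContDiff ℝ ∞ R := by
  have h := glue_contDiff.comp (r1_contDiff.prodMk r2_contDiff)
  exact h

theorem kq (x : ℝ × ℝ) : 0 < 1 / (2 * Real.sqrt (1 + rho x - x.1)) ∧
    1 / (2 * Real.sqrt (1 + rho x - x.1)) ≤ 1 / 2 := by
  have h := x1_le_rho x
  have h1 : 1 ≤ Real.sqrt (1 + rho x - x.1) := by
    rw [Real.one_le_sqrt]; linarith
  constructor
  · positivity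
  · apply one_div_le_one_div_of_le (by norm_num); linarith

theorem fderiv_comp2 (g : ℝ × ℝ → ℝ) (a b : ℝ × ℝ → ℝ) (x : ℝ × ℝ)
    (hg : DifferentiableAt ℝ g (a x, b x)) (ha : DifferentiableAt ℝ a x)
    (hb : DifferentiableAt ℝ b x) (v : ℝ × ℝ) :
    fderiv ℝ (fun x => g (a x, b x)) x v =
      fderiv ℝ g (a x, b x) (1, 0) * fderiv ℝ a x v +
      fderiv ℝ g (a x, b x) (0, 1) * fderiv ℝ b x v := by
  have h : HasFDerivAt (fun x => g (a x, b x))
      ((fderiv ℝ g (a x, b x)).comp ((fderiv ℝ a x).prod (fderiv ℝ b x))) x :=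
    hg.hasFDerivAt.comp x (ha.hasFDerivAt.prodMk hb.hasFDerivAt)
  rw [h.fderiv]
  simp only [ContinuousLinearMap.comp_apply, ContinuousLinearMap.prod_apply]
  have e : ((fderiv ℝ a x v, fderiv ℝ b x v) : ℝ × ℝ) =
      (fderiv ℝ a x v) • ((1, 0) : ℝ × ℝ) + (fderiv ℝ b x v) • ((0, 1) : ℝ × ℝ) := by
    ext <;> simp
  rw [e, map_add, map_smul, map_smul]
  simp only [smul_eq_mul]
  ring

theorem fderiv_r2 (x v : ℝ × ℝ) : fderiv ℝ r2 x v =
    (1 - 1 / (2 * Real.sqrt (1 + rho x - x.1))) * fderiv ℝ rho x v +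
      1 / (2 * Real.sqrt (1 + rho x - x.1)) * v.1 := by
  have h := fderiv_comp2 (fun p : ℝ × ℝ => p.1 - Real.sqrt (1 + p.1 - p.2)) rho Prod.fst x
    ((q_contDiffAt (rho x, x.1) (x1_le_rho x)).differentiableAt (by norm_num))
    (rho_contDiff.contDiffAt.differentiableAt (by norm_num)) differentiableAt_fst v
  rw [q_fderiv_1 _ (x1_le_rho x), q_fderiv_2 _ (x1_le_rho x), fderiv_fst] at h
  exact h

theorem r2_grad (x : ℝ × ℝ) :
    0 < fderiv ℝ r2 x (1, 0) ∧ 0 < fderiv ℝ r2 x (0, 1) ∧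
      fderiv ℝ r2 x (1, 0) + fderiv ℝ r2 x (0, 1) < 1 := by
  obtain ⟨h1, h2, h3⟩ := rho_grad x
  obtain ⟨k1, k2⟩ := kq x
  rw [fderiv_r2, fderiv_r2]
  set k := 1 / (2 * Real.sqrt (1 + rho x - x.1))
  refine ⟨?_, ?_, ?_⟩
  · have : 0 < (1 - k) * fderiv ℝ rho x (1, 0) := mul_pos (by linarith) h1
    simp only; linarith
  · have : 0 < (1 - k) * fderiv ℝ rho x (0, 1) := mul_pos (by linarith) h2
    simp only; linarith
  · have : (1 - k) * (fderiv ℝ rho x (1, 0) + fderiv ℝ rho x (0, 1)) < (1 - k) * 1 :=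
      mul_lt_mul_of_pos_left h3 (by linarith)
    simp only
    linarith

theorem hessR_fst (x v w : ℝ × ℝ) : hessR Prod.fst x v w = 0 := by
  unfold hessR
  have : fderiv ℝ (Prod.fst : ℝ × ℝ → ℝ) = fun _ => ContinuousLinearMap.fst ℝ ℝ ℝ := by
    funext y; exact fderiv_fst
  rw [this]; simp

theorem r2_pd (x ξ : ℝ × ℝ) (hξ : ξ ≠ 0) : 0 < hessR r2 x ξ ξ := by
  have h := hessR_comp2 (fun p : ℝ × ℝ => p.1 - Real.sqrt (1 + p.1 - p.2)) rho Prod.fst x
    ((q_contDiffAt (rho x, x.1) (x1_le_rho x)).of_le (by norm_cast))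
    (rho_contDiff.contDiffAt.of_le (by norm_cast)) contDiff_fst.contDiffAt ξ ξ
  rw [q_fderiv_1 _ (x1_le_rho x), q_fderiv_2 _ (x1_le_rho x), hessR_fst] at h
  have e : hessR r2 x ξ ξ = _ := h
  rw [e]
  obtain ⟨k1, k2⟩ := kq x
  have h1 := rho_pd x ξ hξ
  have h2 := q_hess_nonneg (rho x, x.1) (x1_le_rho x) (fderiv ℝ rho x ξ, fderiv ℝ Prod.fst x ξ)
  have h3 : 0 < (1 - 1 / (2 * Real.sqrt (1 + rho x - x.1))) * hessR rho x ξ ξ :=
    mul_pos (by linarith) h1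
  simp only at h2 ⊢
  linarith

theorem fderiv_R (x v : ℝ × ℝ) : fderiv ℝ R x v =
    (1 - deriv chi (r2 x - r1 x)) * fderiv ℝ r1 x v +
      deriv chi (r2 x - r1 x) * fderiv ℝ r2 x v := by
  have h := fderiv_comp2 (fun p : ℝ × ℝ => p.1 + chi (p.2 - p.1)) r1 r2 x
    (glue_contDiff.contDiffAt.differentiableAt (by norm_num))
    (r1_contDiff.contDiffAt.differentiableAt (by norm_num))
    (r2_contDiff.contDiffAt.differentiableAt (by norm_num)) v
  rw [glue_fderiv_1, glue_fderiv_2] at h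
  exact h

theorem R_grad (x : ℝ × ℝ) :
    0 < fderiv ℝ R x (1, 0) ∧ 0 < fderiv ℝ R x (0, 1) ∧
      fderiv ℝ R x (1, 0) + fderiv ℝ R x (0, 1) < 1 := by
  obtain ⟨a1, a2, a3⟩ := r1_grad x
  obtain ⟨b1, b2, b3⟩ := r2_grad x
  have c1 := deriv_chi_nonneg (r2 x - r1 x)
  have c2 := deriv_chi_lt_one (r2 x - r1 x)
  rw [fderiv_R, fderiv_R]
  set c := deriv chi (r2 x - r1 x)
  refine ⟨?_, ?_, ?_⟩
  · have h1 : 0 < (1 - c) * fderiv ℝ r1 x (1, 0) := mul_pos (by linarith) a1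
    have h2 : 0 ≤ c * fderiv ℝ r2 x (1, 0) := mul_nonneg c1 b1.le
    linarith
  · have h1 : 0 < (1 - c) * fderiv ℝ r1 x (0, 1) := mul_pos (by linarith) a2
    have h2 : 0 ≤ c * fderiv ℝ r2 x (0, 1) := mul_nonneg c1 b2.le
    linarith
  · have h1 : (1 - c) * (fderiv ℝ r1 x (1, 0) + fderiv ℝ r1 x (0, 1)) < (1 - c) * 1 :=
      mul_lt_mul_of_pos_left a3 (by linarith)
    have h2 : c * (fderiv ℝ r2 x (1, 0) + fderiv ℝ r2 x (0, 1)) ≤ c * 1 :=
      mul_le_mul_of_nonneg_left b3.le c1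
    linarith

theorem R_pd (x ξ : ℝ × ℝ) (hξ : ξ ≠ 0) : 0 < hessR R x ξ ξ := by
  have h := hessR_comp2 (fun p : ℝ × ℝ => p.1 + chi (p.2 - p.1)) r1 r2 x
    (glue_contDiff.contDiffAt.of_le (by norm_cast))
    (r1_contDiff.contDiffAt.of_le (by norm_cast)) (r2_contDiff.contDiffAt.of_le (by norm_cast)) ξ ξ
  rw [glue_fderiv_1, glue_fderiv_2, glue_hess] at h
  have e : hessR R x ξ ξ = _ := h
  rw [e]
  have c1 := deriv_chi_nonneg (r2 x - r1 x)
  have c2 := deriv_chi_lt_one (r2 x - r1 x)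
  have c3 := deriv2_chi_nonneg (r2 x - r1 x)
  have h1 := r1_pd x ξ hξ
  have h2 := r2_pd x ξ hξ
  have h3 : 0 < (1 - deriv chi (r2 x - r1 x)) * hessR r1 x ξ ξ := mul_pos (by linarith) h1
  have h4 : 0 ≤ deriv chi (r2 x - r1 x) * hessR r2 x ξ ξ := mul_nonneg c1 h2.le
  have h5 : 0 ≤ deriv (deriv chi) (r2 x - r1 x) * (fderiv ℝ r2 x ξ - fderiv ℝ r1 x ξ) ^ 2 :=
    mul_nonneg c3 (sq_nonneg _)
  simp only at h5 ⊢
  linarith

theorem q_mono {a b x : ℝ} (hab : a ≤ b) (hx : x ≤ a) :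
    a - Real.sqrt (1 + a - x) ≤ b - Real.sqrt (1 + b - x) := by
  have h1 : 0 < Real.sqrt (1 + a - x) := Real.sqrt_pos.mpr (by linarith)
  have h2 : 1 ≤ Real.sqrt (1 + a - x) := by rw [Real.one_le_sqrt]; linarith
  have h3 : 1 ≤ Real.sqrt (1 + b - x) := by rw [Real.one_le_sqrt]; linarith
  have e1 : Real.sqrt (1 + a - x) ^ 2 = 1 + a - x := Real.sq_sqrt (by linarith)
  have e2 : Real.sqrt (1 + b - x) ^ 2 = 1 + b - x := Real.sq_sqrt (by linarith)
  nlinarith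

theorem R_lower (x : ℝ × ℝ) :
    max 0 (max x.1 x.2) - Real.sqrt (1 + max 0 (max x.1 x.2) - x.1) - 1 ≤ R x := by
  have h1 : r2 x - 1 ≤ R x := by
    unfold R
    have := le_chi (r2 x - r1 x)
    linarith
  have h2 : max 0 (max x.1 x.2) - Real.sqrt (1 + max 0 (max x.1 x.2) - x.1) ≤ r2 x := by
    unfold r2
    exact q_mono (le_rho x) (le_trans (le_max_left _ _) (le_max_right _ _))
  linarith

theorem rho_lower (x : ℝ × ℝ) :
    max 0 (max x.1 x.2) - Real.sqrt (1 + max 0 (max x.1 x.2) - x.1) - 0 ≤ rho x := by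
  have := le_rho x
  have := Real.sqrt_nonneg (1 + max 0 (max x.1 x.2) - x.1)
  linarith

theorem mass_R : ∫⁻ x, ENNReal.ofReal (detR R x) = ENNReal.ofReal (1 / 2) :=
  lintegral_detR R (R_contDiff.of_le (by norm_cast)) R_pd R_grad
    fun p h1 h2 h3 => exists_grad R (R_contDiff.of_le (by norm_cast)) 1 R_lower p h1 h2 h3

theorem mass_rho : ∫⁻ x, ENNReal.ofReal (detR rho x) = ENNReal.ofReal (1 / 2) :=
  lintegral_detR rho (rho_contDiff.of_le (by norm_cast)) rho_pd rho_grad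
    fun p h1 h2 h3 => exists_grad rho (rho_contDiff.of_le (by norm_cast)) 0 rho_lower p h1 h2 h3

end Pool.Agent.H314.MA
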