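import Pool.Agent.H314.MA.Defs

set_option autoImplicit false
open Set Filter Topology MeasureTheory
open scoped ContDiff

namespace Pool.Agent.H314.MA

theorem toric_log_fderiv {ζ : ℂ} (h : ζ ≠ 0) :
    HasFDerivAt (fun ζ : ℂ => Real.log ‖ζ‖)
      (Complex.reCLM.comp ((ContinuousLinearMap.mul ℝ ℂ) ζ⁻¹)) ζ := by
  have h1 : HasFDerivAt (fun x : ℂ => ‖x‖ ^ 2) (2 • (innerSL ℝ ζ)) ζ :=
    (hasStrictFDerivAt_norm_sq ζ).hasFDerivAt
  have hn : ‖ζ‖ ^ 2 ≠ 0 := by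
    have := norm_pos_iff.2 h
    positivity
  have h2 := (h1.log hn).const_mul (1 / 2 : ℝ)
  have e : (fun ζ : ℂ => Real.log ‖ζ‖) = fun ζ : ℂ => 1 / 2 * Real.log (‖ζ‖ ^ 2) := by
    ext w
    rw [Real.log_pow]
    push_cast
    ring
  rw [e]
  refine h2.congr_fderiv ?_
  refine ContinuousLinearMap.ext fun v => ?_
  have e1 : (ζ⁻¹ * v).re = (ζ.re * v.re + ζ.im * v.im) / ‖ζ‖ ^ 2 := by
    rw [Complex.mul_re, Complex.inv_re, Complex.inv_im, Complex.normSq_eq_norm_sq]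
    ring
  have e2 : (innerSL ℝ ζ) v = ζ.re * v.re + ζ.im * v.im := by
    rw [innerSL_apply_apply, Complex.inner]
    simp [Complex.mul_re]
    ring
  show (1 / 2 : ℝ) * ((‖ζ‖ ^ 2)⁻¹ * ((2 • (innerSL ℝ ζ)) v)) = (ζ⁻¹ * v).re
  have e3 : (2 • (innerSL ℝ ζ)) v = 2 * (innerSL ℝ ζ) v := by
    rw [two_smul, two_mul]; rfl
  rw [e3, e2, e1]
  field_simp

/-- the derivative of the logarithmic map -/
noncomputable def dl (y : C2) : C2 →L[ℝ] ℝ × ℝ :=
  ((Complex.reCLM.comp ((ContinuousLinearMap.mul ℝ ℂ) y.1⁻¹)).comp (ContinuousLinearMap.fst ℝ ℂ ℂ)).prod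
    ((Complex.reCLM.comp ((ContinuousLinearMap.mul ℝ ℂ) y.2⁻¹)).comp (ContinuousLinearMap.snd ℝ ℂ ℂ))

theorem dl_apply (y v : C2) : dl y v = ((y.1⁻¹ * v.1).re, (y.2⁻¹ * v.2).re) := rfl

theorem toric_ell {y : C2} (h1 : y.1 ≠ 0) (h2 : y.2 ≠ 0) :
    HasFDerivAt (fun w : C2 => (Real.log ‖w.1‖, Real.log ‖w.2‖)) (dl y) y :=
  ((toric_log_fderiv h1).comp y hasFDerivAt_fst).prodMk ((toric_log_fderiv h2).comp y hasFDerivAt_snd)

/-- derivative of `y ↦ dl y w` -/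
theorem toric_dl_deriv {y : C2} (h1 : y.1 ≠ 0) (h2 : y.2 ≠ 0) (w : C2) :
    ∃ A : C2 →L[ℝ] ℝ × ℝ, HasFDerivAt (fun y : C2 => dl y w) A y ∧
      ∀ v, A v = ((-(v.1 * w.1 / y.1 ^ 2)).re, (-(v.2 * w.2 / y.2 ^ 2)).re) := by
  have key : ∀ {ζ : ℂ}, ζ ≠ 0 → ∀ om : ℂ, ∃ A : ℂ →L[ℝ] ℝ, HasFDerivAt (fun ζ : ℂ => (ζ⁻¹ * om).re) A ζ ∧
      ∀ v, A v = (-(v * om / ζ ^ 2)).re := by
    intro ζ hζ om
    have h3 : HasDerivAt (fun ζ : ℂ => ζ⁻¹ * om) (-(ζ ^ 2)⁻¹ * om) ζ :=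
      (hasDerivAt_inv hζ).mul_const om
    have h4 := h3.hasFDerivAt.restrictScalars ℝ
    refine ⟨_, Complex.reCLM.hasFDerivAt.comp ζ h4, fun v => ?_⟩
    show (v * (-(ζ ^ 2)⁻¹ * om)).re = _
    congr 1
    ring
  obtain ⟨A1, hA1, hA1v⟩ := key h1 w.1
  obtain ⟨A2, hA2, hA2v⟩ := key h2 w.2
  refine ⟨(A1.comp (ContinuousLinearMap.fst ℝ ℂ ℂ)).prod (A2.comp (ContinuousLinearMap.snd ℝ ℂ ℂ)),
    (hA1.comp y hasFDerivAt_fst).prodMk (hA2.comp y hasFDerivAt_snd), fun v => ?_⟩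
  show (A1 v.1, A2 v.2) = _
  rw [hA1v, hA2v]

theorem toric_hess (f : ℝ × ℝ → ℝ) (u : C2 → ℝ) (z : C2) (h1 : z.1 ≠ 0) (h2 : z.2 ≠ 0)
    (hf : ContDiffAt ℝ 2 f (Real.log ‖z.1‖, Real.log ‖z.2‖))
    (hu : u =ᶠ[𝓝 z] fun w => f (Real.log ‖w.1‖, Real.log ‖w.2‖)) (v w : C2) :
    hess u z v w = hessR f (Real.log ‖z.1‖, Real.log ‖z.2‖) (dl z v) (dl z w) +
      fderiv ℝ f (Real.log ‖z.1‖, Real.log ‖z.2‖)
        ((-(v.1 * w.1 / z.1 ^ 2)).re, (-(v.2 * w.2 / z.2 ^ 2)).re) := by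
  set ell : C2 → ℝ × ℝ := fun w => (Real.log ‖w.1‖, Real.log ‖w.2‖) with hell
  have hez : ell z = (Real.log ‖z.1‖, Real.log ‖z.2‖) := rfl
  rw [← hez] at hf ⊢
  have hne : ∀ᶠ y in 𝓝 z, y.1 ≠ 0 ∧ y.2 ≠ 0 :=
    (continuous_fst.continuousAt.eventually_ne h1).and (continuous_snd.continuousAt.eventually_ne h2)
  have hellc : ContinuousAt ell z := (toric_ell h1 h2).continuousAt
  have hfd : ∀ᶠ y in 𝓝 z, DifferentiableAt ℝ f (ell y) := by
    have h3 : ∀ᶠ x in 𝓝 (ell z), ContDiffAt ℝ 2 f x := hf.eventually (by simp)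
    filter_upwards [hellc.eventually h3] with y hy
    exact hy.differentiableAt (by norm_num)
  have h4 : fderiv ℝ u =ᶠ[𝓝 z] fun y => (fderiv ℝ f (ell y)).comp (dl y) := by
    filter_upwards [hu.eventuallyEq_nhds, hne, hfd] with y hy hy' hyf
    rw [hy.fderiv_eq]
    exact (hyf.hasFDerivAt.comp y (toric_ell hy'.1 hy'.2)).fderiv
  have h5 : DifferentiableAt ℝ (fderiv ℝ f) (ell z) := by
    have := hf.fderiv_right (m := 1) (by norm_num)
    exact this.differentiableAt (by norm_num)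
  have h6 : HasFDerivAt (fun y => fderiv ℝ f (ell y)) ((fderiv ℝ (fderiv ℝ f) (ell z)).comp (dl z)) z :=
    h5.hasFDerivAt.comp z (toric_ell h1 h2)
  -- differentiability of dl
  have h7 : DifferentiableAt ℝ (fun y => dl y) z := by
    have hinv : ∀ {ζ : ℂ}, ζ ≠ 0 → DifferentiableAt ℝ (fun ζ : ℂ => ζ⁻¹) ζ := fun hζ =>
      (hasDerivAt_inv hζ).differentiableAt.restrictScalars ℝ
    have a1 : DifferentiableAt ℝ (fun y : C2 => y.1⁻¹) z :=
      (hinv h1).comp z differentiableAt_fst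
    have a2 : DifferentiableAt ℝ (fun y : C2 => y.2⁻¹) z :=
      (hinv h2).comp z differentiableAt_snd
    have b1 : DifferentiableAt ℝ (fun y : C2 => (Complex.reCLM.comp ((ContinuousLinearMap.mul ℝ ℂ) y.1⁻¹)).comp
        (ContinuousLinearMap.fst ℝ ℂ ℂ)) z := by
      apply DifferentiableAt.clm_comp _ (differentiableAt_const _)
      apply DifferentiableAt.clm_comp (differentiableAt_const _)
      exact (ContinuousLinearMap.mul ℝ ℂ).differentiableAt.comp z a1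
    have b2 : DifferentiableAt ℝ (fun y : C2 => (Complex.reCLM.comp ((ContinuousLinearMap.mul ℝ ℂ) y.2⁻¹)).comp
        (ContinuousLinearMap.snd ℝ ℂ ℂ)) z := by
      apply DifferentiableAt.clm_comp _ (differentiableAt_const _)
      apply DifferentiableAt.clm_comp (differentiableAt_const _)
      exact (ContinuousLinearMap.mul ℝ ℂ).differentiableAt.comp z a2
    have e : (fun y => dl y) = fun y : C2 => (ContinuousLinearMap.inl ℝ ℝ ℝ).comp
        ((Complex.reCLM.comp ((ContinuousLinearMap.mul ℝ ℂ) y.1⁻¹)).comp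
        (ContinuousLinearMap.fst ℝ ℂ ℂ)) + (ContinuousLinearMap.inr ℝ ℝ ℝ).comp
        ((Complex.reCLM.comp ((ContinuousLinearMap.mul ℝ ℂ) y.2⁻¹)).comp
        (ContinuousLinearMap.snd ℝ ℂ ℂ)) := by
      funext y
      refine ContinuousLinearMap.ext fun v => ?_
      rw [dl_apply]
      show _ = ((y.1⁻¹ * v.1).re, (0 : ℝ)) + ((0 : ℝ), (y.2⁻¹ * v.2).re)
      rw [Prod.mk_add_mk, add_zero, zero_add]
    rw [e]
    exact ((differentiableAt_const _).clm_comp b1).add ((differentiableAt_const _).clm_comp b2)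
  unfold hess
  rw [h4.fderiv_eq]
  have h8 : DifferentiableAt ℝ (fun y => (fderiv ℝ f (ell y)).comp (dl y)) z :=
    h6.differentiableAt.clm_comp h7
  have h9 : fderiv ℝ (fun y => (fderiv ℝ f (ell y)).comp (dl y)) z v w =
      fderiv ℝ (fun y => (fderiv ℝ f (ell y)) (dl y w)) z v := by
    have h10 := (h8.hasFDerivAt.clm_apply (hasFDerivAt_const w z)).fderiv
    have h11 : (fun y => ((fderiv ℝ f (ell y)).comp (dl y)) w) = fun y => (fderiv ℝ f (ell y)) (dl y w) := rfl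
    rw [← h11, h10]
    simp
  rw [h9]
  obtain ⟨A, hA, hAv⟩ := toric_dl_deriv h1 h2 w
  have h12 := (h6.clm_apply hA).fderiv
  rw [h12]
  simp only [_root_.add_apply, ContinuousLinearMap.comp_apply,
    ContinuousLinearMap.flip_apply]
  rw [hAv, add_comm]
  rfl

theorem hessR_smul (f : ℝ × ℝ → ℝ) (x : ℝ × ℝ) (a b c d : ℝ) :
    hessR f x (a, b) (c, d) = a * c * hessR f x (1, 0) (1, 0) + a * d * hessR f x (1, 0) (0, 1) +
      b * c * hessR f x (0, 1) (1, 0) + b * d * hessR f x (0, 1) (0, 1) := by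
  unfold hessR
  have e1 : ((a, b) : ℝ × ℝ) = a • ((1, 0) : ℝ × ℝ) + b • ((0, 1) : ℝ × ℝ) := by
    simp
  have e2 : ((c, d) : ℝ × ℝ) = c • ((1, 0) : ℝ × ℝ) + d • ((0, 1) : ℝ × ℝ) := by
    simp
  rw [e1, e2]
  simp only [map_add, map_smul, _root_.add_apply, _root_.smul_apply, smul_eq_mul]
  ring

/-- Monge-Ampere density of a torus invariant function -/
theorem maDensity_toric (f : ℝ × ℝ → ℝ) (u : C2 → ℝ) (z : C2) (h1 : z.1 ≠ 0) (h2 : z.2 ≠ 0)
    (hf : ContDiffAt ℝ 2 f (Real.log ‖z.1‖, Real.log ‖z.2‖))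
    (hu : u =ᶠ[𝓝 z] fun w => f (Real.log ‖w.1‖, Real.log ‖w.2‖)) :
    maDensity u z = detR f (Real.log ‖z.1‖, Real.log ‖z.2‖) /
      (2 * Real.pi ^ 2 * ‖z.1‖ ^ 2 * ‖z.2‖ ^ 2) := by
  have H := toric_hess f u z h1 h2 hf hu
  set x : ℝ × ℝ := (Real.log ‖z.1‖, Real.log ‖z.2‖) with hx
  set α : ℂ := z.1⁻¹ with hα
  set β : ℂ := z.2⁻¹ with hβ
  have d1 : ∀ t : ℂ, dl z (t, 0) = ((α * t).re, 0) := by
    intro t
    rw [dl_apply]
    simp [hα]
  have d2 : ∀ t : ℂ, dl z (0, t) = (0, (β * t).re) := by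
    intro t
    rw [dl_apply]
    simp [hβ]
  have a1 : (α * 1).re = α.re := by rw [mul_one]
  have a2 : (α * Complex.I).re = -α.im := by simp
  have b1 : (β * 1).re = β.re := by rw [mul_one]
  have b2 : (β * Complex.I).re = -β.im := by simp
  have hna : α.re ^ 2 + α.im ^ 2 = (‖z.1‖ ^ 2)⁻¹ := by
    have : Complex.normSq α = α.re ^ 2 + α.im ^ 2 := by rw [Complex.normSq_apply]; ring
    rw [← this, hα, map_inv₀, Complex.normSq_eq_norm_sq]
  have hnb : β.re ^ 2 + β.im ^ 2 = (‖z.2‖ ^ 2)⁻¹ := by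
    have : Complex.normSq β = β.re ^ 2 + β.im ^ 2 := by rw [Complex.normSq_apply]; ring
    rw [← this, hβ, map_inv₀, Complex.normSq_eq_norm_sq]
  have H1 : ∀ s t : ℂ, hess u z (s, 0) (t, 0) = (α * s).re * (α * t).re * hessR f x (1, 0) (1, 0) +
      fderiv ℝ f x ((-(s * t / z.1 ^ 2)).re, 0) := by
    intro s t
    rw [H, d1, d1, hessR_smul]
    simp
  have H2 : ∀ s t : ℂ, hess u z (0, s) (0, t) = (β * s).re * (β * t).re * hessR f x (0, 1) (0, 1) +
      fderiv ℝ f x (0, (-(s * t / z.2 ^ 2)).re) := by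
    intro s t
    rw [H, d2, d2, hessR_smul]
    simp
  have H12 : ∀ s t : ℂ, hess u z (s, 0) (0, t) =
      (α * s).re * (β * t).re * hessR f x (1, 0) (0, 1) := by
    intro s t
    rw [H, d1, d2, hessR_smul]
    simp
    exact map_zero _
  have k11 : 4 * h11 u z = (α.re ^ 2 + α.im ^ 2) * hessR f x (1, 0) (1, 0) := by
    unfold h11
    rw [H1, H1, a1, a2]
    have e : fderiv ℝ f x ((-((1 : ℂ) * 1 / z.1 ^ 2)).re, 0) +
        fderiv ℝ f x ((-(Complex.I * Complex.I / z.1 ^ 2)).re, 0) = 0 := by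
      rw [← map_add, Prod.mk_add_mk, Complex.I_mul_I]
      have : (-((1 : ℂ) * 1 / z.1 ^ 2)).re + (-(-1 / z.1 ^ 2)).re = 0 := by
        rw [← Complex.add_re]
        have : -((1 : ℂ) * 1 / z.1 ^ 2) + -(-1 / z.1 ^ 2) = 0 := by ring
        rw [this, Complex.zero_re]
      rw [this, add_zero]
      exact map_zero _
    linear_combination e
  have k22 : 4 * h22 u z = (β.re ^ 2 + β.im ^ 2) * hessR f x (0, 1) (0, 1) := by
    unfold h22
    rw [H2, H2, b1, b2]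
    have e : fderiv ℝ f x (0, (-((1 : ℂ) * 1 / z.2 ^ 2)).re) +
        fderiv ℝ f x (0, (-(Complex.I * Complex.I / z.2 ^ 2)).re) = 0 := by
      rw [← map_add, Prod.mk_add_mk, Complex.I_mul_I]
      have : (-((1 : ℂ) * 1 / z.2 ^ 2)).re + (-(-1 / z.2 ^ 2)).re = 0 := by
        rw [← Complex.add_re]
        have : -((1 : ℂ) * 1 / z.2 ^ 2) + -(-1 / z.2 ^ 2) = 0 := by ring
        rw [this, Complex.zero_re]
      rw [this, add_zero]
      exact map_zero _
    linear_combination e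
  have k12 : 4 * h12re u z = (α.re * β.re + α.im * β.im) * hessR f x (1, 0) (0, 1) := by
    unfold h12re
    rw [H12, H12, a1, a2, b1, b2]
    ring
  have l12 : 4 * h12im u z = (α.im * β.re - α.re * β.im) * hessR f x (1, 0) (0, 1) := by
    unfold h12im
    rw [H12, H12, a1, a2, b1, b2]
    ring
  have key : 16 * (h11 u z * h22 u z - h12re u z ^ 2 - h12im u z ^ 2) =
      (α.re ^ 2 + α.im ^ 2) * (β.re ^ 2 + β.im ^ 2) * detR f x := by
    have e1 : 16 * (h11 u z * h22 u z - h12re u z ^ 2 - h12im u z ^ 2) =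
        (4 * h11 u z) * (4 * h22 u z) - (4 * h12re u z) ^ 2 - (4 * h12im u z) ^ 2 := by ring
    rw [e1, k11, k22, k12, l12, detR]
    ring
  rw [hna, hnb] at key
  have hp1 : ‖z.1‖ ≠ 0 := norm_ne_zero_iff.2 h1
  have hp2 : ‖z.2‖ ≠ 0 := norm_ne_zero_iff.2 h2
  have e2 : h11 u z * h22 u z - h12re u z ^ 2 - h12im u z ^ 2 =
      ((‖z.1‖ ^ 2)⁻¹ * (‖z.2‖ ^ 2)⁻¹ * detR f x) / 16 := by linarith
  unfold maDensity
  rw [e2]
  field_simp
  ring

/-- one variable formula -/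
theorem lintegral_log_norm (g : ℝ → ENNReal) (hg : Measurable g) :
    ∫⁻ z : ℂ, g (Real.log ‖z‖) / ENNReal.ofReal (‖z‖ ^ 2) =
      ENNReal.ofReal (2 * Real.pi) * ∫⁻ x, g x := by
  rw [← Complex.lintegral_comp_polarCoord_symm]
  have h1 : ∀ p ∈ polarCoord.target, ENNReal.ofReal p.1 •
      (g (Real.log ‖Complex.polarCoord.symm p‖) / ENNReal.ofReal (‖Complex.polarCoord.symm p‖ ^ 2)) =
      g (Real.log p.1) / ENNReal.ofReal p.1 := by
    intro p hp
    rw [polarCoord_target] at hp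
    have hp1 : 0 < p.1 := hp.1
    rw [Complex.norm_polarCoord_symm, abs_of_pos hp1, smul_eq_mul, ENNReal.ofReal_pow hp1.le]
    have h0 : ENNReal.ofReal p.1 ≠ 0 := (ENNReal.ofReal_pos.2 hp1).ne'
    have ht : ENNReal.ofReal p.1 ≠ ⊤ := ENNReal.ofReal_ne_top
    rw [ENNReal.div_eq_inv_mul, ENNReal.div_eq_inv_mul, ← mul_assoc, sq, ENNReal.mul_inv (Or.inl h0) (Or.inl ht),
      ← mul_assoc, ENNReal.mul_inv_cancel h0 ht, one_mul]
  rw [setLIntegral_congr_fun polarCoord.open_target.measurableSet h1, polarCoord_target,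
    Measure.volume_eq_prod, ← Measure.prod_restrict]
  have hm : Measurable fun r : ℝ => g (Real.log r) / ENNReal.ofReal r :=
    (hg.comp Real.measurable_log).div ENNReal.measurable_ofReal
  have hm2 : Measurable fun x : ℝ × ℝ => g (Real.log x.1) / ENNReal.ofReal x.1 := hm.comp measurable_fst
  rw [lintegral_prod _ hm2.aemeasurable]
  simp only [lintegral_const, Measure.restrict_apply MeasurableSet.univ, univ_inter]
  rw [lintegral_mul_const _ hm, Real.volume_Ioo, mul_comm]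
  have e1 : Real.pi - -Real.pi = 2 * Real.pi := by ring
  rw [e1]
  congr 1
  have h2 := lintegral_image_eq_lintegral_abs_deriv_mul (s := univ) (f := Real.exp) (f' := Real.exp)
    MeasurableSet.univ (fun x _ => (Real.hasDerivAt_exp x).hasDerivWithinAt) Real.exp_injective.injOn
    (fun r => g (Real.log r) / ENNReal.ofReal r)
  rw [image_univ, Real.range_exp, Measure.restrict_univ] at h2
  rw [h2]
  congr 1
  ext x
  rw [abs_of_pos (Real.exp_pos x), Real.log_exp]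
  have h0 : ENNReal.ofReal (Real.exp x) ≠ 0 := (ENNReal.ofReal_pos.2 (Real.exp_pos x)).ne'
  exact ENNReal.mul_div_cancel h0 ENNReal.ofReal_ne_top

/-- integration of torus invariant functions in logarithmic coordinates -/
theorem lintegral_toric (G : ℝ × ℝ → ENNReal) (hG : Measurable G) (F : C2 → ENNReal)
    (hF : ∀ z : C2, z.1 ≠ 0 → z.2 ≠ 0 →
      F z = G (Real.log ‖z.1‖, Real.log ‖z.2‖) / ENNReal.ofReal (‖z.1‖ ^ 2 * ‖z.2‖ ^ 2)) :
    ∫⁻ z, F z = ENNReal.ofReal (4 * Real.pi ^ 2) * ∫⁻ x, G x := by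
  have hl : Measurable fun z : ℂ => Real.log ‖z‖ := Real.measurable_log.comp measurable_norm
  have hae : F =ᵐ[volume] fun z : C2 => (G (Real.log ‖z.1‖, Real.log ‖z.2‖) /
      ENNReal.ofReal (‖z.2‖ ^ 2)) / ENNReal.ofReal (‖z.1‖ ^ 2) := by
    have h1 : ∀ᵐ z : C2, z.1 ≠ 0 ∧ z.2 ≠ 0 := by
      have a1 : ∀ᵐ z : C2, z.1 ≠ 0 := by
        have : (Measure.map Prod.fst (volume : Measure C2)) = _ := rfl
        have hq : Measure.QuasiMeasurePreserving (Prod.fst : C2 → ℂ) volume volume :=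
          Measure.quasiMeasurePreserving_fst
        have h0 : ∀ᵐ x : ℂ, x ≠ 0 := by
          rw [ae_iff]
          simp
        exact hq.ae h0
      have a2 : ∀ᵐ z : C2, z.2 ≠ 0 := by
        have hq : Measure.QuasiMeasurePreserving (Prod.snd : C2 → ℂ) volume volume :=
          Measure.quasiMeasurePreserving_snd
        have h0 : ∀ᵐ x : ℂ, x ≠ 0 := by
          rw [ae_iff]
          simp
        exact hq.ae h0
      filter_upwards [a1, a2] with z h h' using ⟨h, h'⟩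
    filter_upwards [h1] with z hz
    rw [hF z hz.1 hz.2]
    have hp1 : 0 < ‖z.1‖ ^ 2 := by
      have := norm_pos_iff.2 hz.1
      positivity
    have hp2 : 0 < ‖z.2‖ ^ 2 := by
      have := norm_pos_iff.2 hz.2
      positivity
    rw [ENNReal.ofReal_mul hp1.le, ENNReal.div_eq_inv_mul, ENNReal.div_eq_inv_mul,
      ENNReal.div_eq_inv_mul, ENNReal.mul_inv (Or.inl (ENNReal.ofReal_pos.2 hp1).ne')
      (Or.inl ENNReal.ofReal_ne_top), mul_assoc]
  rw [lintegral_congr_ae hae, Measure.volume_eq_prod]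
  have hm : Measurable fun z : C2 => (G (Real.log ‖z.1‖, Real.log ‖z.2‖) /
      ENNReal.ofReal (‖z.2‖ ^ 2)) / ENNReal.ofReal (‖z.1‖ ^ 2) := by
    have m1 : Measurable fun z : C2 => G (Real.log ‖z.1‖, Real.log ‖z.2‖) :=
      hG.comp ((hl.comp measurable_fst).prodMk (hl.comp measurable_snd))
    have m2 : Measurable fun z : C2 => ENNReal.ofReal (‖z.2‖ ^ 2) := by fun_prop
    have m3 : Measurable fun z : C2 => ENNReal.ofReal (‖z.1‖ ^ 2) := by fun_prop
    exact (m1.div m2).div m3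
  rw [lintegral_prod _ hm.aemeasurable]
  have hin : ∀ x : ℂ, ∫⁻ y : ℂ, (G (Real.log ‖x‖, Real.log ‖y‖) / ENNReal.ofReal (‖y‖ ^ 2)) /
      ENNReal.ofReal (‖x‖ ^ 2) = (ENNReal.ofReal (2 * Real.pi) * ∫⁻ t, G (Real.log ‖x‖, t)) /
      ENNReal.ofReal (‖x‖ ^ 2) := by
    intro x
    have hgx : Measurable fun t => G (Real.log ‖x‖, t) := hG.comp measurable_prodMk_left
    rw [← lintegral_log_norm _ hgx]
    simp only [ENNReal.div_eq_inv_mul]
    rw [lintegral_const_mul]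
    have m1 : Measurable fun y : ℂ => G (Real.log ‖x‖, Real.log ‖y‖) := hgx.comp hl
    have m2 : Measurable fun y : ℂ => ENNReal.ofReal (‖y‖ ^ 2) := by fun_prop
    exact m2.inv.mul m1
  simp only [hin]
  have hgi : Measurable fun s : ℝ => ENNReal.ofReal (2 * Real.pi) * ∫⁻ t, G (s, t) :=
    (hG.lintegral_prod_right').const_mul _
  rw [lintegral_log_norm _ hgi, lintegral_const_mul _ hG.lintegral_prod_right', ← mul_assoc,
    ← ENNReal.ofReal_mul (by positivity), Measure.volume_eq_prod, lintegral_prod _ hG.aemeasurable]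
  congr 2
  ring

end Pool.Agent.H314.MA
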