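import Pool.Agent.H314.MA.UE
import Pool.Agent.H314.MA.PshA
import Pool.Agent.H314.MA.PshB
import Pool.Agent.H314.MA.Tor3
import Pool.Agent.H314.MA.Tor4

set_option autoImplicit false
open Set Filter Topology MeasureTheory
open scoped ContDiff ComplexConjugate

namespace Pool.Agent.H314.MA

theorem trunc_phi (j : ℕ) (z : C2) : trunc phi j z + pot z = V j z := by
  unfold trunc V
  have e : max ((U z - pot z : ℝ) : EReal) ((-(j : ℝ) : ℝ) : EReal) =
      ((max (U z - pot z) (-(j : ℝ)) : ℝ) : EReal) :=
    (EReal.coe_strictMono.monotone.map_max (a := U z - pot z) (b := -(j : ℝ))).symm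
  rw [phi_chart, e, EReal.toReal_coe, ← max_add_add_right]
  congr 1 <;> ring

theorem phi_gt (j : ℕ) (z : C2) :
    ((-(j : ℝ) : ℝ) : EReal) < phi (chart z) ↔ pot z - j < U z := by
  rw [phi_chart, EReal.coe_lt_coe_iff]
  constructor <;> intro h <;> linarith

/-- the Monge-Ampere measure of `φ` -/
noncomputable def nu : Measure C2 := volume.withDensity fun z => ENNReal.ofReal (dens z)

theorem dens_measurable : Measurable fun z => ENNReal.ofReal (dens z) :=
  (dens_contDiff.continuous.measurable).ennreal_ofReal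

theorem nonPluripolar_phi : IsNonPluripolar phi nu := by
  have hex : ∀ j : ℕ, ∃ μ : Measure C2, IsMongeAmpere (V j) μ :=
    fun j => isMongeAmpere_of (decreasesTo_V j) (V_continuous j)
  choose μ hμ using hex
  refine ⟨μ, ?_, ?_⟩
  · intro j
    have : (fun z => trunc phi j z + pot z) = V j := funext fun z => trunc_phi j z
    rw [this]; exact hμ j
  · intro B hB
    set G : ℕ → Set C2 := fun j => {z | ((-(j : ℝ) : ℝ) : EReal) < phi (chart z)} with hG
    have hGeq : ∀ j, G j = {z | pot z - j < U z} := fun j => by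
      ext z; exact phi_gt j z
    have hGo : ∀ j, MeasurableSet (G j) := by
      intro j
      rw [hGeq]
      exact (isOpen_lt (pot_contDiff.continuous.sub continuous_const) U_continuous).measurableSet
    have hmono : Monotone fun j => B ∩ G j := by
      intro i j hij
      apply Set.inter_subset_inter_right
      rw [hGeq, hGeq]
      intro z hz
      have : (i : ℝ) ≤ j := by exact_mod_cast hij
      simp only [Set.mem_ofPred_eq] at hz ⊢
      linarith
    have hunion : (⋃ j, B ∩ G j) = B := by
      rw [← Set.inter_iUnion]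
      apply Set.inter_eq_left.mpr
      intro z _
      obtain ⟨n, hn⟩ := exists_nat_gt (pot z - U z)
      rw [mem_iUnion]
      refine ⟨n, ?_⟩
      rw [hGeq]
      simp only [Set.mem_ofPred_eq]
      linarith
    have h1 : Tendsto (fun j => nu (B ∩ G j)) atTop (𝓝 (nu B)) := by
      have := tendsto_measure_iUnion_atTop (μ := nu) hmono
      rwa [hunion] at this
    refine h1.congr fun j => ?_
    rw [ma_V_eq j (μ j) (hμ j) (B ∩ G j) (hB.inter (hGo j)) (by
      intro z hz
      have := hz.2
      rw [hGeq] at this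
      exact this)]
    unfold nu
    rw [withDensity_apply _ (hB.inter (hGo j))]

/-! ### total masses -/

theorem mass_of_toric (f : ℝ × ℝ → ℝ) (hf : ContDiff ℝ ∞ f) (hpd : ∀ x ξ, ξ ≠ 0 → 0 < hessR f x ξ ξ)
    (hmass : ∫⁻ x, ENNReal.ofReal (detR f x) = ENNReal.ofReal (1 / 2)) (D : C2 → ℝ)
    (hD : ∀ z : C2, z.1 ≠ 0 → z.2 ≠ 0 → D z = detR f (Real.log ‖z.1‖, Real.log ‖z.2‖) /
      (2 * Real.pi ^ 2 * ‖z.1‖ ^ 2 * ‖z.2‖ ^ 2)) :
    ∫⁻ z, ENNReal.ofReal (D z) = 1 := by
  have hcont : Continuous (detR f) := by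
    have hfd : ContDiff ℝ ∞ (fderiv ℝ (fderiv ℝ f)) := by
      have h1 : ContDiff ℝ ∞ (fderiv ℝ f) := hf.fderiv_right (by norm_cast)
      exact h1.fderiv_right (by norm_cast)
    unfold detR hessR
    have := hfd.continuous
    fun_prop
  have hpos : ∀ x, 0 < detR f x := fun x => detR_pos f x (hf.contDiffAt.of_le (by norm_cast))
    (fun ξ hξ => hpd x ξ hξ)
  have h := lintegral_toric (fun x => ENNReal.ofReal (detR f x / (2 * Real.pi ^ 2)))
    ((hcont.div_const _).measurable.ennreal_ofReal) (fun z => ENNReal.ofReal (D z)) (by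
      intro z h1 h2
      have hn1 : 0 < ‖z.1‖ := norm_pos_iff.mpr h1
      have hn2 : 0 < ‖z.2‖ := norm_pos_iff.mpr h2
      rw [hD z h1 h2, ← ENNReal.ofReal_div_of_pos (by positivity)]
      congr 1
      field_simp)
  rw [h]
  have e : ∀ x, ENNReal.ofReal (detR f x / (2 * Real.pi ^ 2)) =
      ENNReal.ofReal (1 / (2 * Real.pi ^ 2)) * ENNReal.ofReal (detR f x) := by
    intro x
    rw [← ENNReal.ofReal_mul (by positivity)]
    congr 1; ring
  simp only [e]
  rw [lintegral_const_mul _ hcont.measurable.ennreal_ofReal, hmass,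
    ← ENNReal.ofReal_mul (by positivity), ← ENNReal.ofReal_mul (by positivity)]
  rw [← ENNReal.ofReal_one]
  congr 1
  have := Real.pi_pos
  field_simp
  ring

theorem nu_univ : nu univ = 1 := by
  unfold nu
  rw [withDensity_apply _ MeasurableSet.univ, Measure.restrict_univ]
  refine mass_of_toric R R_contDiff R_pd mass_R dens ?_
  intro z h1 h2
  unfold dens
  rw [if_neg h1]
  refine maDensity_toric R U z h1 h2 (R_contDiff.contDiffAt.of_le (by norm_cast)) ?_
  have hne2 : ∀ᶠ w : C2 in 𝓝 z, w.2 ≠ 0 :=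
    (continuous_snd.tendsto z).eventually (isOpen_ne.mem_nhds h2)
  filter_upwards [ne_nhds h1, hne2] with w hw1 hw2
  exact U_toric w hw1 hw2

theorem omegaSq_univ : omegaSq univ = 1 := by
  unfold omegaSq
  rw [withDensity_apply _ MeasurableSet.univ, Measure.restrict_univ]
  refine mass_of_toric rho rho_contDiff rho_pd mass_rho (maDensity pot) ?_
  intro z h1 h2
  refine maDensity_toric rho pot z h1 h2 (rho_contDiff.contDiffAt.of_le (by norm_cast)) ?_
  have hne2 : ∀ᶠ w : C2 in 𝓝 z, w.2 ≠ 0 :=
    (continuous_snd.tendsto z).eventually (isOpen_ne.mem_nhds h2)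
  filter_upwards [ne_nhds h1, hne2] with w hw1 hw2
  exact pot_toric w hw1 hw2

/-! ### the density with respect to `ω²` -/

theorem pot_dens_pos (z : C2) : 0 < maDensity pot z :=
  maDensity_pos pot z (pot_contDiff.contDiffAt.of_le (by norm_cast))
    fun w hw => levi_pot_pos z w hw

theorem pot_dens_contDiff : ContDiff ℝ ∞ (maDensity pot) :=
  contDiff_iff_contDiffAt.mpr fun z => contDiffAt_maDensity pot z pot_contDiff.contDiffAt

/-- the density `f` of `⟨(ω + dd^c φ)²⟩` with respect to `ω²` -/
noncomputable def ff (z : C2) : ℝ := dens z / maDensity pot z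

theorem ff_contDiff : ContDiff ℝ ∞ ff :=
  dens_contDiff.div pot_dens_contDiff fun z => (pot_dens_pos z).ne'

theorem ff_pos (z : C2) : 0 < ff z := div_pos (dens_pos z) (pot_dens_pos z)

theorem withDensity_ff : omegaSq.withDensity (fun z => ENNReal.ofReal (ff z)) = nu := by
  unfold omegaSq nu
  have hm1 : Measurable fun z => ENNReal.ofReal (maDensity pot z) :=
    pot_dens_contDiff.continuous.measurable.ennreal_ofReal
  have hm2 : Measurable fun z => ENNReal.ofReal (ff z) :=
    ff_contDiff.continuous.measurable.ennreal_ofReal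
  rw [← withDensity_mul _ hm1 hm2]
  congr 1
  funext z
  simp only [Pi.mul_apply]
  rw [← ENNReal.ofReal_mul (pot_dens_pos z).le]
  congr 1
  unfold ff
  have := (pot_dens_pos z).ne'
  field_simp

theorem ff_lintegral : ∫⁻ z, ENNReal.ofReal (ff z) ∂omegaSq = 1 := by
  have h : (omegaSq.withDensity (fun z => ENNReal.ofReal (ff z))) univ = nu univ := by
    rw [withDensity_ff]
  rw [withDensity_apply _ MeasurableSet.univ, Measure.restrict_univ, nu_univ] at h
  exact h

theorem ff_integrable : Integrable ff omegaSq := by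
  refine ⟨ff_contDiff.continuous.aestronglyMeasurable, ?_⟩
  rw [hasFiniteIntegral_iff_ofReal (Eventually.of_forall fun z => (ff_pos z).le), ff_lintegral]
  exact ENNReal.one_lt_top

theorem ff_integral : ∫ z, ff z ∂omegaSq = 1 := by
  rw [integral_eq_lintegral_of_nonneg_ae (Eventually.of_forall fun z => (ff_pos z).le)
    ff_contDiff.continuous.aestronglyMeasurable, ff_lintegral]
  simp

/-! ### failure of differentiability -/

theorem U_not_differentiable (b : ℂ) : ¬ DifferentiableAt ℝ U (0, b) := by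
  intro h
  set c : ℝ := 1 + ‖b‖ ^ 2 with hc
  have hc0 : 0 < c := one_add_sq_pos b
  have hline : DifferentiableAt ℝ (fun t : ℝ => (((t : ℂ), b) : C2)) 0 := by
    apply DifferentiableAt.prodMk
    · exact Complex.ofRealCLM.differentiableAt
    · exact differentiableAt_const _
  have h0 : ((((0 : ℝ) : ℂ), b) : C2) = (0, b) := by simp
  have h1 : DifferentiableAt ℝ (fun t : ℝ => U ((t : ℂ), b)) 0 := by
    apply DifferentiableAt.comp (g := U) (f := fun t : ℝ => (((t : ℂ), b) : C2)) 0 _ hline
    rw [h0]; exact h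
  have h2 : DifferentiableAt ℝ (fun t : ℝ => Real.sinh (4 * U ((t : ℂ), b)) / c) 0 :=
    (Real.differentiable_sinh.differentiableAt.comp (0 : ℝ) (h1.const_mul 4)).div_const c
  have hcont : Continuous fun t : ℝ => (((t : ℂ), b) : C2) :=
    Complex.continuous_ofReal.prodMk continuous_const
  have h3 : (fun t : ℝ => Real.sinh (4 * U ((t : ℂ), b)) / c) =ᶠ[𝓝 0] fun t => |t| := by
    have hn : NN ∈ 𝓝 ((0, b) : C2) := NN_open.mem_nhds (mem_NN _ rfl)
    have : ∀ᶠ t : ℝ in 𝓝 0, (((t : ℂ), b) : C2) ∈ NN := by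
      apply hcont.continuousAt.eventually_mem
      rw [h0]; exact hn
    filter_upwards [this] with t ht
    rw [(U_near _ ht).self_of_nhds]
    unfold u1
    simp only
    have e : 4 * (1 / 4 * Real.arsinh (‖(t : ℂ)‖ * (1 + ‖b‖ ^ 2))) =
        Real.arsinh (‖(t : ℂ)‖ * (1 + ‖b‖ ^ 2)) := by ring
    rw [e, Real.sinh_arsinh, Complex.norm_real, Real.norm_eq_abs, ← hc]
    field_simp
  exact not_differentiableAt_abs_zero (h2.congr_of_eventuallyEq h3.symm)

theorem phi_not_differentiable (b : ℂ) :
    ¬ DifferentiableAt ℝ (fun z : C2 => (phi (chart z)).toReal) (0, b) := by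
  intro h
  apply U_not_differentiable b
  have e : U = fun z : C2 => (phi (chart z)).toReal + pot z := by
    funext z
    rw [phi_chart, EReal.toReal_coe]; ring
  rw [e]
  exact h.add ((pot_contDiff.contDiffAt).differentiableAt (by norm_num))

/-! ### quasi-plurisubharmonicity -/

theorem coe_log_nrm_continuousAt (Z : C3) (hZ : Z ≠ 0) :
    ContinuousAt (fun Z : C3 => ((Real.log (nrm Z) : ℝ) : EReal)) Z := by
  have h1 : ContinuousAt nrm Z := by
    unfold nrm
    have : Continuous fun Z : C3 => Real.sqrt (‖Z 0‖ ^ 2 + ‖Z 1‖ ^ 2 + ‖Z 2‖ ^ 2) := by fun_prop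
    exact this.continuousAt
  exact continuous_coe_real_ereal.continuousAt.comp (h1.log (nrm_pos Z hZ).ne')

theorem psi_continuousAt (Z : C3) (hZ : Z ≠ 0) :
    ContinuousAt (fun Z : C3 => phi Z + ((Real.log (nrm Z) : ℝ) : EReal)) Z := by
  have h1 := phi_continuousAt U_continuous Z hZ
  have h2 := coe_log_nrm_continuousAt Z hZ
  have h3 : ContinuousAt (fun p : EReal × EReal => p.1 + p.2)
      (phi Z, ((Real.log (nrm Z) : ℝ) : EReal)) :=
    EReal.continuousAt_add (Or.inr (EReal.coe_ne_bot _)) (Or.inr (EReal.coe_ne_top _))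
  exact ContinuousAt.comp (f := fun Z : C3 => (phi Z, ((Real.log (nrm Z) : ℝ) : EReal)))
    h3 (h1.prodMk h2)

theorem isOmegaPsh_phi : IsOmegaPsh phi where
  homogeneous := fun c Z hc hZ => phi_homogeneous c Z hc hZ
  lt_top := fun Z _ => phi_lt_top Z
  ne_bot := by
    refine ⟨chart (0, 0), ?_, ?_⟩
    · intro h
      have := congrFun h 0
      simp [chart] at this
    · rw [phi_chart]; exact EReal.coe_ne_bot _
  usc := fun Z hZ a ha => (phi_continuousAt U_continuous Z hZ).eventually (gt_mem_nhds ha)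
  submean := by
    intro Z W hZW g hg hle
    exact submean_of_toric (fun Z : C3 => phi Z + ((Real.log (nrm Z) : ℝ) : EReal))
      psi_continuousAt R (R_contDiff.of_le (by norm_cast))
      (fun x ξ => by
        by_cases hξ : ξ = 0
        · subst hξ; unfold hessR; simp
        · exact (R_pd x ξ hξ).le)
      (fun x => ⟨(R_grad x).1.le, (R_grad x).2.1.le, (R_grad x).2.2.le⟩)
      psi_toric Z W hZW g hg hle

end Pool.Agent.H314.MA
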