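import Pool.Agent.H314.MA.Defs

set_option autoImplicit false
open Set Filter Topology MeasureTheory
open scoped ContDiff ComplexConjugate

namespace Pool.Agent.H314.MA

/-- directional derivative -/
noncomputable def ibD (v : C2) (f : C2 → ℝ) : C2 → ℝ := fun z => fderiv ℝ f z v

theorem ibD_smooth {f : C2 → ℝ} (hf : ContDiff ℝ ∞ f) (v : C2) : ContDiff ℝ ∞ (ibD v f) :=
  (hf.fderiv_right (m := ∞) (by simp)).clm_apply contDiff_const

theorem ibD_hess {f : C2 → ℝ} (hf : ContDiff ℝ ∞ f) (z a b : C2) :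
    hess f z a b = ibD a (ibD b f) z := by
  have h1 : DifferentiableAt ℝ (fderiv ℝ f) z :=
    ((hf.fderiv_right (m := ∞) (by simp)).differentiable (by simp)) z
  have h2 : HasFDerivAt (fun y => fderiv ℝ f y b) ((fderiv ℝ (fderiv ℝ f) z).flip b) z := by
    have h3 := h1.hasFDerivAt.clm_apply (hasFDerivAt_const b z)
    simpa using h3
  unfold hess ibD
  rw [h2.fderiv]
  rfl

theorem ibD_comm {f : C2 → ℝ} (hf : ContDiff ℝ ∞ f) (a b : C2) :
    ibD a (ibD b f) = ibD b (ibD a f) := by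
  funext z
  rw [← ibD_hess hf, ← ibD_hess hf]
  unfold hess
  have h2 : ((2 : ℕ∞) : WithTop ℕ∞) ≤ ((⊤ : ℕ∞) : WithTop ℕ∞) := WithTop.coe_le_coe.2 le_top
  exact (hf.contDiffAt.isSymmSndFDerivAt (by simp; exact h2)).eq a b

theorem ibD_mul {f g : C2 → ℝ} (hf : ContDiff ℝ ∞ f) (hg : ContDiff ℝ ∞ g) (v z : C2) :
    ibD v (fun z => f z * g z) z = ibD v f z * g z + f z * ibD v g z := by
  unfold ibD
  have h1 : DifferentiableAt ℝ f z := hf.differentiable (by simp) z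
  have h2 : DifferentiableAt ℝ g z := hg.differentiable (by simp) z
  rw [fderiv_fun_mul h1 h2]
  simp
  ring

theorem ibD_add {f g : C2 → ℝ} (hf : ContDiff ℝ ∞ f) (hg : ContDiff ℝ ∞ g) (v z : C2) :
    ibD v (fun z => f z + g z) z = ibD v f z + ibD v g z := by
  unfold ibD
  have h1 : DifferentiableAt ℝ f z := hf.differentiable (by simp) z
  have h2 : DifferentiableAt ℝ g z := hg.differentiable (by simp) z
  rw [fderiv_fun_add h1 h2]
  simp

theorem ibD_sub {f g : C2 → ℝ} (hf : ContDiff ℝ ∞ f) (hg : ContDiff ℝ ∞ g) (v z : C2) :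
    ibD v (fun z => f z - g z) z = ibD v f z - ibD v g z := by
  unfold ibD
  have h1 : DifferentiableAt ℝ f z := hf.differentiable (by simp) z
  have h2 : DifferentiableAt ℝ g z := hg.differentiable (by simp) z
  rw [fderiv_fun_sub h1 h2]
  simp

theorem ibD_cs {f : C2 → ℝ} (hf : HasCompactSupport f) (v : C2) : HasCompactSupport (ibD v f) :=
  hf.fderiv_apply ℝ v

theorem ibD_int {F : C2 → ℝ} (hF : ContDiff ℝ ∞ F) (hc : HasCompactSupport F) (v : C2) :
    Integrable (ibD v F) :=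
  (ibD_smooth hF v).continuous.integrable_of_hasCompactSupport (ibD_cs hc v)

theorem ibD_integral {F : C2 → ℝ} (hF : ContDiff ℝ ∞ F) (hc : HasCompactSupport F) (v : C2) :
    ∫ z, ibD v F z = 0 := by
  have hH : (volume : Measure C2).IsAddHaarMeasure :=
    inferInstanceAs ((volume : Measure ℂ).prod (volume : Measure ℂ)).IsAddHaarMeasure
  have h := integral_mul_fderiv_eq_neg_fderiv_mul_of_integrable (μ := (volume : Measure C2))
    (f := fun _ : C2 => (1 : ℝ)) (g := F) (v := v) (by simp)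
    (by simp only [one_mul]; exact ibD_int hF hc v)
    (by simpa using hF.continuous.integrable_of_hasCompactSupport hc)
    (fun x _ => differentiableAt_const _) (fun x _ => hF.differentiable (by simp) x)
  simpa [ibD] using h

/-- the antisymmetrised first order term -/
noncomputable def ibG (w χ : C2 → ℝ) (b : C2) : C2 → ℝ := fun z => χ z * ibD b w z - w z * ibD b χ z

theorem ibG_smooth {w χ : C2 → ℝ} (hw : ContDiff ℝ ∞ w) (hχ : ContDiff ℝ ∞ χ) (b : C2) :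
    ContDiff ℝ ∞ (ibG w χ b) :=
  (hχ.mul (ibD_smooth hw b)).sub (hw.mul (ibD_smooth hχ b))

theorem ibG_cs {w χ : C2 → ℝ} (hc : HasCompactSupport χ) (b : C2) :
    HasCompactSupport (ibG w χ b) := by
  have h1 : HasCompactSupport (fun z => χ z * ibD b w z) := hc.mul_right
  have h2 : HasCompactSupport (fun z => w z * ibD b χ z) := (ibD_cs hc b).mul_left
  exact h1.sub h2

theorem ibG_D {w χ : C2 → ℝ} (hw : ContDiff ℝ ∞ w) (hχ : ContDiff ℝ ∞ χ) (a b z : C2) :
    ibD a (ibG w χ b) z = ibD a χ z * ibD b w z + χ z * ibD a (ibD b w) z -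
      (ibD a w z * ibD b χ z + w z * ibD a (ibD b χ) z) := by
  unfold ibG
  rw [ibD_sub (hχ.mul (ibD_smooth hw b)) (hw.mul (ibD_smooth hχ b)),
    ibD_mul hχ (ibD_smooth hw b), ibD_mul hw (ibD_smooth hχ b)]

/-- divergence of `G T` -/
theorem ibGT_D {w χ T : C2 → ℝ} (hw : ContDiff ℝ ∞ w) (hχ : ContDiff ℝ ∞ χ) (hT : ContDiff ℝ ∞ T)
    (a b z : C2) :
    ibD a (fun z => ibG w χ b z * T z) z =
      (ibD a χ z * ibD b w z + χ z * ibD a (ibD b w) z -
      (ibD a w z * ibD b χ z + w z * ibD a (ibD b χ) z)) * T z + ibG w χ b z * ibD a T z := by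
  rw [ibD_mul (ibG_smooth hw hχ b) hT, ibG_D hw hχ]

theorem ibGT_smooth {w χ T : C2 → ℝ} (hw : ContDiff ℝ ∞ w) (hχ : ContDiff ℝ ∞ χ)
    (hT : ContDiff ℝ ∞ T) (b : C2) : ContDiff ℝ ∞ (fun z => ibG w χ b z * T z) :=
  (ibG_smooth hw hχ b).mul hT

theorem ibGT_cs {w χ T : C2 → ℝ} (hc : HasCompactSupport χ) (b : C2) :
    HasCompactSupport (fun z => ibG w χ b z * T z) := (ibG_cs hc b).mul_right

theorem ibGT_integral {w χ T : C2 → ℝ} (hw : ContDiff ℝ ∞ w) (hχ : ContDiff ℝ ∞ χ)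
    (hT : ContDiff ℝ ∞ T) (hc : HasCompactSupport χ) (a b : C2) :
    ∫ z, ibD a (fun z => ibG w χ b z * T z) z = 0 :=
  ibD_integral (ibGT_smooth hw hχ hT b) (ibGT_cs hc b) a

theorem ibGT_int {w χ T : C2 → ℝ} (hw : ContDiff ℝ ∞ w) (hχ : ContDiff ℝ ∞ χ)
    (hT : ContDiff ℝ ∞ T) (hc : HasCompactSupport χ) (a b : C2) :
    Integrable (ibD a (fun z => ibG w χ b z * T z)) :=
  ibD_int (ibGT_smooth hw hχ hT b) (ibGT_cs hc b) a

/-- integration by parts for the mixed complex Monge-Ampere form -/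
theorem integral_mixed (w s χ : C2 → ℝ) (hw : ContDiff ℝ ∞ w) (hs : ContDiff ℝ ∞ s)
    (hχ : ContDiff ℝ ∞ χ) (hc : HasCompactSupport χ) :
    ∫ z, χ z * mixed w s z = ∫ z, w z * mixed χ s z := by
  obtain ⟨e1, he1⟩ : ∃ e : C2, e = (1, 0) := ⟨_, rfl⟩
  obtain ⟨e2, he2⟩ : ∃ e : C2, e = (Complex.I, 0) := ⟨_, rfl⟩
  obtain ⟨e3, he3⟩ : ∃ e : C2, e = (0, 1) := ⟨_, rfl⟩
  obtain ⟨e4, he4⟩ : ∃ e : C2, e = (0, Complex.I) := ⟨_, rfl⟩
  -- second derivatives
  have hmix : ∀ u : C2 → ℝ, ContDiff ℝ ∞ u → ∀ z, mixed u s z =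
      ((ibD e1 (ibD e1 u) z + ibD e2 (ibD e2 u) z) / 4) *
        ((ibD e3 (ibD e3 s) z + ibD e4 (ibD e4 s) z) / 4) +
      ((ibD e3 (ibD e3 u) z + ibD e4 (ibD e4 u) z) / 4) *
        ((ibD e1 (ibD e1 s) z + ibD e2 (ibD e2 s) z) / 4) -
      2 * (((ibD e1 (ibD e3 u) z + ibD e2 (ibD e4 u) z) / 4) *
        ((ibD e1 (ibD e3 s) z + ibD e2 (ibD e4 s) z) / 4) +
        ((ibD e1 (ibD e4 u) z - ibD e2 (ibD e3 u) z) / 4) *
        ((ibD e1 (ibD e4 s) z - ibD e2 (ibD e3 s) z) / 4)) := by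
    intro u hu z
    unfold mixed h11 h22 h12re h12im
    rw [← he1, ← he2, ← he3, ← he4]
    simp only [ibD_hess hu, ibD_hess hs]
  -- coefficients
  have D2 : ∀ a b : C2, ContDiff ℝ ∞ (ibD a (ibD b s)) := fun a b =>
    ibD_smooth (ibD_smooth hs b) a
  obtain ⟨T1, hT1⟩ : ∃ T : C2 → ℝ, T = fun z => ibD e3 (ibD e3 s) z + ibD e4 (ibD e4 s) z :=
    ⟨_, rfl⟩
  obtain ⟨T3, hT3⟩ : ∃ T : C2 → ℝ, T = fun z => ibD e1 (ibD e1 s) z + ibD e2 (ibD e2 s) z :=
    ⟨_, rfl⟩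
  obtain ⟨R, hR⟩ : ∃ T : C2 → ℝ, T = fun z => ibD e1 (ibD e3 s) z + ibD e2 (ibD e4 s) z :=
    ⟨_, rfl⟩
  obtain ⟨I, hI⟩ : ∃ T : C2 → ℝ, T = fun z => ibD e1 (ibD e4 s) z - ibD e2 (ibD e3 s) z :=
    ⟨_, rfl⟩
  have sT1 : ContDiff ℝ ∞ T1 := by rw [hT1]; exact (D2 e3 e3).add (D2 e4 e4)
  have sT3 : ContDiff ℝ ∞ T3 := by rw [hT3]; exact (D2 e1 e1).add (D2 e2 e2)
  have sR : ContDiff ℝ ∞ R := by rw [hR]; exact (D2 e1 e3).add (D2 e2 e4)
  have sI : ContDiff ℝ ∞ I := by rw [hI]; exact (D2 e1 e4).sub (D2 e2 e3)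
  have dT1 : ∀ a z, ibD a T1 z = ibD a (ibD e3 (ibD e3 s)) z + ibD a (ibD e4 (ibD e4 s)) z := by
    intro a z
    rw [hT1]
    exact ibD_add (D2 e3 e3) (D2 e4 e4) a z
  have dT3 : ∀ a z, ibD a T3 z = ibD a (ibD e1 (ibD e1 s)) z + ibD a (ibD e2 (ibD e2 s)) z := by
    intro a z
    rw [hT3]
    exact ibD_add (D2 e1 e1) (D2 e2 e2) a z
  have dR : ∀ a z, ibD a R z = ibD a (ibD e1 (ibD e3 s)) z + ibD a (ibD e2 (ibD e4 s)) z := by
    intro a z
    rw [hR]
    exact ibD_add (D2 e1 e3) (D2 e2 e4) a z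
  have dI : ∀ a z, ibD a I z = ibD a (ibD e1 (ibD e4 s)) z - ibD a (ibD e2 (ibD e3 s)) z := by
    intro a z
    rw [hI]
    exact ibD_sub (D2 e1 e4) (D2 e2 e3) a z
  -- symmetry of third derivatives
  have c12 : ∀ (a b c : C2) (z : C2), ibD a (ibD b (ibD c s)) z = ibD b (ibD a (ibD c s)) z :=
    fun a b c z => congrFun (ibD_comm (ibD_smooth hs c) a b) z
  have c23 : ∀ (a b c : C2) (z : C2), ibD a (ibD b (ibD c s)) z = ibD a (ibD c (ibD b s)) z := by
    intro a b c z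
    rw [ibD_comm hs b c]
  have div1 : ∀ z, ibD e1 T1 z - ibD e3 R z - ibD e4 I z = 0 := by
    intro z
    rw [dT1, dR, dI, c12 e3 e1 e3 z, c12 e4 e1 e4 z, c12 e3 e2 e4 z, c12 e4 e2 e3 z,
      c23 e2 e3 e4 z]
    ring
  have div2 : ∀ z, ibD e2 T1 z - ibD e4 R z + ibD e3 I z = 0 := by
    intro z
    rw [dT1, dR, dI, c12 e4 e1 e3 z, c12 e4 e2 e4 z, c12 e3 e1 e4 z, c12 e3 e2 e3 z,
      c23 e1 e3 e4 z]
    ring
  have div3 : ∀ z, ibD e3 T3 z - ibD e1 R z + ibD e2 I z = 0 := by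
    intro z
    rw [dT3, dR, dI, c12 e3 e1 e1 z, c23 e1 e3 e1 z, c12 e3 e2 e2 z, c23 e2 e3 e2 z,
      c12 e2 e1 e4 z]
    ring
  have div4 : ∀ z, ibD e4 T3 z - ibD e2 R z - ibD e1 I z = 0 := by
    intro z
    rw [dT3, dR, dI, c12 e4 e1 e1 z, c23 e1 e4 e1 z, c12 e4 e2 e2 z, c23 e2 e4 e2 z,
      c12 e2 e1 e3 z]
    ring
  have cw : ∀ (a b : C2) (z : C2), ibD a (ibD b w) z = ibD b (ibD a w) z :=
    fun a b z => congrFun (ibD_comm hw a b) z
  have cχ : ∀ (a b : C2) (z : C2), ibD a (ibD b χ) z = ibD b (ibD a χ) z :=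
    fun a b z => congrFun (ibD_comm hχ a b) z
  -- the pointwise identity
  have key : ∀ z, χ z * mixed w s z - w z * mixed χ s z = (1 / 16) *
      (ibD e1 (fun z => ibG w χ e1 z * T1 z) z - ibD e1 (fun z => ibG w χ e3 z * R z) z
        - ibD e1 (fun z => ibG w χ e4 z * I z) z
      + ibD e2 (fun z => ibG w χ e2 z * T1 z) z - ibD e2 (fun z => ibG w χ e4 z * R z) z
        + ibD e2 (fun z => ibG w χ e3 z * I z) z
      + ibD e3 (fun z => ibG w χ e3 z * T3 z) z - ibD e3 (fun z => ibG w χ e1 z * R z) z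
        + ibD e3 (fun z => ibG w χ e2 z * I z) z
      + ibD e4 (fun z => ibG w χ e4 z * T3 z) z - ibD e4 (fun z => ibG w χ e2 z * R z) z
        - ibD e4 (fun z => ibG w χ e1 z * I z) z) := by
    intro z
    rw [hmix w hw, hmix χ hχ]
    simp only [ibGT_D hw hχ sT1, ibGT_D hw hχ sT3, ibGT_D hw hχ sR, ibGT_D hw hχ sI]
    rw [cw e3 e1 z, cw e4 e1 z, cw e4 e2 z, cw e3 e2 z, cχ e3 e1 z, cχ e4 e1 z, cχ e4 e2 z,
      cχ e3 e2 z]
    have t1 : T1 z = ibD e3 (ibD e3 s) z + ibD e4 (ibD e4 s) z := by rw [hT1]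
    have t3 : T3 z = ibD e1 (ibD e1 s) z + ibD e2 (ibD e2 s) z := by rw [hT3]
    have tR : R z = ibD e1 (ibD e3 s) z + ibD e2 (ibD e4 s) z := by rw [hR]
    have tI : I z = ibD e1 (ibD e4 s) z - ibD e2 (ibD e3 s) z := by rw [hI]
    rw [t1, t3, tR, tI]
    linear_combination (-(1 / 16) * ibG w χ e1 z) * div1 z - (1 / 16) * ibG w χ e2 z * div2 z
      - (1 / 16) * ibG w χ e3 z * div3 z - (1 / 16) * ibG w χ e4 z * div4 z
  have i1 := ibGT_int hw hχ sT1 hc e1 e1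
  have i2 := ibGT_int hw hχ sR hc e1 e3
  have i3 := ibGT_int hw hχ sI hc e1 e4
  have i4 := ibGT_int hw hχ sT1 hc e2 e2
  have i5 := ibGT_int hw hχ sR hc e2 e4
  have i6 := ibGT_int hw hχ sI hc e2 e3
  have i7 := ibGT_int hw hχ sT3 hc e3 e3
  have i8 := ibGT_int hw hχ sR hc e3 e1
  have i9 := ibGT_int hw hχ sI hc e3 e2
  have i10 := ibGT_int hw hχ sT3 hc e4 e4
  have i11 := ibGT_int hw hχ sR hc e4 e2
  have i12 := ibGT_int hw hχ sI hc e4 e1
  have z1 := ibGT_integral hw hχ sT1 hc e1 e1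
  have z2 := ibGT_integral hw hχ sR hc e1 e3
  have z3 := ibGT_integral hw hχ sI hc e1 e4
  have z4 := ibGT_integral hw hχ sT1 hc e2 e2
  have z5 := ibGT_integral hw hχ sR hc e2 e4
  have z6 := ibGT_integral hw hχ sI hc e2 e3
  have z7 := ibGT_integral hw hχ sT3 hc e3 e3
  have z8 := ibGT_integral hw hχ sR hc e3 e1
  have z9 := ibGT_integral hw hχ sI hc e3 e2
  have z10 := ibGT_integral hw hχ sT3 hc e4 e4
  have z11 := ibGT_integral hw hχ sR hc e4 e2
  have z12 := ibGT_integral hw hχ sI hc e4 e1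
  -- integrability
  have hcont : ∀ u : C2 → ℝ, ContDiff ℝ ∞ u → Continuous (fun z => mixed u s z) := by
    intro u hu
    have hD : ∀ a b : C2, Continuous (ibD a (ibD b u)) := fun a b =>
      (ibD_smooth (ibD_smooth hu b) a).continuous
    have hDs : ∀ a b : C2, Continuous (ibD a (ibD b s)) := fun a b => (D2 a b).continuous
    simp only [hmix u hu]
    exact ((((hD e1 e1).add (hD e2 e2)).div_const 4).mul
      (((hDs e3 e3).add (hDs e4 e4)).div_const 4)).add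
      ((((hD e3 e3).add (hD e4 e4)).div_const 4).mul
      (((hDs e1 e1).add (hDs e2 e2)).div_const 4)) |>.sub
      (continuous_const.mul (((((hD e1 e3).add (hD e2 e4)).div_const 4).mul
        (((hDs e1 e3).add (hDs e2 e4)).div_const 4)).add
        ((((hD e1 e4).sub (hD e2 e3)).div_const 4).mul
        (((hDs e1 e4).sub (hDs e2 e3)).div_const 4))))
  have hI1 : Integrable (fun z => χ z * mixed w s z) :=
    (hχ.continuous.mul (hcont w hw)).integrable_of_hasCompactSupport hc.mul_right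
  obtain ⟨S, hS⟩ : ∃ S : C2 → ℝ, S = fun z => (1 / 16) *
      (ibD e1 (fun z => ibG w χ e1 z * T1 z) z - ibD e1 (fun z => ibG w χ e3 z * R z) z
        - ibD e1 (fun z => ibG w χ e4 z * I z) z
      + ibD e2 (fun z => ibG w χ e2 z * T1 z) z - ibD e2 (fun z => ibG w χ e4 z * R z) z
        + ibD e2 (fun z => ibG w χ e3 z * I z) z
      + ibD e3 (fun z => ibG w χ e3 z * T3 z) z - ibD e3 (fun z => ibG w χ e1 z * R z) z
        + ibD e3 (fun z => ibG w χ e2 z * I z) z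
      + ibD e4 (fun z => ibG w χ e4 z * T3 z) z - ibD e4 (fun z => ibG w χ e2 z * R z) z
        - ibD e4 (fun z => ibG w χ e1 z * I z) z) := ⟨_, rfl⟩
  have hSi : Integrable S := by
    rw [hS]
    exact (((((((((((i1.sub i2).sub i3).add i4).sub i5).add i6).add i7).sub i8).add i9).add
      i10).sub i11).sub i12).const_mul _
  have hS0 : ∫ z, S z = 0 := by
    rw [hS]
    simp only
    rw [integral_const_mul]
    have j2 := i1.sub i2
    have j3 := j2.sub i3
    have j4 := j3.add i4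
    have j5 := j4.sub i5
    have j6 := j5.add i6
    have j7 := j6.add i7
    have j8 := j7.sub i8
    have j9 := j8.add i9
    have j10 := j9.add i10
    have j11 := j10.sub i11
    have k12 := integral_sub j11 i12
    have k11 := integral_sub j10 i11
    have k10 := integral_add j9 i10
    have k9 := integral_add j8 i9
    have k8 := integral_sub j7 i8
    have k7 := integral_add j6 i7
    have k6 := integral_add j5 i6
    have k5 := integral_sub j4 i5
    have k4 := integral_add j3 i4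
    have k3 := integral_sub j2 i3
    have k2 := integral_sub i1 i2
    simp only [Pi.sub_apply, Pi.add_apply] at k2 k3 k4 k5 k6 k7 k8 k9 k10 k11 k12
    rw [k12, k11, k10, k9, k8, k7, k6, k5, k4, k3, k2, z1, z2, z3, z4, z5, z6, z7, z8, z9, z10,
      z11, z12]
    norm_num
  have hkey' : (fun z => w z * mixed χ s z) = fun z => χ z * mixed w s z - S z := by
    funext z
    rw [hS]
    have := key z
    simp only
    linarith
  rw [hkey', integral_sub hI1 hSi, hS0, sub_zero]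

/-- integration by parts for the Laplacian -/
theorem integral_trace (s χ : C2 → ℝ) (hs : ContDiff ℝ ∞ s)
    (hχ : ContDiff ℝ ∞ χ) (hc : HasCompactSupport χ) :
    ∫ z, χ z * (h11 s z + h22 s z) = ∫ z, s z * (h11 χ z + h22 χ z) := by
  obtain ⟨e1, he1⟩ : ∃ e : C2, e = (1, 0) := ⟨_, rfl⟩
  obtain ⟨e2, he2⟩ : ∃ e : C2, e = (Complex.I, 0) := ⟨_, rfl⟩
  obtain ⟨e3, he3⟩ : ∃ e : C2, e = (0, 1) := ⟨_, rfl⟩
  obtain ⟨e4, he4⟩ : ∃ e : C2, e = (0, Complex.I) := ⟨_, rfl⟩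
  have hlap : ∀ u : C2 → ℝ, ContDiff ℝ ∞ u → ∀ z, h11 u z + h22 u z =
      (ibD e1 (ibD e1 u) z + ibD e2 (ibD e2 u) z) / 4 +
      (ibD e3 (ibD e3 u) z + ibD e4 (ibD e4 u) z) / 4 := by
    intro u hu z
    unfold h11 h22
    rw [← he1, ← he2, ← he3, ← he4]
    simp only [ibD_hess hu]
  have key : ∀ z, χ z * (h11 s z + h22 s z) - s z * (h11 χ z + h22 χ z) = (1 / 4) *
      (ibD e1 (ibG s χ e1) z + ibD e2 (ibG s χ e2) z + ibD e3 (ibG s χ e3) z
        + ibD e4 (ibG s χ e4) z) := by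
    intro z
    rw [hlap s hs, hlap χ hχ, ibG_D hs hχ, ibG_D hs hχ, ibG_D hs hχ, ibG_D hs hχ]
    ring
  have hg := fun b => ibG_smooth hs hχ b
  have hgc : ∀ b, HasCompactSupport (ibG s χ b) := fun b => ibG_cs hc b
  have i1 := ibD_int (hg e1) (hgc e1) e1
  have i2 := ibD_int (hg e2) (hgc e2) e2
  have i3 := ibD_int (hg e3) (hgc e3) e3
  have i4 := ibD_int (hg e4) (hgc e4) e4
  have z1 := ibD_integral (hg e1) (hgc e1) e1
  have z2 := ibD_integral (hg e2) (hgc e2) e2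
  have z3 := ibD_integral (hg e3) (hgc e3) e3
  have z4 := ibD_integral (hg e4) (hgc e4) e4
  have hcont : Continuous (fun z => h11 s z + h22 s z) := by
    have hD : ∀ a b : C2, Continuous (ibD a (ibD b s)) := fun a b =>
      (ibD_smooth (ibD_smooth hs b) a).continuous
    simp only [hlap s hs]
    exact (((hD e1 e1).add (hD e2 e2)).div_const 4).add (((hD e3 e3).add (hD e4 e4)).div_const 4)
  have hI1 : Integrable (fun z => χ z * (h11 s z + h22 s z)) :=
    (hχ.continuous.mul hcont).integrable_of_hasCompactSupport hc.mul_right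
  obtain ⟨S, hS⟩ : ∃ S : C2 → ℝ, S = fun z => (1 / 4) *
      (ibD e1 (ibG s χ e1) z + ibD e2 (ibG s χ e2) z + ibD e3 (ibG s χ e3) z
        + ibD e4 (ibG s χ e4) z) := ⟨_, rfl⟩
  have hSi : Integrable S := by
    rw [hS]
    exact (((i1.add i2).add i3).add i4).const_mul _
  have hS0 : ∫ z, S z = 0 := by
    rw [hS]
    simp only
    rw [integral_const_mul]
    have j2 := i1.add i2
    have j3 := j2.add i3
    have k4 := integral_add j3 i4
    have k3 := integral_add j2 i3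
    have k2 := integral_add i1 i2
    simp only [Pi.add_apply] at k2 k3 k4
    rw [k4, k3, k2, z1, z2, z3, z4]
    norm_num
  have hkey' : (fun z => s z * (h11 χ z + h22 χ z)) =
      fun z => χ z * (h11 s z + h22 s z) - S z := by
    funext z
    rw [hS]
    have := key z
    simp only
    linarith
  rw [hkey', integral_sub hI1 hSi, hS0, sub_zero]

end Pool.Agent.H314.MA
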