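import Pool.Agent.H314.MA.UE
import Pool.Agent.H314.MA.PshA
import Pool.Agent.H314.MA.Tor3
import Pool.Agent.H314.MA.Tor4

set_option autoImplicit false
open Set Filter Topology MeasureTheory
open scoped ContDiff

namespace Pool.Agent.H314.MA

theorem j6765_hessR_lin {a b : ℝ × ℝ → ℝ} {f : ℝ × ℝ → ℝ}
    (h : ∀ x, HasFDerivAt f (a x • ContinuousLinearMap.fst ℝ ℝ ℝ
      + b x • ContinuousLinearMap.snd ℝ ℝ ℝ) x) (x v w : ℝ × ℝ)
    {a' b' : ℝ × ℝ →L[ℝ] ℝ} (ha : HasFDerivAt a a' x) (hb : HasFDerivAt b b' x) :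
    hessR f x v w = a' v * w.1 + b' v * w.2 := by
  have e : fderiv ℝ f = fun x => a x • ContinuousLinearMap.fst ℝ ℝ ℝ
      + b x • ContinuousLinearMap.snd ℝ ℝ ℝ := by
    funext y; exact (h y).fderiv
  unfold hessR
  rw [e]
  have h1 := (ha.smul_const (ContinuousLinearMap.fst ℝ ℝ ℝ)).add
    (hb.smul_const (ContinuousLinearMap.snd ℝ ℝ ℝ))
  have h2 := h1.fderiv
  have e3 : (fun x => a x • ContinuousLinearMap.fst ℝ ℝ ℝ
      + b x • ContinuousLinearMap.snd ℝ ℝ ℝ) = (fun y => a y • ContinuousLinearMap.fst ℝ ℝ ℝ) +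
      (fun y => b y • ContinuousLinearMap.snd ℝ ℝ ℝ) := rfl
  rw [e3, h2]
  simp

theorem j6765_det (x : ℝ × ℝ) :
    detR rho x = 4 * Real.exp (2 * x.1 + 2 * x.2 - 6 * rho x) := by
  have d := rho_hasFDeriv x
  have a1 : HasFDerivAt (fun y : ℝ × ℝ => Real.exp (2 * y.1 - 2 * rho y)) _ x :=
    (((hasFDerivAt_fst (𝕜 := ℝ) (p := x)).const_mul 2).sub (d.const_mul 2)).exp
  have a2 : HasFDerivAt (fun y : ℝ × ℝ => Real.exp (2 * y.2 - 2 * rho y)) _ x :=
    (((hasFDerivAt_snd (𝕜 := ℝ) (p := x)).const_mul 2).sub (d.const_mul 2)).exp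
  unfold detR
  rw [j6765_hessR_lin rho_hasFDeriv x _ _ a1 a2, j6765_hessR_lin rho_hasFDeriv x _ _ a1 a2,
    j6765_hessR_lin rho_hasFDeriv x _ _ a1 a2]
  simp
  have hs := rho_sum x
  have e : Real.exp (2 * x.1 + 2 * x.2 - 6 * rho x) = Real.exp (2 * x.1 - 2 * rho x) *
      Real.exp (2 * x.2 - 2 * rho x) * Real.exp (- (2 * rho x)) := by
    rw [← Real.exp_add, ← Real.exp_add]
    congr 1
    ring
  rw [e]
  set p := Real.exp (2 * x.1 - 2 * rho x)
  set q := Real.exp (2 * x.2 - 2 * rho x)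
  set r := Real.exp (- (2 * rho x))
  have hr : r = 1 - p - q := by linarith
  rw [hr]
  ring

theorem j6765_half (a r : ℝ) (h0 : 0 ≤ r) (h1 : a ≤ r) : 2 * a + |a| ≤ 3 * r := by
  rcases abs_cases a with ⟨h, _⟩ | ⟨h, _⟩ <;> rw [h] <;> linarith

theorem rho_det_bound (x : ℝ × ℝ) :
    detR rho x ≤ 4 * Real.exp (-(|x.1| + |x.2|)) := by
  rw [j6765_det]
  have h := le_rho x
  have h0 : 0 ≤ rho x := (le_max_left _ _).trans h
  have h1 : x.1 ≤ rho x := ((le_max_left _ _).trans (le_max_right _ _)).trans h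
  have h2 : x.2 ≤ rho x := ((le_max_right _ _).trans (le_max_right _ _)).trans h
  have h3 := j6765_half x.1 (rho x) h0 h1
  have h4 := j6765_half x.2 (rho x) h0 h2
  have h5 : Real.exp (2 * x.1 + 2 * x.2 - 6 * rho x) ≤ Real.exp (-(|x.1| + |x.2|)) :=
    Real.exp_le_exp.2 (by linarith)
  linarith

theorem j6765_u1_le (z : C2) : u1 z ≤ pot z + 1 := by
  have hA := norm_nonneg z.1
  have hB := sq_nonneg ‖z.2‖
  set A := ‖z.1‖ with hAdef
  set B := ‖z.2‖ ^ 2 with hBdef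
  have hS1 : 1 ≤ 1 + A ^ 2 + B := by nlinarith [sq_nonneg A]
  have h1 : 2 * A ≤ 1 + A ^ 2 + B := by nlinarith [sq_nonneg (A - 1)]
  have h2 : 1 + B ≤ 1 + A ^ 2 + B := by nlinarith [sq_nonneg A]
  have h3 : 1 + 2 * (A * (1 + B)) ≤ 3 * (1 + A ^ 2 + B) ^ 2 := by
    have h4 : 2 * A * (1 + B) ≤ (1 + A ^ 2 + B) * (1 + A ^ 2 + B) :=
      mul_le_mul h1 h2 (by positivity) (by positivity)
    have h5 : 1 * 1 ≤ (1 + A ^ 2 + B) * (1 + A ^ 2 + B) :=
      mul_le_mul hS1 hS1 zero_le_one (by positivity)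
    have h6 : (0 : ℝ) ≤ (1 + A ^ 2 + B) ^ 2 := by positivity
    have e1 : 1 + 2 * (A * (1 + B)) = 1 * 1 + 2 * A * (1 + B) := by ring
    have e2 : (1 + A ^ 2 + B) * (1 + A ^ 2 + B) = (1 + A ^ 2 + B) ^ 2 := by ring
    rw [e2] at h4 h5
    rw [e1]
    linarith
  have h7 := arsinh_le_log (x := A * (1 + B)) (by positivity)
  have h8 : Real.log (1 + 2 * (A * (1 + B))) ≤ Real.log (3 * (1 + A ^ 2 + B) ^ 2) :=
    Real.log_le_log (by positivity) h3
  rw [Real.log_mul (by norm_num) (by positivity), Real.log_pow] at h8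
  have h9 : Real.log 3 ≤ 3 - 1 := Real.log_le_sub_one_of_pos (by norm_num)
  push_cast at h8
  have e3 : pot z = 1 / 2 * Real.log (1 + A ^ 2 + B) := rfl
  have e4 : u1 z = 1 / 4 * Real.arsinh (A * (1 + B)) := rfl
  rw [e3, e4]
  linarith

theorem U_sub_pot_bound (z : C2) (hz : z.1 ≠ 0) :
    |U z - pot z| ≤ 2 + pot z - Real.log ‖z.1‖ := by
  have hle := le_pot z
  have hU : U z = u1 z + chi (u2 z - u1 z) := if_neg hz
  have hu1 := j6765_u1_le z
  have hT : 1 ≤ 1 + pot z - Real.log ‖z.1‖ := by linarith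
  have hsq : Real.sqrt (1 + pot z - Real.log ‖z.1‖) ≤ 1 + pot z - Real.log ‖z.1‖ := by
    rw [Real.sqrt_le_left (by linarith)]
    nlinarith
  have hsq0 := Real.sqrt_nonneg (1 + pot z - Real.log ‖z.1‖)
  have hu2 : u2 z = pot z - Real.sqrt (1 + pot z - Real.log ‖z.1‖) := rfl
  have hc1 := chi_le (u2 z - u1 z)
  have hc2 := le_chi (u2 z - u1 z)
  rw [hU, abs_le]
  constructor
  · linarith
  · rcases le_total (u2 z - u1 z) 0 with h | h
    · rw [max_eq_right h] at hc1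
      linarith
    · rw [max_eq_left h] at hc1
      linarith

theorem j6765_detcont : Continuous (detR rho) := by
  have e : detR rho = fun x => 4 * Real.exp (2 * x.1 + 2 * x.2 - 6 * rho x) := funext j6765_det
  rw [e]
  have := rho_contDiff.continuous
  fun_prop

theorem j6765_exp_bound (s : ℝ) (hs : 0 ≤ s) : Real.exp (-(s / 2)) ≤ 8 * (1 + s ^ 2)⁻¹ := by
  have h1 := Real.quadratic_le_exp_of_nonneg (show 0 ≤ s / 2 by positivity)
  have h2 : (1 + s ^ 2) / 8 ≤ Real.exp (s / 2) := by nlinarith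
  rw [Real.exp_neg, ← div_eq_mul_inv, inv_eq_one_div, div_le_div_iff₀ (Real.exp_pos _) (by positivity)]
  linarith

theorem j6765_G (x : ℝ × ℝ) : detR rho x * (2 + rho x - x.1) / (2 * Real.pi ^ 2) ≤
    512 * ((1 + x.1 ^ 2)⁻¹ * (1 + x.2 ^ 2)⁻¹) := by
  have hpi : (1 : ℝ) ≤ Real.pi ^ 2 := by
    have := Real.pi_gt_three
    nlinarith
  have hd := rho_det_bound x
  have hr := rho_le x
  set s := |x.1| with hs
  set t := |x.2| with ht
  have hs0 : 0 ≤ s := abs_nonneg _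
  have ht0 : 0 ≤ t := abs_nonneg _
  have hm : max 0 (max x.1 x.2) ≤ s + t := by
    refine max_le (by positivity) (max_le ?_ ?_)
    · have := le_abs_self x.1; linarith
    · have := le_abs_self x.2; linarith
  have hx1 : -x.1 ≤ s := neg_le_abs x.1
  have hle : 2 + rho x - x.1 ≤ 3 + 2 * s + t := by linarith
  have hge : 0 ≤ 2 + rho x - x.1 := by
    have := ((le_max_left x.1 x.2).trans (le_max_right 0 _)).trans (le_rho x)
    linarith
  have h1 : detR rho x * (2 + rho x - x.1) ≤ 4 * Real.exp (-(s + t)) * (3 + 2 * s + t) :=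
    mul_le_mul hd hle hge (by positivity)
  have h2 : 3 + 2 * s + t ≤ 8 * Real.exp ((s + t) / 2) := by
    have := Real.add_one_le_exp ((s + t) / 2)
    linarith
  have h3 : Real.exp (-(s + t)) * Real.exp ((s + t) / 2) =
      Real.exp (-(s / 2)) * Real.exp (-(t / 2)) := by
    rw [← Real.exp_add, ← Real.exp_add]
    congr 1
    ring
  have h4 : 4 * Real.exp (-(s + t)) * (3 + 2 * s + t) ≤
      32 * (Real.exp (-(s / 2)) * Real.exp (-(t / 2))) := by
    rw [← h3]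
    have h5 := mul_le_mul_of_nonneg_left h2 (show 0 ≤ 4 * Real.exp (-(s + t)) by positivity)
    linarith
  have h6 : Real.exp (-(s / 2)) * Real.exp (-(t / 2)) ≤
      (8 * (1 + s ^ 2)⁻¹) * (8 * (1 + t ^ 2)⁻¹) :=
    mul_le_mul (j6765_exp_bound s hs0) (j6765_exp_bound t ht0) (Real.exp_pos _).le (by positivity)
  have hs2 : s ^ 2 = x.1 ^ 2 := sq_abs _
  have ht2 : t ^ 2 = x.2 ^ 2 := sq_abs _
  rw [hs2, ht2] at h6
  have h7 : detR rho x * (2 + rho x - x.1) ≤ 2048 * ((1 + x.1 ^ 2)⁻¹ * (1 + x.2 ^ 2)⁻¹) := by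
    have e : (8 * (1 + x.1 ^ 2)⁻¹) * (8 * (1 + x.2 ^ 2)⁻¹) =
        64 * ((1 + x.1 ^ 2)⁻¹ * (1 + x.2 ^ 2)⁻¹) := by ring
    rw [e] at h6
    linarith
  rw [div_le_iff₀ (by positivity)]
  have h8 : (0 : ℝ) ≤ (1 + x.1 ^ 2)⁻¹ * (1 + x.2 ^ 2)⁻¹ := by positivity
  have hpi2 : (4 : ℝ) ≤ 2 * Real.pi ^ 2 := by
    have := Real.pi_gt_three
    nlinarith
  have h9 := mul_le_mul_of_nonneg_left hpi2 (show 0 ≤ 512 * ((1 + x.1 ^ 2)⁻¹ * (1 + x.2 ^ 2)⁻¹) by
    positivity)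
  linarith

theorem j6765_Gfin : ∫⁻ x : ℝ × ℝ, ENNReal.ofReal (detR rho x * (2 + rho x - x.1) /
    (2 * Real.pi ^ 2)) < ⊤ := by
  have h1 : Integrable (fun x : ℝ × ℝ => 512 * ((1 + x.1 ^ 2)⁻¹ * (1 + x.2 ^ 2)⁻¹)) := by
    have h2 : Integrable (fun x : ℝ × ℝ => (1 + x.1 ^ 2)⁻¹ * (1 + x.2 ^ 2)⁻¹)
        ((volume : Measure ℝ).prod (volume : Measure ℝ)) :=
      integrable_inv_one_add_sq.mul_prod integrable_inv_one_add_sq
    exact h2.const_mul 512
  refine lt_of_le_of_lt ?_ h1.lintegral_lt_top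
  exact lintegral_mono fun x => ENNReal.ofReal_le_ofReal (j6765_G x)

theorem phi_integrable : Integrable (fun z : C2 => U z - pot z) omegaSq := by
  have hcont : Continuous (fun z : C2 => U z - pot z) := U_continuous.sub pot_contDiff.continuous
  refine ⟨hcont.aestronglyMeasurable, ?_⟩
  have hpd : ∀ z, 0 < maDensity pot z := fun z =>
    maDensity_pos pot z (pot_contDiff.contDiffAt.of_le (by norm_cast))
      fun w hw => levi_pot_pos z w hw
  have hdc : Continuous (maDensity pot) :=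
    (contDiff_iff_contDiffAt.mpr fun z => contDiffAt_maDensity pot z pot_contDiff.contDiffAt).continuous
  show ∫⁻ z, ‖U z - pot z‖ₑ ∂omegaSq < ⊤
  unfold omegaSq
  rw [lintegral_withDensity_eq_lintegral_mul _ hdc.measurable.ennreal_ofReal
    hcont.measurable.enorm]
  have h1 : ∫⁻ z, ((fun z => ENNReal.ofReal (maDensity pot z)) * fun z => ‖U z - pot z‖ₑ) z ≤
      ∫⁻ z : C2, ENNReal.ofReal (maDensity pot z * (2 + pot z - Real.log ‖z.1‖)) := by
    refine lintegral_mono_ae ?_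
    filter_upwards [ae_ne] with z hz
    rw [Pi.mul_apply, ENNReal.ofReal_mul (hpd z).le]
    refine mul_le_mul_right ?_ _
    rw [← ofReal_norm, Real.norm_eq_abs]
    exact ENNReal.ofReal_le_ofReal (U_sub_pot_bound z hz)
  refine lt_of_le_of_lt h1 ?_
  have hrc := rho_contDiff.continuous
  have hGm : Measurable (fun x : ℝ × ℝ => ENNReal.ofReal (detR rho x * (2 + rho x - x.1) /
      (2 * Real.pi ^ 2))) := by
    have hdd := j6765_detcont
    have hc : Continuous (fun x : ℝ × ℝ => detR rho x * (2 + rho x - x.1) /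
      (2 * Real.pi ^ 2)) := by fun_prop
    exact hc.measurable.ennreal_ofReal
  have h := lintegral_toric _ hGm
    (fun z : C2 => ENNReal.ofReal (maDensity pot z * (2 + pot z - Real.log ‖z.1‖))) (by
      intro z h1 h2
      have hn1 : 0 < ‖z.1‖ := norm_pos_iff.mpr h1
      have hn2 : 0 < ‖z.2‖ := norm_pos_iff.mpr h2
      have hne2 : ∀ᶠ w : C2 in 𝓝 z, w.2 ≠ 0 :=
        (continuous_snd.tendsto z).eventually (isOpen_ne.mem_nhds h2)
      have hne1 : ∀ᶠ w : C2 in 𝓝 z, w.1 ≠ 0 :=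
        (continuous_fst.tendsto z).eventually (isOpen_ne.mem_nhds h1)
      have e1 := maDensity_toric rho pot z h1 h2 (rho_contDiff.contDiffAt.of_le (by norm_cast)) (by
        filter_upwards [hne1, hne2] with w hw1 hw2
        exact pot_toric w hw1 hw2)
      rw [e1, pot_toric z h1 h2, ← ENNReal.ofReal_div_of_pos (by positivity)]
      congr 1
      field_simp)
  rw [h]
  exact ENNReal.mul_lt_top ENNReal.ofReal_lt_top j6765_Gfin

end Pool.Agent.H314.MA
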