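import Pool.Agent.H314.MA.IBP
import Pool.Agent.H314.MA.Alg
import Pool.Agent.H314.MA.Ext

set_option autoImplicit false
open Set Filter Topology MeasureTheory
open scoped ContDiff

namespace Pool.Agent.H314.MA

theorem hess_eq_zero_of_notMem {χ : C2 → ℝ} {z : C2} (hz : z ∉ tsupport χ) (a b : C2) :
    hess χ z a b = 0 := by
  have h : χ =ᶠ[𝓝 z] fun _ => 0 := notMem_tsupport_iff_eventuallyEq.mp hz
  rw [hess_congr h]
  unfold hess
  have : fderiv ℝ (fun _ : C2 => (0 : ℝ)) = fun _ => 0 := by
    funext y; simp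
  rw [this]; simp

theorem h_eq_zero_of_notMem {χ : C2 → ℝ} {z : C2} (hz : z ∉ tsupport χ) :
    h11 χ z = 0 ∧ h22 χ z = 0 ∧ h12re χ z = 0 ∧ h12im χ z = 0 := by
  unfold h11 h22 h12re h12im
  simp [hess_eq_zero_of_notMem hz]

theorem mixed_eq_zero_of_notMem {χ : C2 → ℝ} (s : C2 → ℝ) {z : C2} (hz : z ∉ tsupport χ) :
    mixed χ s z = 0 := by
  obtain ⟨h1, h2, h3, h4⟩ := h_eq_zero_of_notMem hz
  unfold mixed; rw [h1, h2, h3, h4]; ring

theorem exists_hess_bound (χ : C2 → ℝ) (hχ : ContDiff ℝ ∞ χ) (hc : HasCompactSupport χ) :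
    ∃ B : ℝ, 0 ≤ B ∧ ∀ z, |h11 χ z| ≤ B ∧ |h22 χ z| ≤ B ∧ |h12re χ z| ≤ B ∧ |h12im χ z| ≤ B := by
  have hχ2 : ContDiff ℝ 2 χ := hχ.of_le (by norm_cast)
  have hb : ∀ a b : C2, ∃ B : ℝ, 0 ≤ B ∧ ∀ z, |hess χ z a b| ≤ B := by
    intro a b
    have hcont := continuous_hess χ hχ2 a b
    have hsup : HasCompactSupport fun z => hess χ z a b := by
      apply HasCompactSupport.intro hc
      intro z hz
      exact hess_eq_zero_of_notMem hz a b
    obtain ⟨C, hC⟩ := hcont.bounded_above_of_compact_support hsup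
    refine ⟨max C 0, le_max_right _ _, fun z => ?_⟩
    exact le_trans (by simpa using hC z) (le_max_left _ _)
  obtain ⟨B1, p1, b1⟩ := hb (1, 0) (1, 0)
  obtain ⟨B2, p2, b2⟩ := hb (Complex.I, 0) (Complex.I, 0)
  obtain ⟨B3, p3, b3⟩ := hb (0, 1) (0, 1)
  obtain ⟨B4, p4, b4⟩ := hb (0, Complex.I) (0, Complex.I)
  obtain ⟨B5, p5, b5⟩ := hb (1, 0) (0, 1)
  obtain ⟨B6, p6, b6⟩ := hb (Complex.I, 0) (0, Complex.I)
  obtain ⟨B7, p7, b7⟩ := hb (1, 0) (0, Complex.I)
  obtain ⟨B8, p8, b8⟩ := hb (Complex.I, 0) (0, 1)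
  refine ⟨B1 + B2 + B3 + B4 + B5 + B6 + B7 + B8, by positivity, fun z => ?_⟩
  have c1 := abs_le.mp (b1 z)
  have c2 := abs_le.mp (b2 z)
  have c3 := abs_le.mp (b3 z)
  have c4 := abs_le.mp (b4 z)
  have c5 := abs_le.mp (b5 z)
  have c6 := abs_le.mp (b6 z)
  have c7 := abs_le.mp (b7 z)
  have c8 := abs_le.mp (b8 z)
  refine ⟨?_, ?_, ?_, ?_⟩
  · unfold h11; rw [abs_le]; constructor <;> linarith [c1.1, c1.2, c2.1, c2.2]
  · unfold h22; rw [abs_le]; constructor <;> linarith [c3.1, c3.2, c4.1, c4.2]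
  · unfold h12re; rw [abs_le]; constructor <;> linarith [c5.1, c5.2, c6.1, c6.2]
  · unfold h12im; rw [abs_le]; constructor <;> linarith [c7.1, c7.2, c8.1, c8.2]

/-- Chern-Levine-Nirenberg type estimate: continuity of the Monge-Ampere measure under uniform
convergence. -/
theorem ma_diff_bound (O : Set C2) (hO : IsOpen O) (χ : C2 → ℝ) (hχ : ContDiff ℝ ∞ χ)
    (hc : HasCompactSupport χ) (hsub : tsupport χ ⊆ O) :
    ∃ K : Set C2, IsCompact K ∧ K ⊆ O ∧ ∃ C : ℝ, 0 ≤ C ∧ ∀ (u v : C2 → ℝ) (M ε : ℝ),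
      PshOn O u → PshOn O v → (∀ z ∈ K, |u z| ≤ M) → (∀ z ∈ K, |v z| ≤ M) →
      (∀ z ∈ K, |u z - v z| ≤ ε) →
      |(∫ z, χ z * maDensity u z) - ∫ z, χ z * maDensity v z| ≤ C * M * ε := by
  obtain ⟨η, hη, hηc, hηO, hη01, hη1⟩ := exists_cutoff O (tsupport χ) hO hc hsub
  obtain ⟨B, hB0, hB⟩ := exists_hess_bound χ hχ hc
  have hKc : IsCompact (tsupport η) := hηc
  set I : ℝ := ∫ z, |h11 η z + h22 η z| with hI
  have hI0 : 0 ≤ I := integral_nonneg fun z => abs_nonneg _
  refine ⟨tsupport η, hKc, hηO, 4 / Real.pi ^ 2 * (4 * B) * 2 * I, by positivity, ?_⟩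
  intro u v M ε hu hv huM hvM huv
  obtain ⟨u', hu', hue⟩ := exists_smooth_ext O (tsupport η) hO hKc hηO u fun z hz => (hu z hz).1
  obtain ⟨v', hv', hve⟩ := exists_smooth_ext O (tsupport η) hO hKc hηO v fun z hz => (hv z hz).1
  have hue' : ∀ z ∈ tsupport η, u' =ᶠ[𝓝 z] u := fun z hz =>
    Filter.Eventually.filter_mono (nhds_le_nhdsSet hz) hue
  have hve' : ∀ z ∈ tsupport η, v' =ᶠ[𝓝 z] v := fun z hz =>
    Filter.Eventually.filter_mono (nhds_le_nhdsSet hz) hve
  have hLK : tsupport χ ⊆ tsupport η := by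
    intro z hz
    have : η z = 1 := (hη1.self_of_nhdsSet) z hz
    exact subset_tsupport _ (by simp [Function.mem_support, this])
  have hu2 : ContDiff ℝ 2 u' := hu'.of_le (by norm_cast)
  have hv2 : ContDiff ℝ 2 v' := hv'.of_le (by norm_cast)
  have hη2 : ContDiff ℝ 2 η := hη.of_le (by norm_cast)
  have hχ2 : ContDiff ℝ 2 χ := hχ.of_le (by norm_cast)
  set w : C2 → ℝ := fun z => u' z - v' z with hw
  set s : C2 → ℝ := fun z => u' z + v' z with hs
  have hwc : ContDiff ℝ ∞ w := hu'.sub hv'
  have hsc : ContDiff ℝ ∞ s := hu'.add hv'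
  have hs2 : ContDiff ℝ 2 s := hu2.add hv2
  have hw2 : ContDiff ℝ 2 w := hu2.sub hv2
  -- psh of s on the support
  have hslevi : ∀ z ∈ tsupport η, ∀ a, 0 ≤ levi s z a := by
    intro z hz a
    rw [hs, levi_add u' v' z hu2.contDiffAt hv2.contDiffAt, levi_congr (hue' z hz),
      levi_congr (hve' z hz)]
    exact add_nonneg ((hu z (hηO hz)).2 a) ((hv z (hηO hz)).2 a)
  have htr : ∀ z ∈ tsupport η, 0 ≤ h11 s z + h22 s z := by
    intro z hz
    obtain ⟨h1, h2, -⟩ := levi_facts s z hs2.contDiffAt (hslevi z hz)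
    linarith
  -- reduce to the global functions
  have e1 : ∀ z, χ z * maDensity u z = χ z * maDensity u' z := by
    intro z
    by_cases hz : z ∈ tsupport χ
    · rw [maDensity_congr (hue' z (hLK hz))]
    · rw [image_eq_zero_of_notMem_tsupport hz]; ring
  have e2 : ∀ z, χ z * maDensity v z = χ z * maDensity v' z := by
    intro z
    by_cases hz : z ∈ tsupport χ
    · rw [maDensity_congr (hve' z (hLK hz))]
    · rw [image_eq_zero_of_notMem_tsupport hz]; ring
  have hcont_ma : ∀ f : C2 → ℝ, ContDiff ℝ 2 f → Continuous (maDensity f) := fun f hf =>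
    continuous_iff_continuousAt.mpr fun z => continuousAt_maDensity f z hf.contDiffAt
  have hint : ∀ f : C2 → ℝ, ContDiff ℝ 2 f → Integrable fun z => χ z * maDensity f z := by
    intro f hf
    apply Continuous.integrable_of_hasCompactSupport (hχ2.continuous.mul (hcont_ma f hf))
    exact hc.mul_right
  have e3 : (∫ z, χ z * maDensity u z) - ∫ z, χ z * maDensity v z
      = 4 / Real.pi ^ 2 * ∫ z, w z * mixed χ s z := by
    rw [integral_congr_ae (Eventually.of_forall e1), integral_congr_ae (Eventually.of_forall e2),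
      ← integral_sub (hint u' hu2) (hint v' hv2), ← integral_mixed w s χ hwc hsc hχ hc,
      ← integral_const_mul]
    apply integral_congr_ae
    apply Eventually.of_forall
    intro z
    have := maDensity_sub u' v' z hu2.contDiffAt hv2.contDiffAt
    simp only
    rw [← mul_sub, this]
    ring
  rw [e3, abs_mul, abs_of_nonneg (by positivity : (0 : ℝ) ≤ 4 / Real.pi ^ 2)]
  -- pointwise bound
  have hbd : ∀ z, |w z * mixed χ s z| ≤ ε * (4 * B) * (η z * (h11 s z + h22 s z)) := by
    intro z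
    by_cases hz : z ∈ tsupport χ
    · have hzK := hLK hz
      have h1 : |w z| ≤ ε := by
        have := huv z hzK
        rw [hw]
        simp only
        rw [(hue' z hzK).self_of_nhds, (hve' z hzK).self_of_nhds]
        exact this
      have h2 : |mixed χ s z| ≤ 4 * B * (h11 s z + h22 s z) :=
        mixed_bound χ s z B hs2.contDiffAt (hslevi z hzK) (hB z).1 (hB z).2.1 (hB z).2.2.1
          (hB z).2.2.2
      have h3 : η z = 1 := (hη1.self_of_nhdsSet) z hz
      have hε : 0 ≤ ε := le_trans (abs_nonneg _) h1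
      rw [abs_mul, h3, one_mul]
      calc |w z| * |mixed χ s z| ≤ ε * (4 * B * (h11 s z + h22 s z)) :=
            mul_le_mul h1 h2 (abs_nonneg _) hε
        _ = _ := by ring
    · rw [mixed_eq_zero_of_notMem s hz, mul_zero, abs_zero]
      by_cases hzK : z ∈ tsupport η
      · have hε : 0 ≤ ε := le_trans (abs_nonneg _) (huv z hzK)
        have := htr z hzK
        have := (hη01 z).1
        positivity
      · rw [image_eq_zero_of_notMem_tsupport hzK]; simp
  have hcs : Continuous fun z => h11 s z + h22 s z :=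
    continuous_iff_continuousAt.mpr fun z =>
      (continuousAt_h11 s z hs2.contDiffAt).add (continuousAt_h22 s z hs2.contDiffAt)
  have hint2 : Integrable fun z => η z * (h11 s z + h22 s z) := by
    apply Continuous.integrable_of_hasCompactSupport (hη2.continuous.mul hcs)
    exact hηc.mul_right
  have hint1 : Integrable fun z => w z * mixed χ s z := by
    apply Continuous.integrable_of_hasCompactSupport
    · exact hw2.continuous.mul (continuous_iff_continuousAt.mpr fun z =>
        continuousAt_mixed χ s z hχ2.contDiffAt hs2.contDiffAt)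
    · apply HasCompactSupport.intro hc
      intro z hz
      rw [mixed_eq_zero_of_notMem s hz, mul_zero]
  have hstep1 : |∫ z, w z * mixed χ s z| ≤ ε * (4 * B) * ∫ z, η z * (h11 s z + h22 s z) := by
    calc |∫ z, w z * mixed χ s z| ≤ ∫ z, |w z * mixed χ s z| := by
          simpa [Real.norm_eq_abs] using norm_integral_le_integral_norm (fun z => w z * mixed χ s z)
      _ ≤ ∫ z, ε * (4 * B) * (η z * (h11 s z + h22 s z)) :=
          integral_mono hint1.abs (hint2.const_mul _) hbd
      _ = _ := integral_const_mul _ _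
  have htrη : Continuous fun z => h11 η z + h22 η z :=
    continuous_iff_continuousAt.mpr fun z =>
      (continuousAt_h11 η z hη2.contDiffAt).add (continuousAt_h22 η z hη2.contDiffAt)
  have htrηs : HasCompactSupport fun z => h11 η z + h22 η z := by
    apply HasCompactSupport.intro hηc
    intro z hz
    obtain ⟨h1, h2, -, -⟩ := h_eq_zero_of_notMem hz
    rw [h1, h2, add_zero]
  have hstep2 : ∫ z, η z * (h11 s z + h22 s z) ≤ 2 * M * I := by
    rw [integral_trace s η hsc hη hηc, hI, ← integral_const_mul]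
    apply integral_mono
    · apply Continuous.integrable_of_hasCompactSupport (hs2.continuous.mul htrη)
      exact htrηs.mul_left
    · exact (htrη.abs.integrable_of_hasCompactSupport htrηs.abs).const_mul _
    · intro z
      simp only
      by_cases hzK : z ∈ tsupport η
      · have h1 : |s z| ≤ 2 * M := by
          rw [hs]
          simp only
          rw [(hue' z hzK).self_of_nhds, (hve' z hzK).self_of_nhds]
          calc |u z + v z| ≤ |u z| + |v z| := abs_add_le _ _
            _ ≤ 2 * M := by linarith [huM z hzK, hvM z hzK]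
        calc s z * (h11 η z + h22 η z) ≤ |s z * (h11 η z + h22 η z)| := le_abs_self _
          _ = |s z| * |h11 η z + h22 η z| := abs_mul _ _
          _ ≤ _ := mul_le_mul_of_nonneg_right h1 (abs_nonneg _)
      · obtain ⟨h1, h2, -, -⟩ := h_eq_zero_of_notMem hzK
        rw [h1, h2]; simp
  by_cases hne : (tsupport η).Nonempty
  · obtain ⟨z0, hz0⟩ := hne
    have hε : 0 ≤ ε := le_trans (abs_nonneg _) (huv z0 hz0)
    calc 4 / Real.pi ^ 2 * |∫ z, w z * mixed χ s z|
        ≤ 4 / Real.pi ^ 2 * (ε * (4 * B) * (2 * M * I)) := by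
          apply mul_le_mul_of_nonneg_left _ (by positivity)
          exact hstep1.trans (mul_le_mul_of_nonneg_left hstep2 (by positivity))
      _ = _ := by ring
  · have hempty : tsupport η = ∅ := Set.not_nonempty_iff_eq_empty.mp hne
    have h0 : ∀ z, w z * mixed χ s z = 0 := by
      intro z
      have : z ∉ tsupport χ := fun h => by
        have := hLK h
        rw [hempty] at this
        exact this
      rw [mixed_eq_zero_of_notMem s this, mul_zero]
    have hI' : I = 0 := by
      rw [hI]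
      have : ∀ z, |h11 η z + h22 η z| = 0 := by
        intro z
        have hz : z ∉ tsupport η := by rw [hempty]; exact Set.notMem_empty z
        obtain ⟨h1, h2, -, -⟩ := h_eq_zero_of_notMem hz
        rw [h1, h2]; simp
      simp [this]
    rw [hI']
    simp [h0]

end Pool.Agent.H314.MA
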