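import Pool.Agent.H314.MA.Defs

set_option autoImplicit false

open Set Filter Topology MeasureTheory
open scoped ContDiff

namespace Pool.Agent.H314.MA

/-- Homogeneous coordinates of the projective plane `X`: its points are the nonzero vectors of
`ℂ³` up to multiplication by nonzero scalars. -/
abbrev C3 : Type := Fin 3 → ℂ

/-- the Euclidean norm on `ℂ³` -/
noncomputable def nrm (Z : C3) : ℝ := Real.sqrt (‖Z 0‖ ^ 2 + ‖Z 1‖ ^ 2 + ‖Z 2‖ ^ 2)

/-- the affine chart `(z₁, z₂) ↦ [1 : z₁ : z₂]`, whose image is the complement of the line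
`D = {Z₀ = 0}` -/
def chart (z : C2) : C3 := ![1, z.1, z.2]

/-- `φ` (a function on the projective plane, given in homogeneous coordinates) is
`ω`-plurisubharmonic, where `ω = dd^c log ‖Z‖` is the Fubini-Study form: it is upper
semicontinuous with values in `[-∞, ∞)`, not identically `-∞`, and `φ + log ‖Z‖` satisfies the
sub-mean value inequality on every complex disc of `ℂ³ \ {0}`. -/
structure IsOmegaPsh (φ : C3 → EReal) : Prop where
  homogeneous : ∀ (c : ℂ) (Z : C3), c ≠ 0 → Z ≠ 0 → φ (c • Z) = φ Z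
  lt_top : ∀ Z, Z ≠ 0 → φ Z < ⊤
  ne_bot : ∃ Z, Z ≠ 0 ∧ φ Z ≠ ⊥
  usc : ∀ Z, Z ≠ 0 → ∀ a : EReal, φ Z < a → ∀ᶠ Z' in 𝓝 Z, φ Z' < a
  submean : ∀ Z W : C3, (∀ ζ : ℂ, ‖ζ‖ ≤ 1 → Z + ζ • W ≠ 0) → ∀ g : ℝ → ℝ, Continuous g →
    (∀ θ : ℝ, φ (Z + Complex.exp (θ * Complex.I) • W) +
      (Real.log (nrm (Z + Complex.exp (θ * Complex.I) • W)) : EReal) ≤ (g θ : EReal)) →
    φ Z + (Real.log (nrm Z) : EReal) ≤
      (((2 * Real.pi)⁻¹ * ∫ θ in (0 : ℝ)..(2 * Real.pi), g θ : ℝ) : EReal)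

/-- The measure `ω²` (on the affine chart, the line `D` being a null set). -/
noncomputable def omegaSq : Measure C2 :=
  volume.withDensity fun z => ENNReal.ofReal (maDensity pot z)

/-- The truncation `max(φ, -j)` in the affine chart. -/
noncomputable def trunc (φ : C3 → EReal) (j : ℕ) (z : C2) : ℝ :=
  (max (φ (chart z)) ((-(j : ℝ) : ℝ) : EReal)).toReal

/-- `ν` is the non-pluripolar product `⟨(ω + dd^c φ)²⟩`: the limit of the measures
`1_{φ > -j} (ω + dd^c max(φ,-j))²`. -/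
def IsNonPluripolar (φ : C3 → EReal) (ν : Measure C2) : Prop :=
  ∃ μ : ℕ → Measure C2, (∀ j, IsMongeAmpere (fun z => trunc φ j z + pot z) (μ j)) ∧
    ∀ B : Set C2, MeasurableSet B →
      Tendsto (fun j : ℕ => μ j (B ∩ {z | ((-(j : ℝ) : ℝ) : EReal) < φ (chart z)})) atTop
        (𝓝 (ν B))

/-- The concrete quasi-plurisubharmonic function on the projective plane. -/
noncomputable def phi (Z : C3) : EReal :=
  if Z 0 ≠ 0 then ((U (Z 1 / Z 0, Z 2 / Z 0) - pot (Z 1 / Z 0, Z 2 / Z 0) : ℝ) : EReal)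
  else if Z 1 = 0 then ⊥
  else ((-Real.sqrt (1 + Real.log (nrm Z) - Real.log ‖Z 1‖) - 1 : ℝ) : EReal)

end Pool.Agent.H314.MA
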