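import Pool.Agent.H314.MA.Dens
import Pool.Agent.H314.MA.BT

set_option autoImplicit false
open Set Filter Topology MeasureTheory
open scoped ContDiff ComplexConjugate

namespace Pool.Agent.H314.MA

theorem u1_continuous : Continuous u1 := by
  unfold u1
  exact continuous_const.mul (Real.continuous_arsinh.comp (by fun_prop))

theorem u1_nonneg (z : C2) : 0 ≤ u1 z := by
  unfold u1
  have : 0 ≤ Real.arsinh (‖z.1‖ * (1 + ‖z.2‖ ^ 2)) := Real.arsinh_nonneg_iff.mpr (by positivity)
  positivity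

theorem u1e_nonneg (ε : ℝ) (z : C2) : 0 ≤ u1e ε z := by
  unfold u1e
  have : 0 ≤ Real.arsinh (Real.sqrt (‖z.1‖ ^ 2 + ε ^ 2) * (1 + ‖z.2‖ ^ 2)) :=
    Real.arsinh_nonneg_iff.mpr (by positivity)
  positivity

theorem u1_zero (z : C2) (hz : z.1 = 0) : u1 z = 0 := by
  unfold u1; simp [hz]

theorem u1e_mono {ε δ : ℝ} (hε : 0 ≤ ε) (h : ε ≤ δ) (z : C2) : u1e ε z ≤ u1e δ z := by
  unfold u1e
  have h1 : ε ^ 2 ≤ δ ^ 2 := pow_le_pow_left₀ hε h 2
  have h2 : Real.arsinh (Real.sqrt (‖z.1‖ ^ 2 + ε ^ 2) * (1 + ‖z.2‖ ^ 2)) ≤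
      Real.arsinh (Real.sqrt (‖z.1‖ ^ 2 + δ ^ 2) * (1 + ‖z.2‖ ^ 2)) := by
    apply Real.arsinh_le_arsinh.mpr
    apply mul_le_mul_of_nonneg_right _ (by positivity)
    exact Real.sqrt_le_sqrt (by linarith)
  linarith

theorem u1e_tendsto (z : C2) :
    Tendsto (fun k : ℕ => u1e (1 / ((k : ℝ) + 1)) z) atTop (𝓝 (u1 z)) := by
  have hε : Tendsto (fun k : ℕ => (1 / ((k : ℝ) + 1))) atTop (𝓝 0) :=
    tendsto_one_div_add_atTop_nhds_zero_nat
  have hcont : Continuous fun ε : ℝ => u1e ε z := by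
    unfold u1e
    exact continuous_const.mul (Real.continuous_arsinh.comp (by fun_prop))
  have h := (hcont.tendsto 0).comp hε
  have h0 : u1e 0 z = u1 z := by
    unfold u1e u1
    simp [Real.sqrt_sq (norm_nonneg z.1)]
  rw [h0] at h
  exact h

/-- Near the line `z₁ = 0` the function `u₂` is negative. -/
theorem u2_neg_near (z : C2) (hz : z.1 = 0) : ∀ᶠ w : C2 in 𝓝 z, w.1 ≠ 0 → u2 w < 0 := by
  set P := pot z + 1 with hP
  have hP1 : 1 ≤ P := by have := pot_nonneg z; linarith
  have h1 : ∀ᶠ w in 𝓝 z, pot w < P :=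
    (pot_contDiff.continuous.tendsto z).eventually (gt_mem_nhds (by rw [hP]; linarith))
  have h2 : ∀ᶠ w : C2 in 𝓝 z, ‖w.1‖ < Real.exp (-P ^ 2) := by
    have hc : Continuous fun w : C2 => ‖w.1‖ := by fun_prop
    have h0 : ‖z.1‖ < Real.exp (-P ^ 2) := by rw [hz, norm_zero]; exact Real.exp_pos _
    exact (hc.tendsto z).eventually (gt_mem_nhds h0)
  filter_upwards [h1, h2] with w hw1 hw2 hw0
  have hn : 0 < ‖w.1‖ := norm_pos_iff.mpr hw0
  have h3 : Real.log ‖w.1‖ < -P ^ 2 := by
    rw [Real.log_lt_iff_lt_exp hn]; exact hw2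
  have h4 : 0 ≤ pot w := pot_nonneg w
  unfold u2
  have h5 : P < Real.sqrt (1 + pot w - Real.log ‖w.1‖) := by
    apply Real.lt_sqrt_of_sq_lt
    linarith
  linarith

theorem Ue_near (ε : ℝ) (z : C2) (hz : z.1 = 0) : Ue ε =ᶠ[𝓝 z] u1e ε := by
  filter_upwards [u2_neg_near z hz] with w hw
  unfold Ue
  split_ifs with h
  · rfl
  · have := u1e_nonneg ε w
    rw [chi_of_nonpos (by linarith [hw h]), add_zero]

/-- The open set on which `U` coincides with `u₁`. -/
def NN : Set C2 := {z | ∀ᶠ w : C2 in 𝓝 z, w.1 ≠ 0 → u2 w < 0}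

theorem NN_open : IsOpen NN := isOpen_setOfPred_eventually_nhds

theorem mem_NN (z : C2) (hz : z.1 = 0) : z ∈ NN := u2_neg_near z hz

theorem U_eq_u1_of {z : C2} (h : z.1 ≠ 0 → u2 z < 0) : U z = u1 z := by
  unfold U
  split_ifs with h0
  · rw [u1_zero z h0]
  · have := u1_nonneg z
    rw [chi_of_nonpos (by linarith [h h0]), add_zero]

theorem U_near (z : C2) (hz : z ∈ NN) : U =ᶠ[𝓝 z] u1 := by
  have : ∀ᶠ w : C2 in 𝓝 z, w.1 ≠ 0 → u2 w < 0 := hz
  filter_upwards [this] with w hw
  exact U_eq_u1_of hw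

theorem U_off (z : C2) (hz : z.1 ≠ 0) : U =ᶠ[𝓝 z] fun w => u1 w + chi (u2 w - u1 w) := by
  filter_upwards [ne_nhds hz] with w hw
  unfold U; rw [if_neg hw]

theorem Ue_off (ε : ℝ) (z : C2) (hz : z.1 ≠ 0) :
    Ue ε =ᶠ[𝓝 z] fun w => u1e ε w + chi (u2 w - u1e ε w) := by
  filter_upwards [ne_nhds hz] with w hw
  unfold Ue; rw [if_neg hw]

theorem U_contDiffAt (z : C2) (hz : z.1 ≠ 0) : ContDiffAt ℝ ∞ U z := by
  refine ContDiffAt.congr_of_eventuallyEq ?_ (U_off z hz)
  exact (glue_contDiff.contDiffAt (x := (u1 z, u2 z))).comp z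
    ((u1_contDiffAt z hz).prodMk (u2_contDiffAt z hz))

theorem Ue_contDiff (ε : ℝ) (hε : 0 < ε) : ContDiff ℝ ∞ (Ue ε) := by
  rw [contDiff_iff_contDiffAt]
  intro z
  by_cases hz : z.1 = 0
  · exact (u1e_contDiff ε hε).contDiffAt.congr_of_eventuallyEq (Ue_near ε z hz)
  · refine ContDiffAt.congr_of_eventuallyEq ?_ (Ue_off ε z hz)
    exact (glue_contDiff.contDiffAt (x := (u1e ε z, u2 z))).comp z
      ((u1e_contDiff ε hε).contDiffAt.prodMk (u2_contDiffAt z hz))

theorem glue_levi (a b : C2 → ℝ) (z w : C2) (ha : ContDiffAt ℝ ∞ a z) (hb : ContDiffAt ℝ ∞ b z) :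
    levi (fun w => a w + chi (b w - a w)) z w =
      (1 - deriv chi (b z - a z)) * levi a z w + deriv chi (b z - a z) * levi b z w +
      (deriv (deriv chi) (b z - a z) * (fderiv ℝ b z w - fderiv ℝ a z w) ^ 2 +
        deriv (deriv chi) (b z - a z) *
          (fderiv ℝ b z (Complex.I • w) - fderiv ℝ a z (Complex.I • w)) ^ 2) / 4 := by
  have h := levi_comp2 (fun p : ℝ × ℝ => p.1 + chi (p.2 - p.1)) a b z
    (glue_contDiff.contDiffAt.of_le (by norm_cast)) (ha.of_le (by norm_cast))
    (hb.of_le (by norm_cast)) w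
  rw [glue_fderiv_1, glue_fderiv_2, glue_hess, glue_hess] at h
  exact h

theorem levi_U_pos (z w : C2) (hz : z.1 ≠ 0) (hw : w ≠ 0) : 0 < levi U z w := by
  rw [levi_congr (U_off z hz), glue_levi u1 u2 z w (u1_contDiffAt z hz) (u2_contDiffAt z hz)]
  have c1 := deriv_chi_nonneg (u2 z - u1 z)
  have c2 := deriv_chi_lt_one (u2 z - u1 z)
  have c3 := deriv2_chi_nonneg (u2 z - u1 z)
  have h1 := levi_u1_pos z w hz hw
  have h2 := levi_u2_pos z w hz hw
  have h3 : 0 < (1 - deriv chi (u2 z - u1 z)) * levi u1 z w := mul_pos (by linarith) h1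
  positivity

theorem levi_Ue_nonneg (ε : ℝ) (hε : 0 < ε) (z w : C2) : 0 ≤ levi (Ue ε) z w := by
  by_cases hz : z.1 = 0
  · rw [levi_congr (Ue_near ε z hz)]
    exact levi_u1e_nonneg ε hε z w
  · rw [levi_congr (Ue_off ε z hz),
      glue_levi (u1e ε) u2 z w (u1e_contDiff ε hε).contDiffAt (u2_contDiffAt z hz)]
    have c1 := deriv_chi_nonneg (u2 z - u1e ε z)
    have c2 := deriv_chi_lt_one (u2 z - u1e ε z)
    have c3 := deriv2_chi_nonneg (u2 z - u1e ε z)
    have h1 := levi_u1e_nonneg ε hε z w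
    have h2 : 0 ≤ levi u2 z w := by
      by_cases hw : w = 0
      · subst hw
        unfold levi hess
        simp
      · exact (levi_u2_pos z w hz hw).le
    have h3 : 0 ≤ (1 - deriv chi (u2 z - u1e ε z)) * levi (u1e ε) z w :=
      mul_nonneg (by linarith) h1
    positivity

theorem smoothPsh_Ue (ε : ℝ) (hε : 0 < ε) : SmoothPsh (Ue ε) :=
  ⟨Ue_contDiff ε hε, levi_Ue_nonneg ε hε⟩

theorem Ue_mono {ε δ : ℝ} (hε : 0 ≤ ε) (h : ε ≤ δ) (z : C2) : Ue ε z ≤ Ue δ z := by
  unfold Ue
  split_ifs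
  · exact u1e_mono hε h z
  · exact add_chi_mono (u2 z) (u1e_mono hε h z)

theorem Ue_tendsto (z : C2) :
    Tendsto (fun k : ℕ => Ue (1 / ((k : ℝ) + 1)) z) atTop (𝓝 (U z)) := by
  unfold Ue U
  split_ifs with h
  · have := u1e_tendsto z
    rwa [u1_zero z h] at this
  · have h1 := u1e_tendsto z
    exact h1.add ((chi_contDiff.continuous.tendsto _).comp (tendsto_const_nhds.sub h1))

theorem U_continuous : Continuous U := by
  rw [continuous_iff_continuousAt]
  intro z
  by_cases hz : z.1 = 0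
  · exact u1_continuous.continuousAt.congr (U_near z (mem_NN z hz)).symm
  · exact (U_contDiffAt z hz).continuousAt

theorem V_continuous (j : ℝ) : Continuous (V j) := by
  unfold V
  exact U_continuous.max (pot_contDiff.continuous.sub continuous_const)

theorem smoothPsh_Ve (j ε : ℝ) (hε : 0 < ε) : SmoothPsh (Ve j ε) := by
  have hp : ContDiff ℝ ∞ fun z => pot z - j := pot_contDiff.sub contDiff_const
  constructor
  · exact (smax_contDiff ε hε).comp ((Ue_contDiff ε hε).prodMk hp)
  · intro z w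
    have h := levi_comp2 (fun p : ℝ × ℝ => smax ε p.1 p.2) (Ue ε) (fun z => pot z - j) z
      ((smax_contDiff ε hε).contDiffAt.of_le (by norm_cast))
      ((Ue_contDiff ε hε).contDiffAt.of_le (by norm_cast)) (hp.contDiffAt.of_le (by norm_cast)) w
    have e : levi (Ve j ε) z w = _ := h
    rw [e]
    obtain ⟨s1, s2⟩ := smax_fderiv_nonneg ε hε (Ue ε z, pot z - j)
    have h1 := levi_Ue_nonneg ε hε z w
    have h2 : 0 ≤ levi (fun z => pot z - j) z w := by
      have e2 : levi (fun z => pot z - j) z w = levi pot z w := by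
        have hh : ∀ v, hess (fun z => pot z - j) z v v = hess pot z v v := by
          intro v
          unfold hess
          have : fderiv ℝ (fun z => pot z - j) = fderiv ℝ pot := by
            funext y; exact fderiv_sub_const j
          rw [this]
        unfold levi; rw [hh, hh]
      rw [e2]; exact levi_pot_nonneg z w
    have h3 := smax_hess_nonneg ε hε (Ue ε z, pot z - j)
      (fderiv ℝ (Ue ε) z w, fderiv ℝ (fun z => pot z - j) z w)
    have h4 := smax_hess_nonneg ε hε (Ue ε z, pot z - j)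
      (fderiv ℝ (Ue ε) z (Complex.I • w), fderiv ℝ (fun z => pot z - j) z (Complex.I • w))
    have h5 := mul_nonneg s1 h1
    have h6 := mul_nonneg s2 h2
    linarith

theorem decreasesTo_V (j : ℝ) : DecreasesTo (fun k : ℕ => Ve j (1 / ((k : ℝ) + 1))) (V j) := by
  refine ⟨fun k => smoothPsh_Ve j _ (by positivity), ?_, ?_⟩
  · intro k z
    have h0 : (0 : ℝ) ≤ 1 / (((k + 1 : ℕ) : ℝ) + 1) := by positivity
    have h1 : 1 / (((k + 1 : ℕ) : ℝ) + 1) ≤ 1 / ((k : ℝ) + 1) := by
      apply one_div_le_one_div_of_le (by positivity)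
      push_cast; linarith
    unfold Ve
    exact (smax_mono_eps h0 h1 _ _).trans (smax_mono (Ue_mono h0 h1 z) le_rfl)
  · intro z
    have hε : Tendsto (fun k : ℕ => (1 / ((k : ℝ) + 1))) atTop (𝓝 0) :=
      tendsto_one_div_add_atTop_nhds_zero_nat
    have hU := Ue_tendsto z
    have hlow : Tendsto (fun k : ℕ => max (Ue (1 / ((k : ℝ) + 1)) z) (pot z - j)) atTop
        (𝓝 (V j z)) := hU.max tendsto_const_nhds
    have hup : Tendsto (fun k : ℕ => max (Ue (1 / ((k : ℝ) + 1)) z) (pot z - j) +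
        1 / ((k : ℝ) + 1)) atTop (𝓝 (V j z)) := by
      have := hlow.add hε
      rwa [add_zero] at this
    refine tendsto_of_tendsto_of_tendsto_of_le_of_le hlow hup ?_ ?_
    · intro k; exact max_le_smax _ _ _
    · intro k; exact smax_le _ _ _ (by positivity)

/-! ### The density -/

theorem dens_eq_F1 (z : C2) (hz : z ∈ NN) : dens z = F1 z := by
  unfold dens
  split_ifs with h
  · unfold F1; rw [h]; simp
  · rw [maDensity_congr (U_near z hz), maDensity_u1 z h]

theorem F1_contDiff : ContDiff ℝ ∞ F1 := by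
  have e : F1 = fun z : C2 => 1 / (8 * Real.pi ^ 2 *
      (1 + (z.1.re ^ 2 + z.1.im ^ 2) * (1 + (z.2.re ^ 2 + z.2.im ^ 2)) ^ 2) ^ 2) := by
    funext z
    unfold F1
    rw [← Complex.normSq_eq_norm_sq, ← Complex.normSq_eq_norm_sq, Complex.normSq_apply,
      Complex.normSq_apply]
    ring_nf
  rw [e]
  have h1 : ContDiff ℝ ∞ fun z : C2 => z.1.re := Complex.reCLM.contDiff.comp contDiff_fst
  have h2 : ContDiff ℝ ∞ fun z : C2 => z.1.im := Complex.imCLM.contDiff.comp contDiff_fst
  have h3 : ContDiff ℝ ∞ fun z : C2 => z.2.re := Complex.reCLM.contDiff.comp contDiff_snd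
  have h4 : ContDiff ℝ ∞ fun z : C2 => z.2.im := Complex.imCLM.contDiff.comp contDiff_snd
  apply contDiff_const.div
  · exact contDiff_const.mul ((contDiff_const.add (((h1.pow 2).add (h2.pow 2)).mul
      ((contDiff_const.add ((h3.pow 2).add (h4.pow 2))).pow 2))).pow 2)
  · intro z; positivity

theorem dens_contDiff : ContDiff ℝ ∞ dens := by
  rw [contDiff_iff_contDiffAt]
  intro z
  by_cases hz : z.1 = 0
  · refine F1_contDiff.contDiffAt.congr_of_eventuallyEq ?_
    filter_upwards [NN_open.mem_nhds (mem_NN z hz)] with w hw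
    exact dens_eq_F1 w hw
  · refine (contDiffAt_maDensity U z (U_contDiffAt z hz)).congr_of_eventuallyEq ?_
    filter_upwards [ne_nhds hz] with w hw
    unfold dens; rw [if_neg hw]

theorem dens_pos (z : C2) : 0 < dens z := by
  unfold dens
  split_ifs with h
  · positivity
  · exact maDensity_pos U z ((U_contDiffAt z h).of_le (by norm_cast))
      fun w hw => levi_U_pos z w h hw

/-! ### The Monge-Ampere measures of the truncations -/

/-- The Bedford-Taylor measure of `max(U, pot - j)` equals `dens` on the open set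
`{U > pot - j}`. -/
theorem ma_V_eq (j : ℝ) (μ : Measure C2) (hμ : IsMongeAmpere (V j) μ) (B : Set C2)
    (hB : MeasurableSet B) (hBj : B ⊆ {z | pot z - j < U z}) :
    μ B = ∫⁻ z in B, ENNReal.ofReal (dens z) := by
  have hGo : IsOpen {z : C2 | pot z - j < U z} :=
    isOpen_lt (pot_contDiff.continuous.sub continuous_const) U_continuous
  have hne : IsOpen {z : C2 | z.1 ≠ 0} := isOpen_ne.preimage continuous_fst
  have hVU : ∀ z ∈ {z : C2 | pot z - j < U z}, V j z = U z := by
    intro z hz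
    unfold V
    exact max_eq_left (le_of_lt hz)
  apply measure_eq_of_cover μ _ ({z : C2 | z.1 ≠ 0} ∩ {z | pot z - j < U z})
    (NN ∩ {z | pot z - j < U z}) (hne.inter hGo) (NN_open.inter hGo) _ _ B hB
  · intro z hz
    by_cases h : z.1 = 0
    · exact Or.inr ⟨mem_NN z h, hBj hz⟩
    · exact Or.inl ⟨h, hBj hz⟩
  · intro B hB hBO
    refine ma_eq_on (V j) (V_continuous j) μ hμ _ (hne.inter hGo) (fun _ => U) ?_ ?_ dens
      dens_contDiff.continuous.continuousOn (fun z _ => (dens_pos z).le) ?_ B hB hBO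
    · intro _ z hz
      refine ⟨U_contDiffAt z hz.1, fun w => ?_⟩
      by_cases hw : w = 0
      · subst hw; unfold levi hess; simp
      · exact (levi_U_pos z w hz.1 hw).le
    · intro K _ hKO ε hε
      apply Eventually.of_forall
      intro _ z hz
      rw [hVU z (hKO hz).2, sub_self, abs_zero]
      exact hε.le
    · intro χ _ _ hsub
      have : ∀ z, χ z * maDensity U z = χ z * dens z := by
        intro z
        by_cases hz : z ∈ tsupport χ
        · unfold dens; rw [if_neg (hsub hz).1]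
        · rw [image_eq_zero_of_notMem_tsupport hz]; ring
      simp only [this]
      exact tendsto_const_nhds
  · intro B hB hBO
    have hdec : DecreasesTo (fun k : ℕ => u1e (1 / ((k : ℝ) + 1))) u1 := by
      refine ⟨fun k => smoothPsh_u1e _ (by positivity), ?_, u1e_tendsto⟩
      intro k z
      apply u1e_mono (by positivity)
      apply one_div_le_one_div_of_le (by positivity)
      push_cast; linarith
    refine ma_eq_on (V j) (V_continuous j) μ hμ _ (NN_open.inter hGo)
      (fun k : ℕ => u1e (1 / ((k : ℝ) + 1))) ?_ ?_ dens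
      dens_contDiff.continuous.continuousOn (fun z _ => (dens_pos z).le) ?_ B hB hBO
    · intro k
      exact pshOn_of_smoothPsh (smoothPsh_u1e _ (by positivity)) _
    · intro K hK hKO ε hε
      filter_upwards [uniform_of_decreases hdec u1_continuous K hK ε hε] with k hk z hz
      have e : V j z = u1 z := by
        rw [hVU z (hKO hz).2]
        exact (U_near z (hKO hz).1).self_of_nhds
      rw [e]
      exact hk z hz
    · intro χ hχ hc hsub
      have h := u1e_weak χ hχ hc
      have e : ∫ z, χ z * F1 z = ∫ z, χ z * dens z := by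
        congr 1
        funext z
        by_cases hz : z ∈ tsupport χ
        · rw [dens_eq_F1 z (hsub hz).1]
        · rw [image_eq_zero_of_notMem_tsupport hz]; ring
      rw [← e]
      exact h

end Pool.Agent.H314.MA
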