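import Pool.Agent.H314.MA.Base
import Pool.Agent.H314.MA.Comp
import Pool.Agent.H314.MA.Alg
import Pool.Agent.H314.MA.Chi

set_option autoImplicit false
open Set Filter Topology MeasureTheory
open scoped ContDiff

namespace Pool.Agent.H314.MA

/-- `log |z₁|` -/
noncomputable def fl (z : C2) : ℝ := Real.log ‖z.1‖
/-- `½ log(|z₁|² + ε²)` -/
noncomputable def fle (ε : ℝ) (z : C2) : ℝ := 1 / 2 * Real.log (‖z.1‖ ^ 2 + ε ^ 2)
/-- `log(1 + |z₂|²)` -/
noncomputable def fm (z : C2) : ℝ := Real.log (1 + ‖z.2‖ ^ 2)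
/-- `arsinh(e^y)/4` -/
noncomputable def gg (y : ℝ) : ℝ := 1 / 4 * Real.arsinh (Real.exp y)

theorem one_add_sq_pos (b : ℂ) : 0 < 1 + ‖b‖ ^ 2 := by positivity

theorem sq_add_pos (a : ℂ) {ε : ℝ} (hε : 0 < ε) : 0 < ‖a‖ ^ 2 + ε ^ 2 := by positivity

theorem u1_eq_gg (z : C2) (hz : z.1 ≠ 0) : u1 z = gg (fl z + fm z) := by
  unfold u1 gg fl fm
  rw [Real.exp_add, Real.exp_log (norm_pos_iff.mpr hz), Real.exp_log (one_add_sq_pos _)]

theorem u1e_eq_gg (ε : ℝ) (hε : 0 < ε) (z : C2) : u1e ε z = gg (fle ε z + fm z) := by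
  unfold u1e gg fle fm
  rw [Real.exp_add, Real.exp_log (one_add_sq_pos _)]
  congr 3
  rw [Real.sqrt_eq_rpow, Real.rpow_def_of_pos (sq_add_pos _ hε)]
  ring_nf

theorem ne_nhds {z : C2} (hz : z.1 ≠ 0) : ∀ᶠ w : C2 in 𝓝 z, w.1 ≠ 0 :=
  (continuous_fst.tendsto z).eventually (isOpen_ne.mem_nhds hz)

theorem u1_eventually (z : C2) (hz : z.1 ≠ 0) : u1 =ᶠ[𝓝 z] fun w => gg (fl w + fm w) := by
  filter_upwards [ne_nhds hz] with w hw
  exact u1_eq_gg w hw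

theorem fl_contDiffAt (z : C2) (hz : z.1 ≠ 0) : ContDiffAt ℝ ∞ fl z := l1_contDiffAt z hz

theorem fle_contDiff (ε : ℝ) (hε : 0 < ε) : ContDiff ℝ ∞ (fle ε) := lg_contDiff ε hε

theorem fm_contDiff : ContDiff ℝ ∞ fm := m_contDiff

theorem gg_contDiff : ContDiff ℝ ∞ gg := g_contDiff

theorem u1_contDiffAt (z : C2) (hz : z.1 ≠ 0) : ContDiffAt ℝ ∞ u1 z := by
  refine ContDiffAt.congr_of_eventuallyEq ?_ (u1_eventually z hz)
  exact gg_contDiff.contDiffAt.comp z ((fl_contDiffAt z hz).add fm_contDiff.contDiffAt)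

theorem u1e_eq (ε : ℝ) (hε : 0 < ε) : u1e ε = fun z => gg (fle ε z + fm z) :=
  funext fun z => u1e_eq_gg ε hε z

theorem u1e_contDiff (ε : ℝ) (hε : 0 < ε) : ContDiff ℝ ∞ (u1e ε) := by
  rw [u1e_eq ε hε]
  exact gg_contDiff.comp ((fle_contDiff ε hε).add fm_contDiff)

theorem gg_deriv_pos (y : ℝ) : 0 < deriv gg y := by
  have h : deriv gg y = _ := g_deriv y
  rw [h]; positivity

theorem gg_deriv2_pos (y : ℝ) : 0 < deriv (deriv gg) y := by
  have h : deriv (deriv gg) y = _ := g_deriv2 y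
  rw [h]; positivity

theorem sq_pair (a b : ℂ) : (a.re * b.re + a.im * b.im) ^ 2 +
    (a.re * (Complex.I * b).re + a.im * (Complex.I * b).im) ^ 2 = ‖a‖ ^ 2 * ‖b‖ ^ 2 := by
  have h1 : ‖a‖ ^ 2 = a.re ^ 2 + a.im ^ 2 := by
    rw [← Complex.normSq_eq_norm_sq, Complex.normSq_apply]; ring
  have h2 : ‖b‖ ^ 2 = b.re ^ 2 + b.im ^ 2 := by
    rw [← Complex.normSq_eq_norm_sq, Complex.normSq_apply]; ring
  rw [h1, h2]
  simp
  ring

/-- Levi form of `u₁` away from `z₁ = 0` -/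
theorem levi_u1_pos (z w : C2) (hz : z.1 ≠ 0) (hw : w ≠ 0) : 0 < levi u1 z w := by
  rw [levi_congr (u1_eventually z hz)]
  have hfl := (fl_contDiffAt z hz)
  have hs : ContDiffAt ℝ 2 (fun z => fl z + fm z) z :=
    (hfl.add fm_contDiff.contDiffAt).of_le (by norm_cast)
  have h := levi_comp1 gg (fun z => fl z + fm z) z (gg_contDiff.contDiffAt.of_le (by norm_cast)) hs w
  rw [h, levi_add fl fm z (hfl.of_le (by norm_cast)) (fm_contDiff.contDiffAt.of_le (by norm_cast))]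
  have e1 : levi fl z w = 0 := levi_l1 z w hz
  have e2 : levi fm z w = ‖w.2‖ ^ 2 / (1 + ‖z.2‖ ^ 2) ^ 2 := levi_m z w
  have hadd : ∀ v : C2, fderiv ℝ (fun z => fl z + fm z) z v = fderiv ℝ fl z v + fderiv ℝ fm z v := by
    intro v
    have := fderiv_fun_add (hfl.differentiableAt (by norm_num))
      (fm_contDiff.contDiffAt.differentiableAt (by norm_num) : DifferentiableAt ℝ fm z)
    rw [this]; rfl
  have f1 : ∀ v : C2, fderiv ℝ fl z v = (z.1.re * v.1.re + z.1.im * v.1.im) / ‖z.1‖ ^ 2 :=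
    fun v => fderiv_l1 z v hz
  have f2 : ∀ v : C2, fderiv ℝ fm z v = 2 * (z.2.re * v.2.re + z.2.im * v.2.im) / (1 + ‖z.2‖ ^ 2) :=
    fun v => fderiv_m z v
  rw [e1, e2, hadd, hadd, f1, f2, f1, f2, zero_add]
  have g1 := gg_deriv_pos (fl z + fm z)
  have g2 := gg_deriv2_pos (fl z + fm z)
  by_cases hw2 : w.2 = 0
  · have hw1 : w.1 ≠ 0 := fun h => hw (Prod.ext h hw2)
    have hsq := sq_pair z.1 w.1
    have hn1 : 0 < ‖z.1‖ ^ 2 := by have := norm_pos_iff.mpr hz; positivity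
    have hn2 : 0 < ‖w.1‖ ^ 2 := by have := norm_pos_iff.mpr hw1; positivity
    simp only [hw2, Prod.smul_fst, Prod.smul_snd, smul_eq_mul, mul_zero, Complex.zero_re,
      Complex.zero_im, add_zero, zero_div, norm_zero]
    have e3 : ((z.1.re * w.1.re + z.1.im * w.1.im) / ‖z.1‖ ^ 2) ^ 2 +
        ((z.1.re * (Complex.I * w.1).re + z.1.im * (Complex.I * w.1).im) / ‖z.1‖ ^ 2) ^ 2 =
        ‖w.1‖ ^ 2 / ‖z.1‖ ^ 2 := by
      rw [div_pow, div_pow, ← add_div, hsq]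
      field_simp
    rw [e3]
    positivity
  · have hn : 0 < ‖w.2‖ ^ 2 := by have := norm_pos_iff.mpr hw2; positivity
    have : 0 < deriv gg (fl z + fm z) * (‖w.2‖ ^ 2 / (1 + ‖z.2‖ ^ 2) ^ 2) := by positivity
    have h3 : 0 ≤ deriv (deriv gg) (fl z + fm z) *
      (((z.1.re * w.1.re + z.1.im * w.1.im) / ‖z.1‖ ^ 2 +
        2 * (z.2.re * w.2.re + z.2.im * w.2.im) / (1 + ‖z.2‖ ^ 2)) ^ 2 +
       ((z.1.re * (Complex.I • w).1.re + z.1.im * (Complex.I • w).1.im) / ‖z.1‖ ^ 2 +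
        2 * (z.2.re * (Complex.I • w).2.re + z.2.im * (Complex.I • w).2.im) / (1 + ‖z.2‖ ^ 2)) ^ 2) / 4 := by
      positivity
    linarith

theorem levi_u1e_nonneg (ε : ℝ) (hε : 0 < ε) (z w : C2) : 0 ≤ levi (u1e ε) z w := by
  rw [u1e_eq ε hε]
  have hs : ContDiffAt ℝ 2 (fun z => fle ε z + fm z) z :=
    ((fle_contDiff ε hε).contDiffAt.add fm_contDiff.contDiffAt).of_le (by norm_cast)
  have h := levi_comp1 gg (fun z => fle ε z + fm z) z (gg_contDiff.contDiffAt.of_le (by norm_cast))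
    hs w
  rw [h, levi_add (fle ε) fm z ((fle_contDiff ε hε).contDiffAt.of_le (by norm_cast))
    (fm_contDiff.contDiffAt.of_le (by norm_cast))]
  have e1 : levi (fle ε) z w = _ := levi_lg ε hε z w
  have e2 : levi fm z w = ‖w.2‖ ^ 2 / (1 + ‖z.2‖ ^ 2) ^ 2 := levi_m z w
  rw [e1, e2]
  have g1 := gg_deriv_pos (fle ε z + fm z)
  have g2 := gg_deriv2_pos (fle ε z + fm z)
  positivity

theorem smoothPsh_u1e (ε : ℝ) (hε : 0 < ε) : SmoothPsh (u1e ε) :=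
  ⟨u1e_contDiff ε hε, levi_u1e_nonneg ε hε⟩

/-! ### `u₂` -/

theorem u2_contDiffAt (z : C2) (hz : z.1 ≠ 0) : ContDiffAt ℝ ∞ u2 z := by
  have h1 := q_contDiffAt (pot z, fl z) (le_pot z)
  exact h1.comp z (pot_contDiff.contDiffAt.prodMk (fl_contDiffAt z hz))

theorem levi_u2_pos (z w : C2) (hz : z.1 ≠ 0) (hw : w ≠ 0) : 0 < levi u2 z w := by
  have h := levi_comp2 (fun p : ℝ × ℝ => p.1 - Real.sqrt (1 + p.1 - p.2)) pot fl z
    ((q_contDiffAt (pot z, fl z) (le_pot z)).of_le (by norm_cast))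
    (pot_contDiff.contDiffAt.of_le (by norm_cast)) ((fl_contDiffAt z hz).of_le (by norm_cast)) w
  have e0 : levi fl z w = 0 := levi_l1 z w hz
  rw [q_fderiv_1 _ (le_pot z), q_fderiv_2 _ (le_pot z), e0] at h
  have e : levi u2 z w = _ := h
  rw [e]
  have h1 : 1 ≤ Real.sqrt (1 + pot z - fl z) := by
    rw [Real.one_le_sqrt]; have := le_pot z; unfold fl; linarith
  have h2 : 1 / (2 * Real.sqrt (1 + pot z - fl z)) ≤ 1 / 2 := by
    apply one_div_le_one_div_of_le (by norm_num); linarith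
  have h3 := levi_pot_pos z w hw
  have h4 : 0 < (1 - 1 / (2 * Real.sqrt (1 + pot z - fl z))) * levi pot z w :=
    mul_pos (by linarith) h3
  have h5 := q_hess_nonneg (pot z, fl z) (le_pot z) (fderiv ℝ pot z w, fderiv ℝ fl z w)
  have h6 := q_hess_nonneg (pot z, fl z) (le_pot z)
    (fderiv ℝ pot z (Complex.I • w), fderiv ℝ fl z (Complex.I • w))
  simp only at h5 h6 ⊢
  linarith

end Pool.Agent.H314.MA
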